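import Mathlib

set_option autoImplicit false

/-!
Echelon subgroups of free groups, and reading words in (partial, inverse) automata.
-/

namespace Pool.Agent.V1129.Ech

/-- `H` is a free group of rank `r`. -/
def HasRank {F : Type*} [Group F] (H : Subgroup F) (r : ℕ) : Prop :=
  Nonempty (H ≃* FreeGroup (Fin r))

/-- `(x 0, …, x (n-1))` is an (ordered) free basis of `F`. -/
def IsBasis {F : Type*} [Group F] {n : ℕ} (x : Fin n → F) : Prop :=
  Function.Bijective (FreeGroup.lift x : FreeGroup (Fin n) →* F)

/-- the subgroup `F_i` generated by the first `i` elements of `x` -/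
def flag {F : Type*} [Group F] {n : ℕ} (x : Fin n → F) (i : ℕ) : Subgroup F :=
  Subgroup.closure (x '' {k | (k : ℕ) < i})

/-- `H` is in echelon form with respect to `x`: for `i = 1, …, n` the intersections `H ∩ F_i` and
`H ∩ F_{i-1}` have finite ranks which differ by at most one. -/
def EchelonForm {F : Type*} [Group F] {n : ℕ} (x : Fin n → F) (H : Subgroup F) : Prop :=
  ∀ i < n, ∃ r s : ℕ, HasRank (H ⊓ flag x (i + 1)) r ∧ HasRank (H ⊓ flag x i) s ∧ r ≤ s + 1

/-- `H` is an echelon subgroup of `F`: it is in echelon form with respect to some ordered free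
basis of `F`. -/
def Echelon {F : Type*} [Group F] (H : Subgroup F) : Prop :=
  ∃ (n : ℕ) (x : Fin n → F), IsBasis x ∧ EchelonForm x H

section Automata

variable {α S : Type*} (δ : S → α × Bool → Option S)

/-- the word `L` can be read from `s` to `t` -/
inductive Reads : S → List (α × Bool) → S → Prop
  | nil (s : S) : Reads s [] s
  | cons {s t u : S} {x : α × Bool} {L : List (α × Bool)} :
      δ s x = some t → Reads t L u → Reads s (x :: L) u

variable {δ}

lemma Reads.append {s t u : S} {L M : List (α × Bool)} (h : Reads δ s L t) (h' : Reads δ t M u) :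
    Reads δ s (L ++ M) u := by
  induction h with
  | nil s => exact h'
  | cons h1 _ ih => exact Reads.cons h1 (ih h')

lemma reads_append {s u : S} {L M : List (α × Bool)} (h : Reads δ s (L ++ M) u) :
    ∃ t, Reads δ s L t ∧ Reads δ t M u := by
  induction L generalizing s with
  | nil => exact ⟨s, Reads.nil s, h⟩
  | cons x L ih =>
    rw [List.cons_append] at h
    cases h with
    | cons h1 h2 =>
      obtain ⟨t, h3, h4⟩ := ih h2
      exact ⟨t, Reads.cons h1 h3, h4⟩

variable (hδ : ∀ s x b t, δ s (x, b) = some t → δ t (x, !b) = some s)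

include hδ

lemma Reads.step {s t : S} {L M : List (α × Bool)} (h : Reads δ s L t)
    (hs : FreeGroup.Red.Step L M) : Reads δ s M t := by
  cases hs with
  | not =>
    obtain ⟨u, h1, h2⟩ := reads_append h
    cases h2 with
    | cons h3 h4 =>
      cases h4 with
      | cons h5 h6 =>
        have h7 := hδ _ _ _ _ h3
        rw [h7] at h5
        cases h5
        exact h1.append h6

lemma Reads.red {s t : S} {L M : List (α × Bool)} (h : Reads δ s L t)
    (hs : FreeGroup.Red L M) : Reads δ s M t := by
  induction hs with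
  | refl => exact h
  | tail _ h2 ih => exact ih.step hδ h2

lemma Reads.invRev {s t : S} {L : List (α × Bool)} (h : Reads δ s L t) :
    Reads δ t (FreeGroup.invRev L) s := by
  induction h with
  | nil s => exact Reads.nil s
  | @cons s t u x L h1 _ ih =>
    have h2 : FreeGroup.invRev (x :: L) = FreeGroup.invRev L ++ [(x.1, !x.2)] := by
      simp [FreeGroup.invRev]
    rw [h2]
    refine ih.append (Reads.cons (hδ _ _ _ _ h1) (Reads.nil _))

lemma reads_closure [DecidableEq α] {s₀ : S} {T : Set (FreeGroup α)}
    (hT : ∀ g ∈ T, ∃ L, FreeGroup.mk L = g ∧ Reads δ s₀ L s₀) {k : FreeGroup α}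
    (hk : k ∈ Subgroup.closure T) : Reads δ s₀ k.toWord s₀ := by
  have h1 : ∃ L, FreeGroup.mk L = k ∧ Reads δ s₀ L s₀ := by
    induction hk using Subgroup.closure_induction with
    | mem g hg => exact hT g hg
    | one => exact ⟨[], rfl, Reads.nil _⟩
    | mul x y _ _ hx hy =>
      obtain ⟨L, rfl, hL⟩ := hx
      obtain ⟨M, rfl, hM⟩ := hy
      exact ⟨L ++ M, rfl, hL.append hM⟩
    | inv x _ hx =>
      obtain ⟨L, rfl, hL⟩ := hx
      exact ⟨FreeGroup.invRev L, rfl, hL.invRev hδ⟩
  obtain ⟨L, rfl, hL⟩ := h1
  rw [FreeGroup.toWord_mk]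
  exact hL.red hδ FreeGroup.reduce.red

end Automata

/-- potentials on the fibre product of two automata -/
lemma potential {α S S' Q : Type*} [Group Q] {δ : S → α × Bool → Option S}
    {δ' : S' → α × Bool → Option S'} (μ : FreeGroup α →* Q) (p : S → S' → Option Q)
    (hp : ∀ s s' x t t' q, p s s' = some q → δ s x = some t → δ' s' x = some t' →
      p t t' = some (q * μ (FreeGroup.mk [x])))
    {s t : S} {s' t' : S'} {L : List (α × Bool)} (h : Reads δ s L t) (h' : Reads δ' s' L t')
    {q : Q} (hq : p s s' = some q) : p t t' = some (q * μ (FreeGroup.mk L)) := by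
  induction h generalizing s' q with
  | nil s =>
    cases h'
    rw [hq]
    have : FreeGroup.mk ([] : List (α × Bool)) = 1 := rfl
    rw [this, map_one, mul_one]
  | @cons s t u x L h1 _ ih =>
    cases h' with
    | @cons _ t₁ _ _ _ h3 h4 =>
      have h5 := ih h4 (hp _ _ _ _ _ _ hq h1 h3)
      rw [h5, mul_assoc, ← map_mul, FreeGroup.mul_mk]
      rfl

lemma card_basis {m n : ℕ} (x : Fin n → FreeGroup (Fin m)) (hx : IsBasis x) : n = m := by
  let e : FreeGroup (Fin n) ≃* FreeGroup (Fin m) := MulEquiv.ofBijective (FreeGroup.lift x) hx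
  let M := Multiplicative (ZMod 2)
  let E : (FreeGroup (Fin n) →* M) ≃ (FreeGroup (Fin m) →* M) :=
    { toFun := fun f => f.comp e.symm.toMonoidHom
      invFun := fun f => f.comp e.toMonoidHom
      left_inv := by
        intro f
        ext1 k
        simp
      right_inv := by
        intro f
        ext1 k
        simp }
  have h1 : (Fin n → M) ≃ (Fin m → M) := (FreeGroup.lift.trans E).trans FreeGroup.lift.symm
  have h2 := Fintype.card_congr h1
  rw [Fintype.card_fun, Fintype.card_fun, Fintype.card_fin, Fintype.card_fin] at h2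
  have h3 : Fintype.card M = 2 := rfl
  rw [h3] at h2
  exact Nat.pow_right_injective le_rfl h2

lemma comm_of_rank {F : Type*} [Group F] {H : Subgroup F} {r : ℕ} (h : HasRank H r) (hr : r ≤ 1)
    {u v : F} (hu : u ∈ H) (hv : v ∈ H) : u * v = v * u := by
  obtain ⟨e⟩ := h
  have h1 : ∀ a b : FreeGroup (Fin r), a * b = b * a := by
    have h2 : ∀ a : FreeGroup (Fin r), ∀ i j : Fin r, FreeGroup.of i * FreeGroup.of j =
        FreeGroup.of j * FreeGroup.of i := by
      intro a i j
      have : i = j := by
        apply Fin.ext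
        omega
      rw [this]
    intro a b
    have hc : ∀ i : Fin r, ∀ b : FreeGroup (Fin r), FreeGroup.of i * b = b * FreeGroup.of i := by
      intro i b
      induction b using FreeGroup.induction_on with
      | C1 => simp
      | of j => exact h2 1 i j
      | inv_of j hj => exact (Commute.inv_right (show Commute _ _ from hj))
      | mul x y hx hy => exact (Commute.mul_right (show Commute _ _ from hx) hy)
    induction a using FreeGroup.induction_on with
    | C1 => simp
    | of j => exact hc j b
    | inv_of j hj => exact (Commute.inv_left (show Commute _ _ from hj))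
    | mul x y hx hy => exact (Commute.mul_left (show Commute _ _ from hx) hy)
  have h3 := h1 (e ⟨u, hu⟩) (e ⟨v, hv⟩)
  rw [← map_mul, ← map_mul] at h3
  exact congrArg Subtype.val (e.injective h3)

lemma ne_bot_of_rank {F : Type*} [Group F] {H : Subgroup F} {r : ℕ} (h : HasRank H r)
    (hr : 1 ≤ r) : ∃ k ∈ H, k ≠ 1 := by
  obtain ⟨e⟩ := h
  refine ⟨(e.symm (FreeGroup.of ⟨0, hr⟩) : H), (e.symm _).2, ?_⟩
  intro h1
  have h2 : e.symm (FreeGroup.of ⟨0, hr⟩) = 1 := Subtype.ext h1
  have h3 : FreeGroup.of (⟨0, hr⟩ : Fin r) = 1 := by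
    have := congrArg e h2
    simpa using this
  exact FreeGroup.of_ne_one _ h3

lemma hasRank_bot {F : Type*} [Group F] {H : Subgroup F} (h : H = ⊥) : HasRank H 0 := by
  subst h
  refine ⟨MulEquiv.ofUnique⟩

lemma flag_zero {F : Type*} [Group F] {n : ℕ} (x : Fin n → F) : flag x 0 = ⊥ := by
  simp [flag]

lemma flag_top {F : Type*} [Group F] {n : ℕ} (x : Fin n → F) (hx : IsBasis x) :
    flag x n = ⊤ := by
  have h1 : (x '' {k | (k : ℕ) < n}) = Set.range x := by
    ext y
    simp
  rw [flag, h1, ← FreeGroup.range_lift_eq_closure, MonoidHom.range_eq_top]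
  exact hx.2

end Pool.Agent.V1129.Ech
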