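import Mathlib
import Pool.Agent.V1129.Ech

set_option autoImplicit false

/-!
More on echelon subgroups of free groups: freeness criteria, intersections, extension of
homomorphisms from `K ∩ A` (with `A` generated by a part of a basis) to `K`.
-/

namespace Pool.Agent.V1129.Ech

section Blocks

variable {β α : Type*} [DecidableEq α] [DecidableEq β]

/-- the word of a letter -/
def blk (B : β → List (α × Bool)) (x : β × Bool) : List (α × Bool) :=
  if x.2 then B x.1 else FreeGroup.invRev (B x.1)

lemma lift_mk (B : β → List (α × Bool)) (L : List (β × Bool)) :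
    FreeGroup.lift (fun i => FreeGroup.mk (B i)) (FreeGroup.mk L) =
      FreeGroup.mk (L.flatMap (blk B)) := by
  induction L with
  | nil => simp [FreeGroup.one_eq_mk]
  | cons x L ih =>
    have h1 : (FreeGroup.mk (x :: L) : FreeGroup β) = FreeGroup.mk [x] * FreeGroup.mk L := by
      rw [FreeGroup.mul_mk]; rfl
    rw [h1, map_mul, ih, List.flatMap_cons, ← FreeGroup.mul_mk]
    congr 1
    obtain ⟨i, c⟩ := x
    cases c
    · have h2 : (FreeGroup.mk [(i, false)] : FreeGroup β) = (FreeGroup.of i)⁻¹ := rfl
      rw [h2, map_inv, FreeGroup.lift_apply_of, FreeGroup.inv_mk]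
      rfl
    · have h2 : (FreeGroup.mk [(i, true)] : FreeGroup β) = FreeGroup.of i := rfl
      rw [h2, FreeGroup.lift_apply_of]
      rfl

/-- If the concatenation of two consecutive blocks is always reduced then the block map is
injective. -/
lemma lift_injective (B : β → List (α × Bool)) (hne : ∀ i, B i ≠ [])
    (hB : ∀ x y : β × Bool, (x.1 = y.1 → x.2 = y.2) → FreeGroup.IsReduced (blk B x ++ blk B y)) :
    Function.Injective (FreeGroup.lift (fun i => FreeGroup.mk (B i))) := by
  have hblk : ∀ x, blk B x ≠ [] := by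
    rintro ⟨i, c⟩
    cases c
    · simp only [blk, Bool.false_eq_true, if_false]
      intro h
      apply hne i
      have := congrArg List.length h
      rw [FreeGroup.invRev_length] at this
      exact List.length_eq_zero_iff.1 this
    · simpa [blk] using hne i
  have hred : ∀ L : List (β × Bool), FreeGroup.IsReduced L →
      FreeGroup.IsReduced (L.flatMap (blk B)) := by
    intro L
    induction L with
    | nil => intro _; simpa using FreeGroup.IsReduced.nil
    | cons x L ih =>
      intro hL
      cases L with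
      | nil =>
        have h1 := hB x x (fun _ => rfl)
        have h2 : [x].flatMap (blk B) = blk B x := by simp
        rw [h2]
        exact (List.isChain_append.1 h1).1
      | cons y M =>
        rw [FreeGroup.IsReduced, List.isChain_cons_cons] at hL
        have h1 := ih hL.2
        have h2 := hB x y hL.1
        have h3 := FreeGroup.IsReduced.append_overlap h2
          (L₃ := M.flatMap (blk B)) (by simpa using h1) (hblk y)
        simpa [List.append_assoc] using h3
  rw [injective_iff_map_eq_one]
  intro u hu
  rw [← FreeGroup.mk_toWord (x := u), lift_mk] at hu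
  have h1 := hred u.toWord FreeGroup.isReduced_toWord
  have h2 : (FreeGroup.mk (u.toWord.flatMap (blk B))).toWord = u.toWord.flatMap (blk B) := by
    rw [FreeGroup.toWord_mk]
    exact h1.reduce_eq
  rw [hu, FreeGroup.toWord_one] at h2
  have h3 : u.toWord = [] := by
    by_contra hne'
    obtain ⟨x, M, hxM⟩ := List.exists_cons_of_ne_nil hne'
    rw [hxM, List.flatMap_cons] at h2
    have := List.append_eq_nil_iff.1 h2.symm
    exact hblk x this.1
  exact FreeGroup.toWord_eq_nil_iff.1 h3

end Blocks

/-- potentials with values in right cosets of a subgroup -/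
lemma potential_coset {α S S' : Type*} {δ : S → α × Bool → Option S}
    {δ' : S' → α × Bool → Option S'} (K : Subgroup (FreeGroup α))
    (p : S → S' → Option (FreeGroup α))
    (hp : ∀ s s' x t t' q, p s s' = some q → δ s x = some t → δ' s' x = some t' →
      ∃ q', p t t' = some q' ∧ q * FreeGroup.mk [x] * q'⁻¹ ∈ K)
    {s t : S} {s' t' : S'} {L : List (α × Bool)} (h : Reads δ s L t) (h' : Reads δ' s' L t')
    {q : FreeGroup α} (hq : p s s' = some q) :
    ∃ q', p t t' = some q' ∧ q * FreeGroup.mk L * q'⁻¹ ∈ K := by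
  induction h generalizing s' q with
  | nil s =>
    cases h'
    refine ⟨q, hq, ?_⟩
    have : FreeGroup.mk ([] : List (α × Bool)) = 1 := rfl
    rw [this, mul_one, mul_inv_cancel]
    exact one_mem _
  | @cons s t u x L h1 _ ih =>
    cases h' with
    | @cons _ t₁ _ _ _ h3 h4 =>
      obtain ⟨q₁, hq₁, hK₁⟩ := hp _ _ _ _ _ _ hq h1 h3
      obtain ⟨q₂, hq₂, hK₂⟩ := ih h4 hq₁
      refine ⟨q₂, hq₂, ?_⟩
      have h5 : q * FreeGroup.mk (x :: L) * q₂⁻¹ =
          (q * FreeGroup.mk [x] * q₁⁻¹) * (q₁ * FreeGroup.mk L * q₂⁻¹) := by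
        have h6 : (FreeGroup.mk (x :: L) : FreeGroup α) = FreeGroup.mk [x] * FreeGroup.mk L := by
          rw [FreeGroup.mul_mk]; rfl
        rw [h6]
        group
      rw [h5]
      exact mul_mem hK₁ hK₂

/-- invariance under isomorphism -/
lemma echelon_of_equiv {F F' : Type*} [Group F] [Group F'] (τ : F ≃* F') (H : Subgroup F)
    (h : Echelon H) : Echelon (H.map τ.toMonoidHom) := by
  obtain ⟨n, x, hx, hH⟩ := h
  have hflag : ∀ i, (flag x i).map τ.toMonoidHom = flag (fun k => τ (x k)) i := by
    intro i
    rw [flag, flag, MonoidHom.map_closure, ← Set.image_comp]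
    rfl
  have hrank : ∀ (L : Subgroup F) (r : ℕ), HasRank L r → HasRank (L.map τ.toMonoidHom) r := by
    rintro L r ⟨e⟩
    exact ⟨(L.equivMapOfInjective τ.toMonoidHom τ.injective).symm.trans e⟩
  refine ⟨n, fun k => τ (x k), ?_, ?_⟩
  · have h1 : (FreeGroup.lift (fun k => τ (x k)) : FreeGroup (Fin n) →* F') =
        τ.toMonoidHom.comp (FreeGroup.lift x) := by
      ext k
      simp
    rw [IsBasis, h1]
    exact τ.bijective.comp hx
  · intro i hi
    obtain ⟨r, s, hr, hs, hrs⟩ := hH i hi
    refine ⟨r, s, ?_, ?_, hrs⟩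
    · rw [← hflag, ← Subgroup.map_inf _ _ _ τ.injective]
      exact hrank _ _ hr
    · rw [← hflag, ← Subgroup.map_inf _ _ _ τ.injective]
      exact hrank _ _ hs

/-- a subgroup `⟨a, s⟩` of the free group on `a, b`, free on `a, s`, is echelon -/
lemma echelon_pair (s : FreeGroup (Fin 2))
    (hs : Function.Injective (FreeGroup.lift ![FreeGroup.of 0, s] :
      FreeGroup (Fin 2) →* FreeGroup (Fin 2))) :
    Echelon (Subgroup.closure {FreeGroup.of 0, s} : Subgroup (FreeGroup (Fin 2))) := by
  have basis_ab : IsBasis (![FreeGroup.of 0, FreeGroup.of 1] : Fin 2 → FreeGroup (Fin 2)) := by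
    have h : (FreeGroup.lift ![FreeGroup.of 0, FreeGroup.of 1] :
        FreeGroup (Fin 2) →* FreeGroup (Fin 2)) = MonoidHom.id _ := by
      ext i
      fin_cases i <;> simp
    rw [IsBasis, h]
    exact Function.bijective_id
  have h2 : HasRank (Subgroup.closure {FreeGroup.of 0, s} : Subgroup (FreeGroup (Fin 2))) 2 := by
    have : (FreeGroup.lift ![FreeGroup.of 0, s] : FreeGroup (Fin 2) →* FreeGroup (Fin 2)).range =
        Subgroup.closure {FreeGroup.of 0, s} := by
      rw [FreeGroup.range_lift_eq_closure]
      congr 1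
      simp [Matrix.range_cons, Set.pair_comm]
    rw [← this]
    exact ⟨(MonoidHom.ofInjective hs).symm⟩
  have h1 : HasRank (Subgroup.closure {FreeGroup.of 0, s} ⊓
      flag (![FreeGroup.of 0, FreeGroup.of 1] : Fin 2 → FreeGroup (Fin 2)) 1) 1 := by
    have h1 : flag (![FreeGroup.of 0, FreeGroup.of 1] : Fin 2 → FreeGroup (Fin 2)) 1 =
        Subgroup.zpowers (FreeGroup.of 0) := by
      rw [flag, Subgroup.zpowers_eq_closure]
      congr 1
      ext y
      constructor
      · rintro ⟨k, hk, rfl⟩
        have : k = 0 := by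
          apply Fin.ext
          simp only [Set.mem_ofPred_eq] at hk
          simpa using hk
        subst this
        rfl
      · rintro rfl
        exact ⟨0, by simp, rfl⟩
    have h2 : Subgroup.closure {FreeGroup.of 0, s} ⊓
        flag (![FreeGroup.of 0, FreeGroup.of 1] : Fin 2 → FreeGroup (Fin 2)) 1 =
        Subgroup.zpowers (FreeGroup.of 0) := by
      rw [h1, inf_eq_right, Subgroup.zpowers_le]
      exact Subgroup.subset_closure (by simp)
    rw [h2]
    let f : FreeGroup (Fin 1) →* FreeGroup (Fin 2) := FreeGroup.map (fun _ => (0 : Fin 2))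
    have hf : Function.Injective f :=
      FreeGroup.map_injective (fun x y _ => Subsingleton.elim x y)
    have hr : f.range = Subgroup.zpowers (FreeGroup.of 0) := by
      have h3 : f = FreeGroup.lift (fun _ => FreeGroup.of 0) := by
        ext i
        simp [f]
      rw [h3, FreeGroup.range_lift_eq_closure, Subgroup.zpowers_eq_closure]
      congr 1
      simp
    rw [← hr]
    exact ⟨(MonoidHom.ofInjective hf).symm⟩
  refine ⟨2, _, basis_ab, ?_⟩
  intro i hi
  interval_cases i
  · exact ⟨1, 0, h1, hasRank_bot (by rw [flag_zero, inf_bot_eq]), le_rfl⟩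
  · refine ⟨2, 1, ?_, h1, le_rfl⟩
    rw [flag_top _ basis_ab, inf_top_eq]
    exact h2

end Pool.Agent.V1129.Ech
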