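import Mathlib
import Pool.Agent.V1129.Ech2

set_option autoImplicit false

/-!
Let `A` be generated by part of a basis of the free group `E` and let `K` be a subgroup of `E`.
Then every homomorphism from `K ∩ A` to a commutative group extends to `K`.
-/

namespace Pool.Agent.V1129.Ech

open Classical in
theorem extend_hom {E M : Type*} [Group E] [CommGroup M] {n : ℕ} (v : Fin n → E)
    (hv : IsBasis v) (T : Set (Fin n)) (K A : Subgroup E) (hA : A = Subgroup.closure (v '' T))
    (f : ↥(K ⊓ A) →* M) :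
    ∃ f' : K →* M, ∀ (d : E) (hd : d ∈ K ⊓ A), f' ⟨d, hd.1⟩ = f ⟨d, hd⟩ := by
  let X := E ⧸ K
  let q0 : X := ((1 : E) : E ⧸ K)
  have hq0 : ∀ g : E, g • q0 = q0 ↔ g ∈ K := by
    intro g
    show ((g * 1 : E) : E ⧸ K) = ((1 : E) : E ⧸ K) ↔ _
    rw [mul_one, eq_comm, QuotientGroup.eq, inv_one, one_mul]
  let O : Set X := {q | ∃ a ∈ A, a • q0 = q}
  -- the section
  let s : X → E := fun q => if q = q0 then 1 else if h : ∃ a ∈ A, a • q0 = q then h.choose else 1
  have hs0 : s q0 = 1 := by simp [s]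
  have hs : ∀ q ∈ O, s q ∈ A ∧ s q • q0 = q := by
    intro q hq
    by_cases h : q = q0
    · subst h
      rw [hs0]
      exact ⟨one_mem _, one_smul _ _⟩
    · have h1 : s q = (show ∃ a ∈ A, a • q0 = q from hq).choose := by
        simp only [s, if_neg h]
        rw [dif_pos (show ∃ a ∈ A, a • q0 = q from hq)]
      rw [h1]
      exact (show ∃ a ∈ A, a • q0 = q from hq).choose_spec
  have hO : ∀ a ∈ A, ∀ q ∈ O, a • q ∈ O := by
    rintro a ha q ⟨b, hb, rfl⟩
    exact ⟨a * b, mul_mem ha hb, mul_smul _ _ _⟩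
  let F : E → M := fun g => if h : g ∈ K ⊓ A then f ⟨g, h⟩ else 1
  have hF : ∀ g (h : g ∈ K ⊓ A), F g = f ⟨g, h⟩ := fun g h => dif_pos h
  have hFmul : ∀ g h, g ∈ K ⊓ A → h ∈ K ⊓ A → F (g * h) = F g * F h := by
    intro g h hg hh
    rw [hF _ hg, hF _ hh, hF _ (mul_mem hg hh), ← map_mul]
    rfl
  have hF1 : F 1 = 1 := by
    rw [hF 1 (one_mem _)]
    exact map_one f
  let c : E → X → M := fun a q => F ((s (a • q))⁻¹ * a * s q)
  have hcmem : ∀ a ∈ A, ∀ q ∈ O, (s (a • q))⁻¹ * a * s q ∈ K ⊓ A := by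
    intro a ha q hq
    obtain ⟨h1, h2⟩ := hs q hq
    obtain ⟨h3, h4⟩ := hs (a • q) (hO a ha q hq)
    refine Subgroup.mem_inf.2 ⟨?_, mul_mem (mul_mem (inv_mem h3) ha) h1⟩
    rw [← hq0, mul_smul, mul_smul, h2, inv_smul_eq_iff, h4]
  -- the permutations
  let w : Fin n → X → M := fun i q => if i ∈ T ∧ q ∈ O then c (v i) q else 1
  let Pg : Fin n → Equiv.Perm (X × M) := fun i =>
    { toFun := fun p => (v i • p.1, w i p.1 * p.2)
      invFun := fun p => ((v i)⁻¹ • p.1, (w i ((v i)⁻¹ • p.1))⁻¹ * p.2)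
      left_inv := by
        rintro ⟨q, t⟩
        simp
      right_inv := by
        rintro ⟨q, t⟩
        simp }
  let e : FreeGroup (Fin n) ≃* E := MulEquiv.ofBijective (FreeGroup.lift v) hv
  have he : ∀ i, e (FreeGroup.of i) = v i := fun i => by
    show FreeGroup.lift v (FreeGroup.of i) = v i
    simp
  let P' : FreeGroup (Fin n) →* Equiv.Perm (X × M) := FreeGroup.lift Pg
  have hP' : ∀ (x : FreeGroup (Fin n)) (q : X), ∃ m : M, ∀ t : M,
      P' x (q, t) = (e x • q, m * t) := by
    intro x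
    induction x using FreeGroup.induction_on with
    | C1 =>
      intro q
      refine ⟨1, fun t => ?_⟩
      rw [map_one, map_one, one_smul, one_mul]
      rfl
    | of i =>
      intro q
      refine ⟨w i q, fun t => ?_⟩
      rw [he]
      show (FreeGroup.lift Pg (FreeGroup.of i)) (q, t) = _
      rw [FreeGroup.lift_apply_of]
      rfl
    | inv_of i h =>
      intro q
      obtain ⟨m, hm⟩ := h ((e (FreeGroup.of i))⁻¹ • q)
      refine ⟨m⁻¹, fun t => ?_⟩
      rw [map_inv, Equiv.Perm.inv_eq_iff_eq, map_inv, hm, smul_inv_smul, mul_inv_cancel_left]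
    | mul x y hx hy =>
      intro q
      obtain ⟨m, hm⟩ := hy q
      obtain ⟨m', hm'⟩ := hx (e y • q)
      refine ⟨m' * m, fun t => ?_⟩
      rw [map_mul, Equiv.Perm.mul_apply, hm, hm', map_mul, mul_smul, mul_assoc]
  let κ : E → X → M := fun g q => (P' (e.symm g) (q, 1)).2
  have hκ : ∀ g q t, P' (e.symm g) (q, t) = (g • q, κ g q * t) := by
    intro g q t
    obtain ⟨m, hm⟩ := hP' (e.symm g) q
    have h1 : κ g q = m := by
      show (P' (e.symm g) (q, 1)).2 = m
      rw [hm, mul_one]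
    rw [hm, h1, MulEquiv.apply_symm_apply]
  have hκmul : ∀ g h q, κ (g * h) q = κ g (h • q) * κ h q := by
    intro g h q
    have h1 := hκ (g * h) q 1
    rw [map_mul, map_mul, Equiv.Perm.mul_apply, hκ, hκ] at h1
    have h2 := congrArg Prod.snd h1
    simp only [mul_one] at h2
    exact h2.symm
  have hκone : ∀ q, κ 1 q = 1 := by
    intro q
    have := hκmul 1 1 q
    rw [one_smul, mul_one] at this
    exact (mul_eq_left.1 this.symm)
  have hκc : ∀ a ∈ A, ∀ q ∈ O, κ a q = c a q := by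
    intro a ha
    rw [hA] at ha
    induction ha using Subgroup.closure_induction with
    | mem g hg =>
      obtain ⟨i, hi, rfl⟩ := hg
      intro q hq
      have h1 : P' (e.symm (v i)) = Pg i := by
        rw [← he i, MulEquiv.symm_apply_apply]
        show FreeGroup.lift Pg (FreeGroup.of i) = _
        rw [FreeGroup.lift_apply_of]
      show (P' (e.symm (v i)) (q, 1)).2 = c (v i) q
      rw [h1]
      show w i q * 1 = c (v i) q
      simp only [w, if_pos (And.intro hi hq), mul_one]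
    | one =>
      intro q hq
      rw [hκone]
      show 1 = F ((s ((1 : E) • q))⁻¹ * 1 * s q)
      rw [one_smul, mul_one, inv_mul_cancel, hF1]
    | mul a b ha hb iha ihb =>
      intro q hq
      rw [← hA] at ha hb
      rw [hκmul, iha _ (hO b hb q hq), ihb q hq]
      show F _ * F _ = F _
      rw [← hFmul _ _ (hcmem a ha _ (hO b hb q hq)) (hcmem b hb q hq), mul_smul]
      congr 1
      group
    | inv a ha iha =>
      intro q hq
      rw [← hA] at ha
      have hq' : a⁻¹ • q ∈ O := hO _ (inv_mem ha) q hq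
      have h1 := hκmul a a⁻¹ q
      rw [mul_inv_cancel, hκone, iha _ hq'] at h1
      have h2 : κ a⁻¹ q = (c a (a⁻¹ • q))⁻¹ := eq_inv_of_mul_eq_one_right h1.symm
      rw [h2, inv_eq_iff_mul_eq_one]
      show F _ * F _ = 1
      rw [← hFmul _ _ (hcmem a ha _ hq') (hcmem _ (inv_mem ha) q hq), smul_inv_smul, ← hF1]
      congr 1
      group
  refine ⟨{ toFun := fun k => κ k q0, map_one' := hκone q0, map_mul' := ?_ }, ?_⟩
  · intro k k'
    have h1 : (k' : E) • q0 = q0 := (hq0 _).2 k'.2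
    show κ (k * k') q0 = κ k q0 * κ k' q0
    rw [hκmul, h1]
  · intro d hd
    have hq : q0 ∈ O := ⟨1, one_mem _, one_smul _ _⟩
    have h1 : d • q0 = q0 := (hq0 _).2 hd.1
    show κ d q0 = _
    rw [hκc d hd.2 q0 hq]
    show F ((s (d • q0))⁻¹ * d * s q0) = _
    rw [h1, hs0, inv_one, one_mul, mul_one, hF _ hd]

end Pool.Agent.V1129.Ech
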