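import Mathlib

set_option autoImplicit false

/-!
Locally minimal groups: a criterion for dense subgroups of compact groups.
-/

open Topology Filter

namespace Pool.Agent.V1129

universe u

/-- A topological group is locally minimal if there is a neighbourhood `V` of the identity such
that every Hausdorff group topology on `G` which is coarser than the given one, and in which `V`
is still a neighbourhood of the identity, coincides with the given one. -/
def LocallyMinimal (G : Type u) [Group G] [τ : TopologicalSpace G] : Prop :=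
  ∃ V ∈ 𝓝 (1 : G), ∀ σ : TopologicalSpace G, @IsTopologicalGroup G σ _ → @T2Space G σ →
    τ ≤ σ → V ∈ @nhds G σ 1 → σ = τ

section

variable {G : Type u} [Group G] [TopologicalSpace G] [IsTopologicalGroup G] [CompactSpace G]

/-- filter version of the criterion -/
theorem crit_aux (D : Subgroup G) (hD : Dense (D : Set G)) {V : Set G} (hVc : IsClosed V)
    (h : ∀ N : Subgroup G, N.Normal → IsClosed (N : Set G) → (N : Set G) ⊆ V → N ⊓ D = ⊥ → N = ⊥)
    (F : Filter D) (f0 : 𝓝 (1 : D) ≤ F)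
    (f1 : ∀ S ∈ F, (1 : D) ∈ S)
    (f2 : ∀ S ∈ F, ∃ T ∈ F, ∀ a ∈ T, ∀ b ∈ T, a * b ∈ S)
    (f3 : ∀ S ∈ F, {x : D | x⁻¹ ∈ S} ∈ F)
    (f4 : ∀ d : D, ∀ S ∈ F, {x : D | d * x * d⁻¹ ∈ S} ∈ F)
    (f5 : ∀ d : D, d ≠ 1 → ∃ S ∈ F, d ∉ S)
    (hV : {d : D | (d : G) ∈ V} ∈ F) : F ≤ 𝓝 (1 : D) := by
  let N : Subgroup G :=
    { carrier := {x | ∀ S ∈ F, x ∈ closure ((↑) '' S : Set G)}
      one_mem' := fun S hS => subset_closure ⟨1, f1 S hS, rfl⟩
      mul_mem' := by
        intro x y hx hy S hS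
        obtain ⟨T, hT, hTS⟩ := f2 S hS
        refine map_mem_closure₂ continuous_mul (hx T hT) (hy T hT) ?_
        rintro _ ⟨a, ha, rfl⟩ _ ⟨b, hb, rfl⟩
        exact ⟨a * b, hTS a ha b hb, rfl⟩
      inv_mem' := by
        intro x hx S hS
        refine map_mem_closure continuous_inv (hx _ (f3 S hS)) ?_
        rintro _ ⟨a, ha, rfl⟩
        exact ⟨a⁻¹, ha, rfl⟩ }
  have hmem : ∀ x : G, x ∈ N ↔ ∀ S ∈ F, x ∈ closure ((↑) '' S : Set G) := fun x => Iff.rfl
  have hNclosed : IsClosed (N : Set G) := by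
    have : (N : Set G) = ⋂ S ∈ F, closure ((↑) '' S : Set G) := by
      ext x
      simp only [Set.mem_iInter]
      exact Iff.rfl
    rw [this]
    exact isClosed_biInter fun S _ => isClosed_closure
  have hNnormal : N.Normal := by
    constructor
    intro x hx g
    have hcl : IsClosed {g : G | g * x * g⁻¹ ∈ N} :=
      hNclosed.preimage (f := fun g : G => g * x * g⁻¹) (by fun_prop)
    have hsub : (D : Set G) ⊆ {g : G | g * x * g⁻¹ ∈ N} := by
      intro d hd S hS
      have h1 := hx _ (f4 ⟨d, hd⟩ S hS)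
      refine map_mem_closure (f := fun y : G => d * y * d⁻¹) (by fun_prop) h1 ?_
      rintro _ ⟨a, ha, rfl⟩
      exact ⟨_, ha, rfl⟩
    have := closure_minimal hsub hcl
    rw [hD.closure_eq] at this
    exact this trivial
  have hNV : (N : Set G) ⊆ V := by
    intro x hx
    have h1 := hx _ hV
    have h2 : ((↑) '' {d : D | (d : G) ∈ V} : Set G) ⊆ V := by
      rintro _ ⟨d, hd, rfl⟩
      exact hd
    exact closure_minimal h2 hVc h1
  have hND : N ⊓ D = ⊥ := by
    rw [eq_bot_iff]
    rintro x ⟨hx, hxD⟩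
    rw [Subgroup.mem_bot]
    by_contra hx1
    have hd1 : (⟨x, hxD⟩ : D) ≠ 1 := fun h => hx1 (congrArg Subtype.val h)
    obtain ⟨S₀, hS₀, hdS₀⟩ := f5 _ hd1
    obtain ⟨T, hT, hTS⟩ := f2 S₀ hS₀
    have hS : T ∩ {y : D | y⁻¹ ∈ T} ∈ F := inter_mem hT (f3 T hT)
    have hcl : (⟨x, hxD⟩ : D) ∈ closure (T ∩ {y : D | y⁻¹ ∈ T}) := by
      rw [closure_subtype]
      exact hx _ hS
    rw [mem_closure_iff_nhds] at hcl
    have hnhds : {y : D | (⟨x, hxD⟩ : D)⁻¹ * y ∈ T ∩ {y : D | y⁻¹ ∈ T}} ∈ 𝓝 (⟨x, hxD⟩ : D) := by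
      have hc : Continuous (fun y : D => (⟨x, hxD⟩ : D)⁻¹ * y) := by fun_prop
      apply hc.continuousAt.preimage_mem_nhds
      rw [inv_mul_cancel]
      exact f0 hS
    obtain ⟨y, hy1, hy2⟩ := hcl _ hnhds
    apply hdS₀
    have h3 := hTS y hy2.1 _ hy1.2
    have h4 : y * ((⟨x, hxD⟩ : D)⁻¹ * y)⁻¹ = ⟨x, hxD⟩ := by group
    rwa [h4] at h3
  have hN := h N hNnormal hNclosed hNV hND
  intro U hU
  rw [nhds_subtype_eq_comap, mem_comap] at hU
  obtain ⟨W, hW, hWU⟩ := hU
  have hne : Nonempty {S : Set D // S ∈ F} := ⟨⟨Set.univ, univ_mem⟩⟩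
  have key := exists_subset_nhds_of_isCompact'
    (V := fun S : {S : Set D // S ∈ F} => closure ((↑) '' S.1 : Set G)) ?_
    (fun S => isClosed_closure.isCompact) (fun S => isClosed_closure) (U := W) ?_
  · obtain ⟨S, hS⟩ := key
    refine mem_of_superset S.2 ?_
    intro d hd
    exact hWU (hS (subset_closure ⟨d, hd, rfl⟩))
  · intro S T
    refine ⟨⟨S.1 ∩ T.1, inter_mem S.2 T.2⟩, ?_, ?_⟩
    · exact closure_mono (Set.image_mono Set.inter_subset_left)
    · exact closure_mono (Set.image_mono Set.inter_subset_right)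
  · intro x hx
    rw [Set.mem_iInter] at hx
    have hxN : x ∈ N := fun S hS => hx ⟨S, hS⟩
    rw [hN, Subgroup.mem_bot] at hxN
    rw [hxN]
    exact hW

/-- Criterion: let `D` be a dense subgroup of the compact group `G` and `V` a closed
neighbourhood of `1` in `G` such that every closed normal subgroup of `G` contained in `V` and
meeting `D` trivially is trivial. Then `D` is locally minimal. -/
theorem locallyMinimal_of_dense (D : Subgroup G) (hD : Dense (D : Set G)) {V : Set G}
    (hV1 : V ∈ 𝓝 (1 : G)) (hVc : IsClosed V)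
    (h : ∀ N : Subgroup G, N.Normal → IsClosed (N : Set G) → (N : Set G) ⊆ V → N ⊓ D = ⊥ →
      N = ⊥) : LocallyMinimal D := by
  refine ⟨{d : D | (d : G) ∈ V}, ?_, ?_⟩
  · exact (continuous_subtype_val.continuousAt (x := (1 : D))).preimage_mem_nhds hV1
  · have hD' : IsTopologicalGroup D := inferInstance
    intro σ hσ hσ2 hle hVσ
    have f0 : @nhds D instTopologicalSpaceSubtype 1 ≤ @nhds D σ 1 := _root_.nhds_mono hle
    refine IsTopologicalGroup.ext hσ hD' (le_antisymm ?_ f0)
    apply crit_aux D hD hVc h (@nhds D σ 1) f0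
    · intro S hS
      exact @mem_of_mem_nhds D σ 1 S hS
    · intro S hS
      have h1 : @Filter.Tendsto (D × D) D (fun p => p.1 * p.2)
          (@nhds (D × D) (@instTopologicalSpaceProd D D σ σ) (1, 1)) (@nhds D σ 1) := by
        have := (@continuous_mul D σ _ hσ.toContinuousMul).tendsto
          (1, 1)
        simpa using this
      have h2 := h1 hS
      rw [@nhds_prod_eq D D σ σ, mem_map, mem_prod_self_iff] at h2
      obtain ⟨T, hT, hTS⟩ := h2
      exact ⟨T, hT, fun a ha b hb => hTS (Set.mk_mem_prod ha hb)⟩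
    · intro S hS
      have h1 := (@continuous_inv D σ _ hσ.toContinuousInv).tendsto 1
      rw [inv_one] at h1
      exact h1 hS
    · intro d S hS
      have h1 : @Continuous D D σ σ (fun x => d * x * d⁻¹) :=
        (@IsTopologicalGroup.continuous_conj D σ _ _ _ d)
      have h2 := (@Continuous.tendsto D D σ σ _ h1 1)
      have h3 : d * 1 * d⁻¹ = 1 := by group
      rw [h3] at h2
      exact h2 hS
    · intro d hd
      have : @T1Space D σ := inferInstance
      exact ⟨{d}ᶜ, @IsOpen.mem_nhds D σ _ _ (@isOpen_compl_singleton D σ _ d) (Ne.symm hd), by simp⟩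
    · exact hVσ

end

end Pool.Agent.V1129
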