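import Pool.Agent.V1129.Boom

/-!
# Consequences: simple-minded statements on boomerang subgroups, and bump elements
-/

namespace Pool.Agent.V1129.Boom

open scoped commutatorElement

variable {G X : Type*} [Group G] [LinearOrder X] [MulAction G X]

section

variable [DenselyOrdered X] [NoMinOrder X] [NoMaxOrder X]

/-- A nontrivial boomerang subgroup contains a nontrivial boundedly supported element. -/
theorem exists_bdd (hF : Flex G X) {Δ : Subgroup G} (hΔ : WB Δ) {δ₀ : G} (h0 : δ₀ ∈ Δ)
    (h1 : δ₀ ≠ 1) : ∃ δ ∈ Δ, δ ≠ 1 ∧ ∃ a b : X, δ ∈ R G a b := by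
  obtain ⟨δ, hδ, x, hx⟩ : ∃ δ ∈ Δ, ∃ x : X, x < δ • x := by
    obtain ⟨x, hx⟩ := exists_moved hF h1
    rcases lt_or_gt_of_ne hx with h | h
    · refine ⟨δ₀⁻¹, inv_mem h0, x, ?_⟩
      rw [← smul_lt_iff hF δ₀, smul_inv_smul]
      exact h
    · exact ⟨δ₀, h0, x, h⟩
  obtain ⟨u, hu, hu'⟩ := exists_between hx
  obtain ⟨v, hv, hv'⟩ := exists_between hu'
  obtain ⟨γ, hγR, hγ⟩ := hF.push x u v (δ • x) hu hv hv'
  obtain ⟨n, hn, hmem⟩ := hΔ.pos δ hδ γ
  refine ⟨γ ^ n * δ * (γ ^ n)⁻¹ * δ⁻¹, mul_mem hmem (inv_mem hδ), ?_, x, δ • (δ • x), ?_⟩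
  · intro h
    have e : γ ^ n * δ * (γ ^ n)⁻¹ * δ⁻¹ = γ ^ n * (δ * (γ ^ n)⁻¹ * δ⁻¹) := by group
    rw [e] at h
    have hR : δ * (γ ^ n)⁻¹ * δ⁻¹ ∈ R G (δ • x) (δ • (δ • x)) :=
      conj_mem_R hF (inv_mem (pow_mem hγR n)) δ
    have h2 : (γ ^ n * (δ * (γ ^ n)⁻¹ * δ⁻¹)) • u = γ ^ n • u := by
      rw [mul_smul, hR u (Or.inl hu'.le)]
    rw [h, one_smul] at h2
    have h3 := pow_push hF hv.le hγ n hn
    rw [← h2] at h3
    exact lt_irrefl _ (h3.trans hv)
  · have e : γ ^ n * δ * (γ ^ n)⁻¹ * δ⁻¹ = γ ^ n * (δ * (γ ^ n)⁻¹ * δ⁻¹) := by group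
    rw [e]
    have hR : δ * (γ ^ n)⁻¹ * δ⁻¹ ∈ R G (δ • x) (δ • (δ • x)) :=
      conj_mem_R hF (inv_mem (pow_mem hγR n)) δ
    exact mul_mem (R_mono le_rfl (hF.mono δ _ _ hx).le (pow_mem hγR n))
      (R_mono hx.le le_rfl hR)

/-- **Main theorem.** A nontrivial boomerang subgroup contains the commutators of all pairs of
elements supported in a common bounded interval. -/
theorem comm_mem (hF : Flex G X) {Δ : Subgroup G} (hΔ : WB Δ) (hne : Δ ≠ ⊥) (a b : G) {s t : X}
    (ha : a ∈ R G s t) (hb : b ∈ R G s t) : a * b * a⁻¹ * b⁻¹ ∈ Δ := by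
  obtain ⟨δ₀, h0, h1⟩ := Δ.bot_or_exists_ne_one.resolve_left hne
  obtain ⟨δ, hδ, hδ1, a₀, b₀, hR⟩ := exists_bdd hF hΔ h0 h1
  exact comm_mem_of_bdd hF hΔ hδ hδ1 hR a b ha hb

/-- Flexibility passes to the commutator subgroup. -/
theorem flex_commutator (hF : Flex G X) : Flex (commutator G) X where
  mono := fun g x y h => hF.mono g x y h
  faithful := fun g hg => by
    apply Subtype.ext
    exact hF.faithful g hg
  push := by
    intro a u v b hau huv hvb
    obtain ⟨p, hp, hp'⟩ := exists_between hau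
    obtain ⟨q, hq, hq'⟩ := exists_between hvb
    obtain ⟨g, hgR, hg⟩ := hF.push p u v q hp' huv hq
    obtain ⟨y, hyR, hy⟩ := hF.push a p q b hp ((hp'.trans huv).trans hq) hq'
    have hmem : ⁅g, y⁆ ∈ commutator G :=
      Subgroup.commutator_mem_commutator (Subgroup.mem_top g) (Subgroup.mem_top y)
    refine ⟨⟨⁅g, y⁆, hmem⟩, ?_, ?_⟩
    · intro x hx
      change ⁅g, y⁆ • x = x
      have hgR' : g ∈ R G a b := R_mono hp.le hq'.le hgR
      have : ⁅g, y⁆ ∈ R G a b := by
        rw [commutatorElement_def]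
        exact mul_mem (mul_mem (mul_mem hgR' hyR) (inv_mem hgR')) (inv_mem hyR)
      exact this x hx
    · change v < ⁅g, y⁆ • u
      have e : ⁅g, y⁆ = g * (y * g⁻¹ * y⁻¹) := by rw [commutatorElement_def]; group
      have hR : y * g⁻¹ * y⁻¹ ∈ R G (y • p) (y • q) := conj_mem_R hF (inv_mem hgR) y
      rw [e, mul_smul, hR u (Or.inl ((huv.trans hq).trans hy).le)]
      exact hg

/-- Two boundedly supported elements: their commutator is a commutator of two commutators. -/
theorem comm_eq_comm_comm (hF : Flex G X) (a b : G) {s t : X} (hst : s < t)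
    (ha : a ∈ R G s t) (hb : b ∈ R G s t) : ∃ η : G, ⁅⁅a, η⁆, ⁅b, η⁻¹⁆⁆ = ⁅a, b⁆ := by
  obtain ⟨s', hs'⟩ := exists_lt s
  obtain ⟨t', ht'⟩ := exists_gt t
  obtain ⟨η, hηR, hη⟩ := hF.push s' s t t' hs' hst ht'
  refine ⟨η, ?_⟩
  set a1 := η * a⁻¹ * η⁻¹ with ha1
  set b1 := η⁻¹ * b⁻¹ * (η⁻¹)⁻¹ with hb1
  have ha1R : a1 ∈ R G (η • s) (η • t) := conj_mem_R hF (inv_mem ha) η
  have hb1R : b1 ∈ R G (η⁻¹ • s) (η⁻¹ • t) := conj_mem_R hF (inv_mem hb) η⁻¹
  have hη' : η⁻¹ • t < s := by
    have := pow_pull hF hst.le hη 1 le_rfl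
    simpa using this
  have k1 : b * a1 = a1 * b := comm_of_le hF hη.le hb ha1R
  have k2 : b1 * a = a * b1 := comm_of_le hF hη'.le hb1R ha
  have k3 : b1 * a1 = a1 * b1 := comm_of_le hF ((hη'.trans (hst.trans hη)).le) hb1R ha1R
  have m1 : ⁅a, η⁆ = a * a1 := by rw [ha1, commutatorElement_def]; group
  have m2 : ⁅b, η⁻¹⁆ = b * b1 := by rw [hb1, commutatorElement_def]; group
  rw [m1, m2, commutatorElement_def, commutatorElement_def]
  calc (a * a1) * (b * b1) * (a * a1)⁻¹ * (b * b1)⁻¹
      = a * (a1 * b) * b1 * a1⁻¹ * a⁻¹ * b1⁻¹ * b⁻¹ := by group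
    _ = a * (b * a1) * b1 * a1⁻¹ * a⁻¹ * b1⁻¹ * b⁻¹ := by rw [k1]
    _ = a * b * (a1 * b1) * a1⁻¹ * a⁻¹ * b1⁻¹ * b⁻¹ := by group
    _ = a * b * (b1 * a1) * a1⁻¹ * a⁻¹ * b1⁻¹ * b⁻¹ := by rw [k3]
    _ = a * b * (b1 * a⁻¹) * b1⁻¹ * b⁻¹ := by group
    _ = a * b * (a⁻¹ * b1) * b1⁻¹ * b⁻¹ := by
        have : b1 * a⁻¹ = a⁻¹ * b1 := by
          rw [eq_inv_mul_iff_mul_eq, ← mul_assoc, ← k2, mul_assoc, mul_inv_cancel, mul_one]
        rw [this]
    _ = _ := by group

/-- If all elements of a flexible group are boundedly supported, then its commutator subgroup has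
only the trivial boomerang subgroups. -/
theorem boomerang_simple (hF : Flex G X) (hb : ∀ g : G, ∃ s t : X, s < t ∧ g ∈ R G s t)
    (Δ : Subgroup (commutator G)) (hΔ : WB Δ) : Δ = ⊥ ∨ Δ = ⊤ := by
  by_cases hne : Δ = ⊥
  · exact Or.inl hne
  right
  have hF' := flex_commutator hF
  have hb2 : ∀ g h : G, ∃ s t : X, s < t ∧ g ∈ R G s t ∧ h ∈ R G s t := by
    intro g h
    obtain ⟨s, t, hst, hg⟩ := hb g
    obtain ⟨s', t', hst', hh⟩ := hb h
    exact ⟨min s s', max t t', lt_of_le_of_lt (min_le_left _ _) (lt_of_lt_of_le hst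
      (le_max_left _ _)), R_mono (min_le_left _ _) (le_max_left _ _) hg,
      R_mono (min_le_right _ _) (le_max_right _ _) hh⟩
  have hcc : ∀ x y : commutator G, x * y * x⁻¹ * y⁻¹ ∈ Δ := by
    intro x y
    obtain ⟨s, t, hst, h1, h2⟩ := hb2 (x : G) (y : G)
    exact comm_mem hF' hΔ hne x y (s := s) (t := t) (fun z hz => h1 z hz) (fun z hz => h2 z hz)
  have hmap : commutator G ≤ Δ.map (commutator G).subtype := by
    refine (commutator_eq_closure G).le.trans ?_
    rw [Subgroup.closure_le]
    rintro _ ⟨a, b, rfl⟩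
    obtain ⟨s, t, hst, h1, h2⟩ := hb2 a b
    obtain ⟨η, hη⟩ := comm_eq_comm_comm hF a b hst h1 h2
    have m1 : ⁅a, η⁆ ∈ commutator G :=
      Subgroup.commutator_mem_commutator (Subgroup.mem_top _) (Subgroup.mem_top _)
    have m2 : ⁅b, η⁻¹⁆ ∈ commutator G :=
      Subgroup.commutator_mem_commutator (Subgroup.mem_top _) (Subgroup.mem_top _)
    refine ⟨_, hcc ⟨_, m1⟩ ⟨_, m2⟩, ?_⟩
    rw [← hη]
    rfl
  rw [eq_top_iff]
  intro x _
  obtain ⟨y, hy, hyx⟩ := hmap x.2
  have : y = x := Subtype.ext hyx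
  rwa [← this]

end

section Bump

variable {K : Type*} [Field K] [LinearOrder K] [IsStrictOrderedRing K]

/-- The bump function on `[s, t]`: slope `2` near `s`, translation in the middle and slope `1/2`
near `t`. -/
def bumpFun (s t x : K) : K := max x (min (min (2 * x - s) (x + (t - s) / 4)) ((x + t) / 2))

/-- The inverse of the bump function. -/
def bumpInv (s t y : K) : K := min y (max (max ((y + s) / 2) (y - (t - s) / 4)) (2 * y - t))

theorem bump_left (s t : K) (hst : s < t) (x : K) : bumpInv s t (bumpFun s t x) = x := by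
  unfold bumpInv bumpFun
  rcases le_total x s with h1 | h1
  · have e1 : max x (min (min (2 * x - s) (x + (t - s) / 4)) ((x + t) / 2)) = x := by
      apply max_eq_left
      refine (min_le_left _ _).trans ((min_le_left _ _).trans ?_)
      linarith
    rw [e1]
    apply min_eq_left
    refine le_trans ?_ (le_max_left _ _)
    refine le_trans ?_ (le_max_left _ _)
    linarith
  rcases le_total t x with h2 | h2
  · have e1 : max x (min (min (2 * x - s) (x + (t - s) / 4)) ((x + t) / 2)) = x := by
      apply max_eq_left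
      refine (min_le_right _ _).trans ?_
      linarith
    rw [e1]
    apply min_eq_left
    refine le_trans ?_ (le_max_right _ _)
    linarith
  rcases le_total x (s + (t - s) / 4) with h3 | h3
  · have e1 : max x (min (min (2 * x - s) (x + (t - s) / 4)) ((x + t) / 2)) = 2 * x - s := by
      rw [min_eq_left (a := 2 * x - s), min_eq_left (a := 2 * x - s), max_eq_right] <;> linarith
    rw [e1]
    have e2 : max ((2 * x - s + s) / 2) (2 * x - s - (t - s) / 4) = x := by
      rw [max_eq_left] <;> linarith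
    rw [e2, max_eq_left, min_eq_right] <;> linarith
  rcases le_total x (s + (t - s) / 2) with h4 | h4
  · have e1 : max x (min (min (2 * x - s) (x + (t - s) / 4)) ((x + t) / 2)) = x + (t - s) / 4 := by
      rw [min_eq_right (a := 2 * x - s), min_eq_left (a := x + (t - s) / 4), max_eq_right] <;>
        linarith
    rw [e1]
    have e2 : max ((x + (t - s) / 4 + s) / 2) (x + (t - s) / 4 - (t - s) / 4) = x := by
      rw [max_eq_right] <;> linarith
    rw [e2, max_eq_left, min_eq_right] <;> linarith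
  · have e1 : max x (min (min (2 * x - s) (x + (t - s) / 4)) ((x + t) / 2)) = (x + t) / 2 := by
      rw [min_eq_right (b := (x + t) / 2), max_eq_right]
      · linarith
      · apply le_min <;> linarith
    rw [e1]
    have e2 : max (max (((x + t) / 2 + s) / 2) ((x + t) / 2 - (t - s) / 4))
        (2 * ((x + t) / 2) - t) = x := by
      rw [max_eq_right]
      · linarith
      · apply max_le <;> linarith
    rw [e2, min_eq_right]
    linarith

theorem bump_right (s t : K) (hst : s < t) (y : K) : bumpFun s t (bumpInv s t y) = y := by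
  unfold bumpInv bumpFun
  rcases le_total y s with h1 | h1
  · have e1 : min y (max (max ((y + s) / 2) (y - (t - s) / 4)) (2 * y - t)) = y := by
      apply min_eq_left
      refine le_trans ?_ (le_max_left _ _)
      refine le_trans ?_ (le_max_left _ _)
      linarith
    rw [e1]
    apply max_eq_left
    refine (min_le_left _ _).trans ((min_le_left _ _).trans ?_)
    linarith
  rcases le_total t y with h2 | h2
  · have e1 : min y (max (max ((y + s) / 2) (y - (t - s) / 4)) (2 * y - t)) = y := by
      apply min_eq_left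
      refine le_trans ?_ (le_max_right _ _)
      linarith
    rw [e1]
    apply max_eq_left
    refine (min_le_right _ _).trans ?_
    linarith
  rcases le_total y (s + (t - s) / 2) with h3 | h3
  · have e1 : min y (max (max ((y + s) / 2) (y - (t - s) / 4)) (2 * y - t)) = (y + s) / 2 := by
      rw [max_eq_left (a := (y + s) / 2), max_eq_left (a := (y + s) / 2), min_eq_right] <;>
        linarith
    rw [e1]
    have e2 : min (2 * ((y + s) / 2) - s) ((y + s) / 2 + (t - s) / 4) = y := by
      rw [min_eq_left] <;> linarith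
    rw [e2, min_eq_left, max_eq_right] <;> linarith
  rcases le_total y (s + 3 * (t - s) / 4) with h4 | h4
  · have e1 : min y (max (max ((y + s) / 2) (y - (t - s) / 4)) (2 * y - t)) = y - (t - s) / 4 := by
      rw [max_eq_right (a := (y + s) / 2), max_eq_left (a := y - (t - s) / 4), min_eq_right] <;>
        linarith
    rw [e1]
    have e2 : min (2 * (y - (t - s) / 4) - s) (y - (t - s) / 4 + (t - s) / 4) = y := by
      rw [min_eq_right] <;> linarith
    rw [e2, min_eq_left, max_eq_right] <;> linarith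
  · have e1 : min y (max (max ((y + s) / 2) (y - (t - s) / 4)) (2 * y - t)) = 2 * y - t := by
      rw [max_eq_right (b := 2 * y - t), min_eq_right]
      · linarith
      · apply max_le <;> linarith
    rw [e1]
    have e2 : min (min (2 * (2 * y - t) - s) (2 * y - t + (t - s) / 4))
        ((2 * y - t + t) / 2) = y := by
      rw [min_eq_right]
      · linarith
      · apply le_min <;> linarith
    rw [e2, max_eq_right]
    linarith

theorem bumpFun_strictMono (s t : K) : StrictMono (bumpFun s t) := by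
  intro x y h
  unfold bumpFun
  apply max_lt_max h
  apply min_lt_min
  · apply min_lt_min <;> linarith
  · linarith

/-- The bump as an order automorphism. -/
def bump (s t : K) (hst : s < t) : K ≃o K :=
  StrictMono.orderIsoOfRightInverse (bumpFun s t) (bumpFun_strictMono s t) (bumpInv s t)
    (bump_right s t hst)

theorem bump_apply (s t : K) (hst : s < t) (x : K) : bump s t hst x = bumpFun s t x := rfl

theorem bump_symm_apply (s t : K) (hst : s < t) (x : K) : (bump s t hst).symm x = bumpInv s t x :=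
  rfl

theorem bump_fix (s t : K) (hst : s < t) (x : K) (hx : x ≤ s ∨ t ≤ x) : bump s t hst x = x := by
  rw [bump_apply]
  unfold bumpFun
  apply max_eq_left
  rcases hx with h | h
  · refine (min_le_left _ _).trans ((min_le_left _ _).trans ?_)
    linarith
  · refine (min_le_right _ _).trans ?_
    linarith

theorem bump_step (s t : K) (hst : s < t) (u v x : K) (hux : u ≤ x)
    (hxv : x ≤ v) : x + min (min (u - s) ((t - s) / 4)) ((t - v) / 2) ≤ bump s t hst x := by
  rw [bump_apply]
  unfold bumpFun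
  refine le_trans ?_ (le_max_right _ _)
  have h1 := min_le_left (min (u - s) ((t - s) / 4)) ((t - v) / 2)
  have h2 := min_le_right (min (u - s) ((t - s) / 4)) ((t - v) / 2)
  have h3 := min_le_left (u - s) ((t - s) / 4)
  have h4 := min_le_right (u - s) ((t - s) / 4)
  apply le_min
  · apply le_min <;> linarith
  · linarith

theorem le_bump (s t : K) (hst : s < t) (x : K) : x ≤ bump s t hst x := by
  rw [bump_apply]
  exact le_max_left _ _

theorem bump_pow_push [Archimedean K] (s t : K) (hst : s < t) (u v : K) (hu : s < u)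
    (hv : v < t) : ∃ n : ℕ, v < ((bump s t hst) ^ n) u := by
  rcases lt_or_ge v u with h | huv
  · exact ⟨0, by simpa using h⟩
  set c := min (min (u - s) ((t - s) / 4)) ((t - v) / 2) with hc
  have hcpos : 0 < c := by
    rw [hc]
    apply lt_min
    · apply lt_min <;> linarith
    · linarith
  have key : ∀ n : ℕ, v < ((bump s t hst) ^ n) u ∨ u + n * c ≤ ((bump s t hst) ^ n) u := by
    intro n
    induction n with
    | zero => right; simp
    | succ m ih =>
      have e : ((bump s t hst) ^ (m + 1)) u = bump s t hst (((bump s t hst) ^ m) u) := by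
        rw [pow_succ']; rfl
      rw [e]
      rcases ih with h | h
      · left
        exact lt_of_lt_of_le h (le_bump s t hst _)
      · rcases lt_or_ge v (((bump s t hst) ^ m) u) with h' | h'
        · left
          exact lt_of_lt_of_le h' (le_bump s t hst _)
        · right
          have hux : u ≤ ((bump s t hst) ^ m) u := by
            have : (0 : K) ≤ m * c := by positivity
            linarith
          have := bump_step s t hst u v _ hux h'
          rw [← hc] at this
          push_cast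
          linarith
  obtain ⟨n, hn⟩ := exists_lt_nsmul hcpos (v - u)
  refine ⟨n, ?_⟩
  rcases key n with h | h
  · exact h
  · rw [nsmul_eq_mul] at hn
    linarith

end Bump

end Pool.Agent.V1129.Boom
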