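import Pool.Agent.V1129.BoomDefs
import Pool.Agent.V1129.Boom2

/-!
# Boomerang subgroups satisfy the weak boomerang property
-/

open Topology

namespace Pool.Agent.V1129.Boom

variable {Γ : Type*} [Group Γ]

theorem isOpen_mem (a : Γ) : IsOpen[chabauty Γ] {K : Subgroup Γ | a ∈ K} := by
  rw [chabauty, isOpen_induced_iff]
  refine ⟨{f | f a = true}, ?_, ?_⟩
  · have hc : Continuous fun f : Γ → Bool => f a := continuous_apply a
    exact (isOpen_discrete ({true} : Set Bool)).preimage hc
  · ext K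
    simp [indicator]

theorem isOpen_notMem (a : Γ) : IsOpen[chabauty Γ] {K : Subgroup Γ | a ∉ K} := by
  rw [chabauty, isOpen_induced_iff]
  refine ⟨{f | f a = false}, ?_, ?_⟩
  · have hc : Continuous fun f : Γ → Bool => f a := continuous_apply a
    exact (isOpen_discrete ({false} : Set Bool)).preimage hc
  · ext K
    simp [indicator]

theorem mem_conjSubgroup (g a : Γ) (H : Subgroup Γ) :
    a ∈ conjSubgroup g H ↔ g⁻¹ * a * g ∈ H := by
  rw [conjSubgroup, Subgroup.mem_map]
  constructor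
  · rintro ⟨x, hx, rfl⟩
    simpa [mul_assoc] using hx
  · intro h
    exact ⟨_, h, by simp [mul_assoc]⟩

theorem wb_of_isBoomerang {Δ : Subgroup Γ} (h : IsBoomerang Δ) : WB Δ where
  pos := by
    intro a ha γ
    obtain ⟨n, hn, hmem⟩ := h γ⁻¹ _ (isOpen_mem a) ha
    refine ⟨n, hn, ?_⟩
    have : a ∈ conjSubgroup (γ⁻¹ ^ n) Δ := hmem
    rw [mem_conjSubgroup] at this
    simpa using this
  neg := by
    intro b hb γ
    obtain ⟨n, hn, hmem⟩ := h γ⁻¹ _ (isOpen_notMem b) hb
    refine ⟨n, hn, ?_⟩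
    have : b ∉ conjSubgroup (γ⁻¹ ^ n) Δ := hmem
    rw [mem_conjSubgroup] at this
    simpa using this

end Pool.Agent.V1129.Boom
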