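import Mathlib

set_option autoImplicit false

/-!
From a pair of `ℤ`-coset equivalent subgroups to a core-free pair of non isomorphic ones, by
a wreath product in product action.
-/

namespace Pool.Agent.V1129.Scott

open Equiv

/-- Two subgroups `A`, `B` of `G` are `ℤ`-coset equivalent: there is an isomorphism between the
free `ℤ`-modules on the left cosets `G ⧸ A` and `G ⧸ B` which commutes with the action of `G` by
left multiplication (that is, an isomorphism `ℤ[G/A] ≅ ℤ[G/B]` of `ℤ[G]`-modules). -/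
def CosetEquiv {G : Type*} [Group G] (A B : Subgroup G) : Prop :=
  ∃ e : ((G ⧸ A) →₀ ℤ) ≃ₗ[ℤ] ((G ⧸ B) →₀ ℤ), ∀ (g : G) (v : (G ⧸ A) →₀ ℤ),
    e (Finsupp.mapDomain (fun q : G ⧸ A => g • q) v) =
      Finsupp.mapDomain (fun q : G ⧸ B => g • q) (e v)

/-- stabilizer of a point for an action given by a homomorphism -/
def stab {G Z : Type*} [Group G] (act : G →* Perm Z) (z : Z) : Subgroup G where
  carrier := {g | act g z = z}
  one_mem' := by simp
  mul_mem' := by
    intro a b ha hb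
    simp only [Set.mem_ofPred_eq, map_mul, Perm.mul_apply] at *
    rw [hb, ha]
  inv_mem' := by
    intro a ha
    simp only [Set.mem_ofPred_eq, map_inv] at *
    rw [Perm.inv_eq_iff_eq, ha]

lemma mem_stab {G Z : Type*} [Group G] (act : G →* Perm Z) (z : Z) (g : G) :
    g ∈ stab act z ↔ act g z = z := Iff.rfl

/-- orbit-stabilizer -/
lemma quot_equiv {G Z : Type*} [Group G] (act : G →* Perm Z) (z : Z)
    (tr : ∀ w, ∃ g, act g z = w) :
    ∃ ε : (G ⧸ stab act z) ≃ Z, ∀ (g : G) (q : G ⧸ stab act z), ε (g • q) = act g (ε q) := by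
  let f : G ⧸ stab act z → Z := Quotient.lift (fun g : G => act g z) (by
    intro a b hab
    have h1 : a⁻¹ * b ∈ stab act z := QuotientGroup.leftRel_apply.1 hab
    rw [mem_stab, map_mul, map_inv, Perm.mul_apply, Perm.inv_eq_iff_eq] at h1
    exact h1.symm)
  have hf : ∀ g : G, f (QuotientGroup.mk g) = act g z := fun g => rfl
  have hbij : Function.Bijective f := by
    constructor
    · intro q r
      induction q using QuotientGroup.induction_on
      induction r using QuotientGroup.induction_on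
      intro h
      rw [hf, hf] at h
      rw [QuotientGroup.eq, mem_stab, map_mul, map_inv, Perm.mul_apply, Perm.inv_eq_iff_eq]
      exact h.symm
    · intro w
      obtain ⟨g, hg⟩ := tr w
      exact ⟨QuotientGroup.mk g, by rw [hf, hg]⟩
  refine ⟨Equiv.ofBijective f hbij, ?_⟩
  intro g q
  induction q using QuotientGroup.induction_on with
  | H a =>
    show f (QuotientGroup.mk (g * a)) = act g (f (QuotientGroup.mk a))
    rw [hf, hf, map_mul, Perm.mul_apply]

/-- `ℤ`-isomorphic permutation representations give coset equivalent stabilizers -/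
lemma cosetEquiv_of {G Z Z' : Type*} [Group G] (act : G →* Perm Z) (act' : G →* Perm Z')
    (z : Z) (z' : Z') (tr : ∀ w, ∃ g, act g z = w) (tr' : ∀ w, ∃ g, act' g z' = w)
    (e : (Z →₀ ℤ) ≃ₗ[ℤ] (Z' →₀ ℤ))
    (he : ∀ g v, e (Finsupp.mapDomain (act g) v) = Finsupp.mapDomain (act' g) (e v)) :
    CosetEquiv (stab act z) (stab act' z') := by
  obtain ⟨ε, hε⟩ := quot_equiv act z tr
  obtain ⟨ε', hε'⟩ := quot_equiv act' z' tr'
  refine ⟨(Finsupp.domLCongr ε).trans (e.trans (Finsupp.domLCongr ε').symm), ?_⟩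
  intro g v
  have h1 : ∀ w : (G ⧸ stab act z) →₀ ℤ,
      Finsupp.domLCongr (R := ℤ) ε (Finsupp.mapDomain (fun q : G ⧸ stab act z => g • q) w) =
      Finsupp.mapDomain (act g) (Finsupp.domLCongr (R := ℤ) ε w) := by
    intro w
    induction w using Finsupp.induction_linear with
    | zero => simp
    | add a b ha hb => rw [Finsupp.mapDomain_add, map_add, ha, hb, map_add, Finsupp.mapDomain_add]
    | single q n => simp [Finsupp.mapDomain_single, hε]
  have h2 : ∀ w : (G ⧸ stab act' z') →₀ ℤ,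
      Finsupp.domLCongr (R := ℤ) ε' (Finsupp.mapDomain (fun q : G ⧸ stab act' z' => g • q) w) =
      Finsupp.mapDomain (act' g) (Finsupp.domLCongr (R := ℤ) ε' w) := by
    intro w
    induction w using Finsupp.induction_linear with
    | zero => simp
    | add a b ha hb => rw [Finsupp.mapDomain_add, map_add, ha, hb, map_add, Finsupp.mapDomain_add]
    | single q n => simp [Finsupp.mapDomain_single, hε']
  simp only [LinearEquiv.trans_apply]
  rw [LinearEquiv.symm_apply_eq, h2, LinearEquiv.apply_symm_apply, h1, he]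

section Wreath

variable {H X Y : Type} [Group H]

/-- the wreath product `S₄ ≀_X H`; the group `H` acts on `X` through `α` -/
@[ext] structure Wr (α : H →* Perm X) where
  f : X → Perm (Fin 4)
  h : H

namespace Wr

variable {α : H →* Perm X}

instance : Mul (Wr α) := ⟨fun a b => ⟨fun x => a.f x * b.f ((α a.h)⁻¹ x), a.h * b.h⟩⟩
instance : One (Wr α) := ⟨⟨fun _ => 1, 1⟩⟩
instance : Inv (Wr α) := ⟨fun a => ⟨fun x => (a.f (α a.h x))⁻¹, a.h⁻¹⟩⟩

@[simp] lemma mul_f (a b : Wr α) (x : X) : (a * b).f x = a.f x * b.f ((α a.h)⁻¹ x) := rfl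
@[simp] lemma mul_h (a b : Wr α) : (a * b).h = a.h * b.h := rfl
@[simp] lemma one_f (x : X) : (1 : Wr α).f x = 1 := rfl
@[simp] lemma one_h : (1 : Wr α).h = 1 := rfl
@[simp] lemma inv_f (a : Wr α) (x : X) : (a⁻¹).f x = (a.f (α a.h x))⁻¹ := rfl
@[simp] lemma inv_h (a : Wr α) : (a⁻¹).h = a.h⁻¹ := rfl

instance : Group (Wr α) :=
  Group.ofLeftAxioms
    (by
      intro a b c
      ext1
      · funext x
        simp only [mul_f, mul_h, map_mul, mul_inv_rev, Perm.mul_apply, mul_assoc]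
      · simp only [mul_h, mul_assoc])
    (by
      intro a
      ext1
      · funext x
        simp
      · simp)
    (by
      intro a
      ext1
      · funext x
        simp
      · simp)

instance [Finite X] [Finite H] : Finite (Wr α) :=
  Finite.of_injective (fun a : Wr α => (a.f, a.h)) (by
    intro a b hab
    simp only [Prod.mk.injEq] at hab
    exact Wr.ext hab.1 hab.2)

/-- product action on `Ω^X × Z` -/
def act (γ : H →* Perm Y) : Wr α →* Perm ((X → Fin 4) × Y) where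
  toFun a :=
    { toFun := fun p => (fun x => a.f x (p.1 ((α a.h)⁻¹ x)), γ a.h p.2)
      invFun := fun p => (fun x => (a.f (α a.h x))⁻¹ (p.1 (α a.h x)), (γ a.h)⁻¹ p.2)
      left_inv := by
        rintro ⟨ω, y⟩
        simp
      right_inv := by
        rintro ⟨ω, y⟩
        simp }
  map_one' := by
    ext1 ⟨ω, y⟩
    simp
  map_mul' := by
    intro a b
    ext1 ⟨ω, y⟩
    simp [mul_inv_rev]

@[simp] lemma act_apply (γ : H →* Perm Y) (a : Wr α) (p : (X → Fin 4) × Y) :
    act γ a p = (fun x => a.f x (p.1 ((α a.h)⁻¹ x)), γ a.h p.2) := rfl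

/-- base subgroups -/
def K (α : H →* Perm X) (γ : H →* Perm Y) (y : Y) : Subgroup (Wr α) :=
  stab (act γ) ((fun _ => 0, y) : (X → Fin 4) × Y)

lemma mem_K (γ : H →* Perm Y) (y : Y) (a : Wr α) :
    a ∈ K α γ y ↔ (∀ x, a.f x 0 = 0) ∧ γ a.h y = y := by
  rw [K, mem_stab, act_apply, Prod.mk.injEq, funext_iff]

lemma trans (γ : H →* Perm Y) (y : Y) (tr : ∀ w, ∃ h, γ h y = w) (w : (X → Fin 4) × Y) :
    ∃ a : Wr α, act γ a (fun _ => 0, y) = w := by
  obtain ⟨h, hh⟩ := tr w.2
  refine ⟨⟨fun x => swap 0 (w.1 x), h⟩, ?_⟩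
  rw [act_apply]
  apply Prod.ext
  · funext x
    simp
  · exact hh

lemma K_core (γ : H →* Perm Y) (y : Y) (tr : ∀ w, ∃ h, γ h y = w)
    (hfaith : ∀ h : H, (∀ x, α h x = x) → h = 1) : (K α γ y).normalCore = ⊥ := by
  classical
  rw [Subgroup.eq_bot_iff_forall]
  intro a ha
  have h1 : ∀ w, act γ a w = w := by
    intro w
    obtain ⟨b, hb⟩ := trans (α := α) γ y tr w
    have h2 : b⁻¹ * a * b ∈ K α γ y := by
      have := ha b⁻¹
      rwa [inv_inv] at this
    rw [K, mem_stab, map_mul, map_mul, map_inv, Perm.mul_apply, Perm.mul_apply,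
      Perm.inv_eq_iff_eq, hb] at h2
    exact h2
  have hx : ∀ x, α a.h x = x := by
    intro x
    by_contra hne
    -- take `ω` with value `0` at `α a.h x` and `1` at `x`, the rest `0`
    have h3 := h1 (fun z => if z = x then (a.f (α a.h x))⁻¹ 1 else 0, y)
    have h4 := congrFun (congrArg Prod.fst h3) (α a.h x)
    simp [hne] at h4
  have hh : a.h = 1 := hfaith _ hx
  ext1
  · funext x
    ext1 i
    have h3 := h1 (fun _ => i, y)
    have h4 := congrFun (congrArg Prod.fst h3) x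
    simpa using h4
  · exact hh

end Wr

/-- linear isomorphism on the product -/
noncomputable def bigE {X Y Ω : Type} (e : (X →₀ ℤ) ≃ₗ[ℤ] (Y →₀ ℤ)) :
    ((Ω × X) →₀ ℤ) ≃ₗ[ℤ] ((Ω × Y) →₀ ℤ) :=
  (Finsupp.curryLinearEquiv ℤ).trans ((Finsupp.mapRange.linearEquiv e).trans
    (Finsupp.curryLinearEquiv ℤ).symm)

lemma bigE_single {X Y Ω : Type} (e : (X →₀ ℤ) ≃ₗ[ℤ] (Y →₀ ℤ)) (ω : Ω) (x : X) (n : ℤ) :
    bigE (Ω := Ω) e (Finsupp.single (ω, x) n) =
      Finsupp.mapDomain (fun y => (ω, y)) (e (Finsupp.single x n)) := by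
  rw [bigE, LinearEquiv.trans_apply, LinearEquiv.trans_apply, LinearEquiv.symm_apply_eq]
  have h1 : Finsupp.curryLinearEquiv (M := ℤ) ℤ (Finsupp.single (ω, x) n) =
      Finsupp.single ω (Finsupp.single x n) := by
    simp
  rw [h1]
  have h2 : ∀ v : Y →₀ ℤ, Finsupp.curryLinearEquiv (M := ℤ) ℤ
      (Finsupp.mapDomain (fun y => (ω, y)) v) = Finsupp.single ω v := by
    intro v
    induction v using Finsupp.induction_linear with
    | zero => rw [Finsupp.mapDomain_zero, map_zero, Finsupp.single_zero]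
    | add a b ha hb => rw [Finsupp.mapDomain_add, map_add, ha, hb, Finsupp.single_add]
    | single q n => simp
  rw [h2]
  simp

lemma bigE_equivariant {H X Y : Type} [Group H] (α : H →* Perm X) (β : H →* Perm Y)
    (e : (X →₀ ℤ) ≃ₗ[ℤ] (Y →₀ ℤ))
    (he : ∀ h v, e (Finsupp.mapDomain (α h) v) = Finsupp.mapDomain (β h) (e v))
    (g : Wr α) (v : ((X → Fin 4) × X) →₀ ℤ) :
    bigE e (Finsupp.mapDomain (Wr.act α g) v) =
      Finsupp.mapDomain (Wr.act β g) (bigE e v) := by
  induction v using Finsupp.induction_linear with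
  | zero => simp
  | add a b ha hb =>
    rw [Finsupp.mapDomain_add, map_add, ha, hb, map_add, Finsupp.mapDomain_add]
  | single q n =>
    obtain ⟨ω, x⟩ := q
    rw [Finsupp.mapDomain_single, Wr.act_apply, bigE_single, bigE_single, ← Finsupp.mapDomain_comp]
    have h1 : Finsupp.single (α g.h x) n = Finsupp.mapDomain (α g.h) (Finsupp.single x n) := by
      rw [Finsupp.mapDomain_single]
    simp only
    rw [h1, he, ← Finsupp.mapDomain_comp]
    rfl

/-- `a` spans a normal subgroup of order `3` -/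
def Nrm3 {G : Type*} [Group G] (a : G) : Prop :=
  a ≠ 1 ∧ a * a * a = 1 ∧ ∀ g : G, g * a * g⁻¹ = a ∨ g * a * g⁻¹ = a⁻¹

lemma nrm3_iso {G G' : Type*} [Group G] [Group G'] (φ : G ≃* G') (a : G) (ha : Nrm3 a) :
    Nrm3 (φ a) := by
  obtain ⟨h1, h2, h3⟩ := ha
  refine ⟨?_, ?_, ?_⟩
  · intro h
    exact h1 (by simpa using h)
  · rw [← map_mul, ← map_mul, h2, map_one]
  · intro g
    obtain ⟨g, rfl⟩ := φ.surjective g
    rcases h3 g with h | h
    · left
      rw [← map_mul, ← map_inv, ← map_mul, h]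
    · right
      rw [← map_mul, ← map_inv, ← map_mul, h, map_inv]

/-- the 3-cycle -/
def c3 : Perm (Fin 4) := swap 1 2 * swap 2 3

lemma c3_norm : ∀ σ : Perm (Fin 4), σ 0 = 0 → σ * c3 * σ⁻¹ = c3 ∨ σ * c3 * σ⁻¹ = c3⁻¹ := by
  decide

lemma c3_facts : c3 ≠ 1 ∧ c3 * c3 * c3 = 1 ∧ c3 0 = 0 := by decide

lemma s4_fact : ∀ w : Perm (Fin 4), w 0 = 0 → w ≠ 1 → w * w * w = 1 →
    ∃ τ : Perm (Fin 4), τ 0 = 0 ∧ τ * w * τ⁻¹ ≠ w := by decide

lemma K_first {H X : Type} [Group H] [DecidableEq X] (α : H →* Perm X) (x₀ : X) :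
    ∃ a : Wr.K α α x₀, Nrm3 a := by
  have hmem : (⟨fun x => if x = x₀ then c3 else 1, 1⟩ : Wr α) ∈ Wr.K α α x₀ := by
    rw [Wr.mem_K]
    refine ⟨?_, by simp⟩
    intro x
    by_cases hx : x = x₀
    · simp [hx, c3_facts.2.2]
    · simp [hx]
  refine ⟨⟨_, hmem⟩, ?_, ?_, ?_⟩
  · intro h
    have h1 := congrArg Subtype.val h
    have h2 := congrFun (congrArg Wr.f h1) x₀
    simp at h2
    exact c3_facts.1 h2
  · apply Subtype.ext
    ext1
    · funext x
      by_cases hx : x = x₀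
      · simp [hx, c3_facts.2.1]
      · simp [hx]
    · simp
  · rintro ⟨g, hg⟩
    rw [Wr.mem_K] at hg
    obtain ⟨hg1, hg2⟩ := hg
    have hg2' : (α g.h)⁻¹ x₀ = x₀ := by rw [Perm.inv_eq_iff_eq, hg2]
    have hiff : ∀ x, (Equiv.symm (α g.h)) x = x₀ ↔ x = x₀ := by
      intro x
      rw [Equiv.symm_apply_eq, hg2]
    have hf : ∀ x, (g * (⟨fun x => if x = x₀ then c3 else 1, 1⟩ : Wr α) * g⁻¹).f x =
        if x = x₀ then g.f x₀ * c3 * (g.f x₀)⁻¹ else 1 := by
      intro x
      by_cases hx : x = x₀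
      · simp [hx, hiff]
      · simp [hx, hiff]
    rcases c3_norm (g.f x₀) (hg1 x₀) with h | h
    · left
      apply Subtype.ext
      show g * (⟨fun x => if x = x₀ then c3 else 1, 1⟩ : Wr α) * g⁻¹ = ⟨_, 1⟩
      ext1
      · funext x
        rw [hf, h]
      · simp
    · right
      apply Subtype.ext
      show g * (⟨fun x => if x = x₀ then c3 else 1, 1⟩ : Wr α) * g⁻¹ =
        (⟨fun x => if x = x₀ then c3 else 1, 1⟩ : Wr α)⁻¹
      ext1
      · funext x
        rw [hf, h]
        by_cases hx : x = x₀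
        · simp [hx]
        · simp [hx]
      · simp

lemma sq_cube {G : Type*} [Group G] {a : G} (h3 : a * a * a = 1) (h2 : a = a⁻¹) : a = 1 := by
  have h4 : a * a = 1 := by
    nth_rewrite 1 [h2]
    exact inv_mul_cancel a
  rwa [h4, one_mul] at h3

lemma K_second {H X Y : Type} [Group H] [DecidableEq X] (α : H →* Perm X) (β : H →* Perm Y)
    (y₀ : Y) (hfaith : ∀ h : H, (∀ x, α h x = x) → h = 1)
    (hfix : ∀ x, ∃ k : H, β k y₀ = y₀ ∧ α k x ≠ x) (a : Wr.K α β y₀) : ¬ Nrm3 a := by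
  rintro ⟨h1, h2, h3⟩
  obtain ⟨⟨v, h⟩, ha⟩ := a
  have hah := ha
  rw [Wr.mem_K] at hah
  obtain ⟨hv0, hh0⟩ := hah
  simp only at hv0 hh0
  have h2' : (⟨v, h⟩ * ⟨v, h⟩ * ⟨v, h⟩ : Wr α) = 1 := congrArg Subtype.val h2
  have hh3 : h * h * h = 1 := congrArg Wr.h h2'
  have h3' : ∀ g : Wr α, g ∈ Wr.K α β y₀ → g * ⟨v, h⟩ * g⁻¹ = ⟨v, h⟩ ∨
      g * ⟨v, h⟩ * g⁻¹ = (⟨v, h⟩ : Wr α)⁻¹ := by
    intro g hg
    rcases h3 ⟨g, hg⟩ with h4 | h4
    · left; exact congrArg Subtype.val h4
    · right; exact congrArg Subtype.val h4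
  -- the elements supported at one point
  have hsup : ∀ (x : X) (σ : Perm (Fin 4)), σ 0 = 0 →
      (⟨fun z => if z = x then σ else 1, 1⟩ : Wr α) ∈ Wr.K α β y₀ := by
    intro x σ hσ
    rw [Wr.mem_K]
    refine ⟨?_, by simp⟩
    intro z
    by_cases hz : z = x
    · simp [hz, hσ]
    · simp [hz]
  have hx : ∀ x, α h x = x := by
    intro x
    by_contra hne
    rcases h3' _ (hsup (α h x) c3 c3_facts.2.2) with h4 | h4
    · have h5 := congrFun (congrArg Wr.f h4) (α h x)
      simp [Ne.symm hne] at h5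
      exact c3_facts.1 h5
    · have h5 : 1 * h * 1⁻¹ = h⁻¹ := congrArg Wr.h h4
      rw [one_mul, inv_one, mul_one] at h5
      have h6 := sq_cube hh3 h5
      rw [h6] at hne
      simp at hne
  have hh1 : h = 1 := hfaith h hx
  subst hh1
  have hvcube : ∀ x, v x * v x * v x = 1 := by
    intro x
    have := congrFun (congrArg Wr.f h2') x
    simpa using this
  obtain ⟨x, hvx⟩ : ∃ x, v x ≠ 1 := by
    by_contra hcon
    push Not at hcon
    apply h1
    apply Subtype.ext
    ext1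
    · funext x
      exact hcon x
    · rfl
  obtain ⟨k, hk1, hk2⟩ := hfix x
  have hvk : v (α k x) ≠ 1 := by
    have hkK : (⟨fun _ => 1, k⟩ : Wr α) ∈ Wr.K α β y₀ := by
      rw [Wr.mem_K]
      exact ⟨fun _ => rfl, hk1⟩
    intro hcon
    rcases h3' _ hkK with h4 | h4
    · have h5 := congrFun (congrArg Wr.f h4) (α k x)
      simp [hcon] at h5
      exact hvx h5
    · have h5 := congrFun (congrArg Wr.f h4) (α k x)
      simp [hcon] at h5
      exact hvx h5
  obtain ⟨τ, hτ0, hτ⟩ := s4_fact (v x) (hv0 x) hvx (hvcube x)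
  rcases h3' _ (hsup x τ hτ0) with h4 | h4
  · have h5 := congrFun (congrArg Wr.f h4) x
    simp at h5
    exact hτ h5
  · have h5 := congrFun (congrArg Wr.f h4) (α k x)
    simp [hk2] at h5
    exact hvk (sq_cube (hvcube _) h5)

end Wreath

/-- Abstract form: from a faithful transitive action on `X` and a transitive action on `Y` of the
finite group `H` with isomorphic integral permutation modules, such that a point stabilizer of
`Y` has no fixed point in `X`, one gets a finite group with two core-free coset equivalent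
subgroups which are not isomorphic. -/
theorem main {H X Y : Type} [Group H] [Finite H] [Finite X]
    (α : H →* Perm X) (β : H →* Perm Y) (x₀ : X) (y₀ : Y)
    (trX : ∀ w, ∃ h, α h x₀ = w) (trY : ∀ w, ∃ h, β h y₀ = w)
    (e : (X →₀ ℤ) ≃ₗ[ℤ] (Y →₀ ℤ))
    (he : ∀ h v, e (Finsupp.mapDomain (α h) v) = Finsupp.mapDomain (β h) (e v))
    (hfaith : ∀ h : H, (∀ x, α h x = x) → h = 1)
    (hfix : ∀ x, ∃ k : H, β k y₀ = y₀ ∧ α k x ≠ x) :
    ∃ (G : Type) (_ : Group G) (_ : Finite G) (A B : Subgroup G),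
      A.normalCore = ⊥ ∧ B.normalCore = ⊥ ∧ CosetEquiv A B ∧ IsEmpty (A ≃* B) := by
  classical
  refine ⟨Wr α, inferInstance, inferInstance, Wr.K α α x₀, Wr.K α β y₀,
    Wr.K_core α x₀ trX hfaith, Wr.K_core β y₀ trY hfaith, ?_, ?_⟩
  · exact cosetEquiv_of (Wr.act α) (Wr.act β) _ _ (Wr.trans α x₀ trX) (Wr.trans β y₀ trY)
      (bigE e) (bigE_equivariant α β e he)
  · constructor
    intro φ
    obtain ⟨a, ha⟩ := K_first α x₀
    exact K_second α β y₀ hfaith hfix _ (nrm3_iso φ a ha)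

end Pool.Agent.V1129.Scott
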