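import Mathlib
import Pool.Agent.V1129.ScottData
import Pool.Agent.V1129.ScottWreath

set_option autoImplicit false

/-!
Scott's integrally equivalent pair, from the table in `ScottData`.
-/

namespace Pool.Agent.V1129.Scott

open Equiv

lemma all1_iff (f : ℕ → Bool) : all1 f = true ↔ ∀ x < 203, f x = true := by
  simp [all1, List.all_eq_true]

lemma all2_iff (f : ℕ → ℕ → Bool) : all2 f = true ↔ ∀ y < 203, ∀ x < 203, f y x = true := by
  simp [all2, List.all_eq_true]

lemma pchk_spec {g i : ℕ} (h : pchk g i = true) (x : ℕ) (hx : x < 203) :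
    tb g x < 203 ∧ tb i x < 203 ∧ tb g (tb i x) = x ∧ tb i (tb g x) = x := by
  have := (all1_iff _).1 h x hx
  simp only [Bool.and_eq_true] at this
  obtain ⟨⟨⟨h1, h2⟩, h3⟩, h4⟩ := this
  exact ⟨Nat.blt_eq.mp h1, Nat.blt_eq.mp h2, Nat.eq_of_beq_eq_true h3, Nat.eq_of_beq_eq_true h4⟩

/-- the permutation of a checked table -/
def mkP (g i : ℕ) (h : pchk g i = true) : Perm (Fin 203) where
  toFun x := ⟨tb g x, (pchk_spec h x x.2).1⟩
  invFun x := ⟨tb i x, (pchk_spec h x x.2).2.1⟩
  left_inv x := Fin.ext (pchk_spec h x x.2).2.2.2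
  right_inv x := Fin.ext (pchk_spec h x x.2).2.2.1

/-- the matrix -/
def Tm (y x : Fin 203) : ℤ := (bt PP (203 * y + x) : ℤ) - (bt QQ (203 * y + x) : ℤ)

/-- the automorphism group of the matrix (it contains `PSL(2,29)`) -/
def SG : Subgroup (Perm (Fin 203) × Perm (Fin 203)) where
  carrier := {p | ∀ y x, Tm (p.2 y) (p.1 x) = Tm y x}
  one_mem' := fun y x => rfl
  mul_mem' := by
    intro p q hp hq y x
    show Tm (p.2 (q.2 y)) (p.1 (q.1 x)) = Tm y x
    rw [hp, hq]
  inv_mem' := by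
    intro p hp y x
    have := hp (p.2.symm y) (p.1.symm x)
    rw [Equiv.apply_symm_apply, Equiv.apply_symm_apply] at this
    exact this.symm

/-- action on `X` -/
def al : SG →* Perm (Fin 203) := (MonoidHom.fst _ _).comp SG.subtype
/-- action on `Y` -/
def be : SG →* Perm (Fin 203) := (MonoidHom.snd _ _).comp SG.subtype

lemma mem_of_chk {gy iy gx ix : ℕ} (hy : pchk gy iy = true) (hx : pchk gx ix = true)
    (h : chk gy gx = true) : (mkP gx ix hx, mkP gy iy hy) ∈ SG := by
  intro y x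
  have h1 := (all2_iff _).1 h y y.2 x x.2
  simp only [Bool.and_eq_true] at h1
  have h2 := Nat.eq_of_beq_eq_true h1.1
  have h3 := Nat.eq_of_beq_eq_true h1.2
  show (bt PP (203 * tb gy y + tb gx x) : ℤ) - (bt QQ (203 * tb gy y + tb gx x) : ℤ) = Tm y x
  rw [h2, h3]
  rfl

/-- generators -/
def g0 : SG := ⟨_, mem_of_chk py0 px0 chk0⟩
/-- generators -/
def g1 : SG := ⟨_, mem_of_chk py1 px1 chk1⟩
/-- generators -/
def g2 : SG := ⟨_, mem_of_chk py2 px2 chk2⟩

lemma trX (w : Fin 203) : ∃ h, al h 0 = w := by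
  obtain ⟨n, hn⟩ := w
  induction n using Nat.strong_induction_on with
  | _ n ih =>
    have h := (all1_iff _).1 tx n hn
    simp only [Bool.or_eq_true] at h
    rcases h with ((h | h) | h) | h
    · have h0 : n = 0 := Nat.eq_of_beq_eq_true h
      subst h0
      exact ⟨1, rfl⟩
    · obtain ⟨k, hk⟩ := ih _ (Nat.blt_eq.mp h) ((pchk_spec px0 n hn).2.1)
      refine ⟨g0 * k, ?_⟩
      rw [map_mul, Perm.mul_apply, hk]
      exact Fin.ext (pchk_spec px0 n hn).2.2.1
    · obtain ⟨k, hk⟩ := ih _ (Nat.blt_eq.mp h) ((pchk_spec px1 n hn).2.1)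
      refine ⟨g1 * k, ?_⟩
      rw [map_mul, Perm.mul_apply, hk]
      exact Fin.ext (pchk_spec px1 n hn).2.2.1
    · obtain ⟨k, hk⟩ := ih _ (Nat.blt_eq.mp h) ((pchk_spec px2 n hn).2.1)
      refine ⟨g2 * k, ?_⟩
      rw [map_mul, Perm.mul_apply, hk]
      exact Fin.ext (pchk_spec px2 n hn).2.2.1

lemma trY (w : Fin 203) : ∃ h, be h 0 = w := by
  obtain ⟨n, hn⟩ := w
  induction n using Nat.strong_induction_on with
  | _ n ih =>
    have h := (all1_iff _).1 ty n hn
    simp only [Bool.or_eq_true] at h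
    rcases h with ((h | h) | h) | h
    · have h0 : n = 0 := Nat.eq_of_beq_eq_true h
      subst h0
      exact ⟨1, rfl⟩
    · obtain ⟨k, hk⟩ := ih _ (Nat.blt_eq.mp h) ((pchk_spec py0 n hn).2.1)
      refine ⟨g0 * k, ?_⟩
      rw [map_mul, Perm.mul_apply, hk]
      exact Fin.ext (pchk_spec py0 n hn).2.2.1
    · obtain ⟨k, hk⟩ := ih _ (Nat.blt_eq.mp h) ((pchk_spec py1 n hn).2.1)
      refine ⟨g1 * k, ?_⟩
      rw [map_mul, Perm.mul_apply, hk]
      exact Fin.ext (pchk_spec py1 n hn).2.2.1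
    · obtain ⟨k, hk⟩ := ih _ (Nat.blt_eq.mp h) ((pchk_spec py2 n hn).2.1)
      refine ⟨g2 * k, ?_⟩
      rw [map_mul, Perm.mul_apply, hk]
      exact Fin.ext (pchk_spec py2 n hn).2.2.1

lemma hfix (x : Fin 203) : ∃ k : SG, be k 0 = 0 ∧ al k x ≠ x := by
  have h := (all1_iff _).1 fixchk x x.2
  simp only [Bool.or_eq_true, Bool.not_eq_true'] at h
  rcases h with h | h
  · refine ⟨g0, Fin.ext y0fix.1, ?_⟩
    intro hcon
    have h1 : tb gx0 x = x := congrArg Fin.val hcon
    rw [h1, Nat.beq_refl] at h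
    exact Bool.noConfusion h
  · refine ⟨g1, Fin.ext y0fix.2, ?_⟩
    intro hcon
    have h1 : tb gx1 x = x := congrArg Fin.val hcon
    rw [h1, Nat.beq_refl] at h
    exact Bool.noConfusion h

/-- rows of the matrix -/
noncomputable def rowv (y : Fin 203) : Fin 203 →₀ ℤ := Finsupp.equivFunOnFinite.symm (Tm y)

lemma rowv_apply (y x : Fin 203) : rowv y x = Tm y x := rfl

/-- the linear map `ℤ[Y] → ℤ[X]` -/
noncomputable def L : (Fin 203 →₀ ℤ) →ₗ[ℤ] (Fin 203 →₀ ℤ) := Finsupp.linearCombination ℤ rowv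

lemma L_equiv (h : SG) (v : Fin 203 →₀ ℤ) :
    L (Finsupp.mapDomain (be h) v) = Finsupp.mapDomain (al h) (L v) := by
  induction v using Finsupp.induction_linear with
  | zero => simp
  | add a b ha hb => rw [Finsupp.mapDomain_add, map_add, ha, hb, map_add, Finsupp.mapDomain_add]
  | single y n =>
    rw [Finsupp.mapDomain_single, L, Finsupp.linearCombination_single,
      Finsupp.linearCombination_single]
    ext x
    rw [Finsupp.mapDomain_equiv_apply, Finsupp.smul_apply, Finsupp.smul_apply, rowv_apply,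
      rowv_apply]
    have := h.2 y ((al h).symm x)
    have h2 : (h : Perm (Fin 203) × Perm (Fin 203)).1 ((al h).symm x) = x :=
      Equiv.apply_symm_apply (al h) x
    rw [h2] at this
    rw [← this]
    rfl

lemma foldl_sum (f : ℕ → ℕ) (c n : ℕ) :
    (List.range n).foldl (fun a y => a + f y) c = c + ∑ y ∈ Finset.range n, f y := by
  induction n with
  | zero => simp
  | succ n ih => rw [List.range_succ, List.foldl_append, ih, Finset.sum_range_succ]; simp [add_assoc]

attribute [local irreducible] bt in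
lemma row_sum (x : Fin 203) :
    ∑ y : Fin 203, ((bt SP y : ℤ) - (bt SN y : ℤ)) * Tm y x = if x = 0 then 1 else 0 := by
  have h := Nat.eq_of_beq_eq_true ((all1_iff _).1 rowchk x x.2)
  rw [foldl_sum, foldl_sum, Finset.sum_range, Finset.sum_range, zero_add] at h
  have h2 := congrArg (Nat.cast : ℕ → ℤ) h
  push_cast [rl, rr] at h2
  have h3 : ∑ y : Fin 203, ((bt SP y : ℤ) - (bt SN y : ℤ)) * Tm y x =
      (∑ y : Fin 203, ((bt SP y : ℤ) * (bt PP (203 * y + x) : ℤ) +
        (bt SN y : ℤ) * (bt QQ (203 * y + x) : ℤ))) -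
      (∑ y : Fin 203, ((bt SP y : ℤ) * (bt QQ (203 * y + x) : ℤ) +
        (bt SN y : ℤ) * (bt PP (203 * y + x) : ℤ))) := by
    rw [← Finset.sum_sub_distrib]
    apply Finset.sum_congr rfl
    intro y _
    rw [Tm]
    ring
  rw [h3]
  have h4 : (if x = 0 then (1 : ℤ) else 0) = if (x : ℕ) = 0 then (1 : ℤ) else 0 := by
    by_cases hx : x = 0
    · rw [if_pos hx, if_pos (by rw [hx]; exact Fin.val_zero _)]
    · rw [if_neg hx, if_neg (fun h0 => hx (Fin.ext (h0.trans (Fin.val_zero _).symm)))]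
  rw [h4, sub_eq_iff_eq_add]
  exact h2

lemma single_zero_mem : Finsupp.single 0 1 ∈ LinearMap.range L := by
  refine ⟨∑ y : Fin 203, Finsupp.single y ((bt SP y : ℤ) - (bt SN y : ℤ)), ?_⟩
  rw [map_sum]
  ext x
  rw [Finsupp.finsetSum_apply]
  simp only [L, Finsupp.linearCombination_single, Finsupp.smul_apply, rowv_apply, smul_eq_mul]
  rw [row_sum, Finsupp.single_apply]
  simp only [eq_comm]

lemma L_surj : Function.Surjective L := by
  rw [← LinearMap.range_eq_top, eq_top_iff, ← Finsupp.span_single_eq_top, Submodule.span_le]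
  rintro _ ⟨x, n, rfl⟩
  obtain ⟨h, hh⟩ := trX x
  obtain ⟨v, hv⟩ := single_zero_mem
  refine ⟨n • Finsupp.mapDomain (be h) v, ?_⟩
  rw [map_smul, L_equiv, hv, Finsupp.mapDomain_single, hh, Finsupp.smul_single, smul_eq_mul,
    mul_one]

lemma L_bij : Function.Bijective L :=
  ⟨OrzechProperty.injective_of_surjective_endomorphism L L_surj, L_surj⟩

/-- the isomorphism of permutation modules -/
noncomputable def eXY : (Fin 203 →₀ ℤ) ≃ₗ[ℤ] (Fin 203 →₀ ℤ) := (LinearEquiv.ofBijective L L_bij).symm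

lemma eXY_equiv (h : SG) (v : Fin 203 →₀ ℤ) :
    eXY (Finsupp.mapDomain (al h) v) = Finsupp.mapDomain (be h) (eXY v) := by
  rw [eXY, LinearEquiv.symm_apply_eq]
  show _ = L _
  rw [L_equiv]
  congr 1
  exact ((LinearEquiv.ofBijective L L_bij).apply_symm_apply v).symm

lemma faith (h : SG) (hx : ∀ x, al h x = x) : h = 1 := by
  have h1 : al h = 1 := Equiv.ext hx
  have h2 : be h = 1 := by
    ext1 y
    have h3 := L_equiv h (Finsupp.single y 1)
    rw [h1] at h3
    have h4 : Finsupp.mapDomain (⇑(1 : Perm (Fin 203))) (L (Finsupp.single y 1)) =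
      L (Finsupp.single y 1) := Finsupp.mapDomain_id
    rw [h4] at h3
    have h5 := L_bij.1 h3
    rw [Finsupp.mapDomain_single] at h5
    exact (Finsupp.single_left_injective one_ne_zero) h5
  apply Subtype.ext
  exact Prod.ext h1 h2

end Pool.Agent.V1129.Scott
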