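import Pool.Agent.V1129.ThF
import Pool.Agent.V1129.Boom3

/-!
# Boomerang subgroups of Thompson's group `F`
-/

open Topology Filter Set
open scoped commutatorElement

namespace Pool.Agent.V1129.ThF

open Pool.Agent.V1129.Boom

/-! ### Bumps are in `F` -/

theorem bumpFun_eq_left {s t x : ℝ} (hst : s < t) (h : x ≤ s) : bumpFun s t x = x :=
  bump_fix s t hst x (Or.inl h)

theorem bumpFun_eq_right {s t x : ℝ} (hst : s < t) (h : t ≤ x) : bumpFun s t x = x :=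
  bump_fix s t hst x (Or.inr h)

theorem bumpFun_eq1 {s t x : ℝ} (hst : s < t) (h1 : s ≤ x) (h2 : x ≤ s + (t - s) / 4) :
    bumpFun s t x = 2 * x - s := by
  unfold bumpFun
  rw [min_eq_left (a := 2 * x - s), min_eq_left (a := 2 * x - s), max_eq_right] <;> linarith

theorem bumpFun_eq2 {s t x : ℝ} (hst : s < t) (h1 : s + (t - s) / 4 ≤ x)
    (h2 : x ≤ s + (t - s) / 2) : bumpFun s t x = x + (t - s) / 4 := by
  unfold bumpFun
  rw [min_eq_right (a := 2 * x - s), min_eq_left (a := x + (t - s) / 4), max_eq_right] <;>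
        linarith

theorem bumpFun_eq3 {s t x : ℝ} (hst : s < t) (h1 : s + (t - s) / 2 ≤ x)
    (h2 : x ≤ t) : bumpFun s t x = (x + t) / 2 := by
  unfold bumpFun
  rw [min_eq_right (b := (x + t) / 2), max_eq_right]
  · linarith
  · apply le_min <;> linarith

theorem bump_inF {s t : ℝ} (hst : s < t) (hs : IsDyadic s) (ht : IsDyadic t) (h0 : 0 ≤ s)
    (h1 : t ≤ 1) : InF (bump s t hst) := by
  refine ⟨?_, {s, s + (t - s) / 4, s + (t - s) / 2, t}, ?_, ?_⟩
  · intro x hx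
    apply bump_fix
    rcases hx with h | h
    · exact Or.inl (h.trans h0)
    · exact Or.inr (h1.trans h)
  · intro x hx
    simp only [Finset.mem_insert, Finset.mem_singleton] at hx
    rcases hx with rfl | rfl | rfl | rfl
    · exact hs
    · exact hs.add (isDyadic_quarter _ (ht.sub hs))
    · exact hs.add (isDyadic_half _ (ht.sub hs))
    · exact ht
  · intro x hx0 hx1 hxS
    simp only [Finset.mem_insert, Finset.mem_singleton, not_or] at hxS
    obtain ⟨n1, n2, n3, n4⟩ := hxS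
    simp only [bump_apply]
    rcases lt_or_gt_of_ne n1 with h | h
    · refine ⟨0, ?_⟩
      filter_upwards [gt_mem_nhds h] with y hy
      rw [bumpFun_eq_left hst hy.le, bumpFun_eq_left hst h.le]
      simp
    rcases lt_or_gt_of_ne n2 with h' | h'
    · refine ⟨1, ?_⟩
      filter_upwards [lt_mem_nhds h, gt_mem_nhds h'] with y hy hy'
      rw [bumpFun_eq1 hst hy.le hy'.le, bumpFun_eq1 hst h.le h'.le, zpow_one]
      ring
    rcases lt_or_gt_of_ne n3 with h2 | h2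
    · refine ⟨0, ?_⟩
      filter_upwards [lt_mem_nhds h', gt_mem_nhds h2] with y hy hy'
      rw [bumpFun_eq2 hst hy.le hy'.le, bumpFun_eq2 hst h'.le h2.le, zpow_zero]
      ring
    rcases lt_or_gt_of_ne n4 with h3 | h3
    · refine ⟨-1, ?_⟩
      filter_upwards [lt_mem_nhds h2, gt_mem_nhds h3] with y hy hy'
      rw [bumpFun_eq3 hst hy.le hy'.le, bumpFun_eq3 hst h2.le h3.le, zpow_neg, zpow_one]
      ring
    · refine ⟨0, ?_⟩
      filter_upwards [lt_mem_nhds h3] with y hy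
      rw [bumpFun_eq_right hst hy.le, bumpFun_eq_right hst h3.le]
      simp

/-! ### The action on the open unit interval -/

/-- The open unit interval. -/
abbrev X : Type := Ioo (0 : ℝ) 1

instance : MulAction ThompsonF X where
  smul g x := ⟨(g : ℝ ≃o ℝ) x, InF.mem_Ioo g.2 x.2.1 x.2.2⟩
  one_smul _ := Subtype.ext rfl
  mul_smul _ _ _ := Subtype.ext rfl

theorem smul_coe (g : ThompsonF) (x : X) : ((g • x : X) : ℝ) = (g : ℝ ≃o ℝ) x := rfl

theorem flexF : Flex ThompsonF X where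
  mono := fun g x y h => (g : ℝ ≃o ℝ).strictMono h
  faithful := by
    intro g hg
    apply Subtype.ext
    apply RelIso.ext
    intro x
    change (g : ℝ ≃o ℝ) x = x
    rcases le_or_gt x 0 with h | h
    · exact g.2.1 x (Or.inl h)
    rcases le_or_gt 1 x with h' | h'
    · exact g.2.1 x (Or.inr h')
    exact congrArg Subtype.val (hg ⟨x, h, h'⟩)
  push := by
    intro a u v b hau huv hvb
    obtain ⟨s, hs, hs1, hs2⟩ := exists_dyadic_between (show (a : ℝ) < u from hau)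
    obtain ⟨t, ht, ht1, ht2⟩ := exists_dyadic_between (show (v : ℝ) < b from hvb)
    have hst : s < t := (hs2.trans (show (u : ℝ) < v from huv)).trans ht1
    have h0 : 0 ≤ s := (a.2.1.trans hs1).le
    have h1 : t ≤ 1 := (ht2.trans b.2.2).le
    obtain ⟨n, hn⟩ := bump_pow_push s t hst (u : ℝ) v hs2 ht1
    let β : ThompsonF := ⟨bump s t hst, bump_inF hst hs ht h0 h1⟩
    refine ⟨β ^ n, pow_mem ?_ n, ?_⟩
    · intro x hx
      apply Subtype.ext
      change bump s t hst x = x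
      apply bump_fix
      rcases hx with h | h
      · exact Or.inl ((show (x : ℝ) ≤ a from h).trans hs1.le)
      · exact Or.inr (ht2.le.trans (show (b : ℝ) ≤ x from h))
    · change (v : ℝ) < ((β ^ n : ThompsonF) : ℝ ≃o ℝ) u
      rw [Subgroup.coe_pow]
      exact hn

/-! ### Germs at the end points -/

/-- `f` has slope `2 ^ k` at `0`. -/
def G0 (f : ℝ ≃o ℝ) (k : ℤ) : Prop := ∃ ε > 0, ∀ x, 0 ≤ x → x ≤ ε → f x = 2 ^ k * x

/-- `f` has slope `2 ^ k` at `1`. -/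
def G1 (f : ℝ ≃o ℝ) (k : ℤ) : Prop := ∃ ε > 0, ∀ x, 1 - ε ≤ x → x ≤ 1 → f x = 1 - 2 ^ k * (1 - x)

theorem exists_gap (S : Finset ℝ) (p : ℝ) : ∃ q, p < q ∧ q ≤ p + 1 ∧ ∀ s ∈ S, p < s → q ≤ s := by
  classical
  induction S using Finset.induction_on with
  | empty => exact ⟨p + 1, by linarith, le_rfl, by simp⟩
  | insert a S _ ih =>
    obtain ⟨q, h1, h2, h3⟩ := ih
    rcases lt_or_ge p a with h | h
    · refine ⟨min q a, lt_min h1 h, (min_le_left _ _).trans h2, ?_⟩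
      intro s hs hps
      rcases Finset.mem_insert.1 hs with rfl | hs
      · exact min_le_right _ _
      · exact (min_le_left _ _).trans (h3 s hs hps)
    · refine ⟨q, h1, h2, ?_⟩
      intro s hs hps
      rcases Finset.mem_insert.1 hs with rfl | hs
      · exact absurd hps (not_lt.mpr h)
      · exact h3 s hs hps

theorem exists_gap' (S : Finset ℝ) (p : ℝ) : ∃ q, q < p ∧ p - 1 ≤ q ∧ ∀ s ∈ S, s < p → s ≤ q := by
  classical
  induction S using Finset.induction_on with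
  | empty => exact ⟨p - 1, by linarith, le_rfl, by simp⟩
  | insert a S _ ih =>
    obtain ⟨q, h1, h2, h3⟩ := ih
    rcases lt_or_ge a p with h | h
    · refine ⟨max q a, max_lt h1 h, h2.trans (le_max_left _ _), ?_⟩
      intro s hs hps
      rcases Finset.mem_insert.1 hs with rfl | hs
      · exact le_max_right _ _
      · exact (h3 s hs hps).trans (le_max_left _ _)
    · refine ⟨q, h1, h2, ?_⟩
      intro s hs hps
      rcases Finset.mem_insert.1 hs with rfl | hs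
      · exact absurd hps (not_lt.mpr h)
      · exact h3 s hs hps

theorem exists_G0 {f : ℝ ≃o ℝ} (hf : InF f) : ∃ k, G0 f k := by
  obtain ⟨S, -, hloc⟩ := hf.2
  obtain ⟨q, hq0, hq1, hq⟩ := exists_gap S 0
  obtain ⟨k, hk⟩ := affine_of_no_break f hq0 (fun x hx hx' => hloc x hx (by linarith)
    (fun hxS => absurd hx' (not_lt.mpr (hq x hxS hx))))
  refine ⟨k, q, hq0, fun x hx hx' => ?_⟩
  rw [hk x hx hx', hf.zero]
  ring

theorem exists_G1 {f : ℝ ≃o ℝ} (hf : InF f) : ∃ k, G1 f k := by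
  obtain ⟨S, -, hloc⟩ := hf.2
  obtain ⟨q, hq0, hq1, hq⟩ := exists_gap' S 1
  obtain ⟨k, hk⟩ := affine_of_no_break f hq0 (fun x hx hx' => hloc x (by linarith) hx'
    (fun hxS => absurd hx (not_lt.mpr (hq x hxS hx'))))
  refine ⟨k, 1 - q, by linarith, fun x hx hx' => ?_⟩
  have e1 := hk x (by linarith) hx'
  have e2 := hk 1 hq0.le le_rfl
  rw [hf.one] at e2
  rw [e1]
  linarith

theorem G0.mul {f g : ℝ ≃o ℝ} {k l : ℤ} (hf : G0 f k) (hg : G0 g l) : G0 (f * g) (k + l) := by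
  obtain ⟨ε, hε, h⟩ := hf
  obtain ⟨δ, hδ, h'⟩ := hg
  refine ⟨min δ (ε * 2 ^ (-l)), lt_min hδ (by positivity), fun x hx hx' => ?_⟩
  have e1 := h' x hx (hx'.trans (min_le_left _ _))
  have hl : (0 : ℝ) < 2 ^ l := by positivity
  rw [RelIso.mul_apply, e1, h _ (by positivity), zpow_add₀ (by norm_num)]
  · ring
  · have h2 := hx'.trans (min_le_right _ _)
    calc (2 : ℝ) ^ l * x ≤ 2 ^ l * (ε * 2 ^ (-l)) := mul_le_mul_of_nonneg_left h2 hl.le
      _ = ε := by rw [zpow_neg]; field_simp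

theorem G1.mul {f g : ℝ ≃o ℝ} {k l : ℤ} (hf : G1 f k) (hg : G1 g l) : G1 (f * g) (k + l) := by
  obtain ⟨ε, hε, h⟩ := hf
  obtain ⟨δ, hδ, h'⟩ := hg
  refine ⟨min δ (ε * 2 ^ (-l)), lt_min hδ (by positivity), fun x hx hx' => ?_⟩
  have hx1 : 1 - δ ≤ x := by
    have := min_le_left δ (ε * 2 ^ (-l))
    linarith
  have e1 := h' x hx1 hx'
  have hl : (0 : ℝ) < 2 ^ l := by positivity
  have h3 : (0 : ℝ) ≤ 2 ^ l * (1 - x) := mul_nonneg hl.le (by linarith)
  rw [RelIso.mul_apply, e1, h _ ?_ (by linarith), zpow_add₀ (by norm_num)]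
  · ring
  · have h2 : 1 - x ≤ ε * 2 ^ (-l) := by
      have := min_le_right δ (ε * 2 ^ (-l))
      linarith
    have h4 : (2 : ℝ) ^ l * (1 - x) ≤ ε := by
      calc (2 : ℝ) ^ l * (1 - x) ≤ 2 ^ l * (ε * 2 ^ (-l)) := mul_le_mul_of_nonneg_left h2 hl.le
        _ = ε := by rw [zpow_neg]; field_simp
    linarith

theorem G0.inv {f : ℝ ≃o ℝ} {k : ℤ} (hf : G0 f k) : G0 f⁻¹ (-k) := by
  obtain ⟨ε, hε, h⟩ := hf
  have hk : (0 : ℝ) < 2 ^ k := by positivity
  refine ⟨ε * 2 ^ k, by positivity, fun x hx hx' => ?_⟩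
  have h1 : (2 : ℝ) ^ (-k) * x ≤ ε := by
    rw [zpow_neg, inv_mul_le_iff₀ hk, mul_comm]
    exact hx'
  have h2 := h ((2 : ℝ) ^ (-k) * x) (by positivity) h1
  have h3 : (2 : ℝ) ^ k * ((2 : ℝ) ^ (-k) * x) = x := by
    rw [zpow_neg]; field_simp
  rw [h3] at h2
  have h4 := congrArg (f⁻¹ : ℝ ≃o ℝ) h2
  rw [RelIso.inv_apply_self] at h4
  exact h4.symm

theorem G1.inv {f : ℝ ≃o ℝ} {k : ℤ} (hf : G1 f k) : G1 f⁻¹ (-k) := by
  obtain ⟨ε, hε, h⟩ := hf
  have hk : (0 : ℝ) < 2 ^ k := by positivity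
  refine ⟨ε * 2 ^ k, by positivity, fun x hx hx' => ?_⟩
  have h0 : (0 : ℝ) ≤ 2 ^ (-k) * (1 - x) := mul_nonneg (by positivity) (by linarith)
  have h1 : (2 : ℝ) ^ (-k) * (1 - x) ≤ ε := by
    rw [zpow_neg, inv_mul_le_iff₀ hk, mul_comm]
    linarith
  have h2 := h (1 - (2 : ℝ) ^ (-k) * (1 - x)) (by linarith) (by linarith)
  have h3 : 1 - (2 : ℝ) ^ k * (1 - (1 - (2 : ℝ) ^ (-k) * (1 - x))) = x := by
    rw [zpow_neg]; field_simp; ring
  rw [h3] at h2
  have h4 := congrArg (f⁻¹ : ℝ ≃o ℝ) h2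
  rw [RelIso.inv_apply_self] at h4
  exact h4.symm

theorem G0_one : G0 1 0 := ⟨1, one_pos, fun x _ _ => by simp⟩
theorem G1_one : G1 1 0 := ⟨1, one_pos, fun x _ _ => by simp⟩

theorem G0.zpow {f : ℝ ≃o ℝ} {k : ℤ} (hf : G0 f k) (n : ℤ) : G0 (f ^ n) (n * k) := by
  induction n using Int.induction_on with
  | zero => simpa using G0_one
  | succ i ih =>
    rw [zpow_add_one, add_mul, one_mul]
    exact ih.mul hf
  | pred i ih =>
    rw [zpow_sub_one, sub_mul, one_mul, sub_eq_add_neg]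
    exact ih.mul hf.inv

theorem G1.zpow {f : ℝ ≃o ℝ} {k : ℤ} (hf : G1 f k) (n : ℤ) : G1 (f ^ n) (n * k) := by
  induction n using Int.induction_on with
  | zero => simpa using G1_one
  | succ i ih =>
    rw [zpow_add_one, add_mul, one_mul]
    exact ih.mul hf
  | pred i ih =>
    rw [zpow_sub_one, sub_mul, one_mul, sub_eq_add_neg]
    exact ih.mul hf.inv

theorem G0_of_fix {f : ℝ ≃o ℝ} {s : ℝ} (hs : 0 < s) (h : ∀ x, x ≤ s → f x = x) : G0 f 0 :=
  ⟨s, hs, fun x _ hx' => by rw [h x hx']; simp⟩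

theorem G1_of_fix {f : ℝ ≃o ℝ} {s : ℝ} (hs : s < 1) (h : ∀ x, s ≤ x → f x = x) : G1 f 0 :=
  ⟨1 - s, by linarith, fun x hx _ => by rw [h x (by linarith)]; simp⟩

/-- the left bump -/
theorem G0_bump {t : ℝ} (ht : 0 < t) : G0 (bump 0 t ht) 1 :=
  ⟨t / 4, by positivity, fun x hx hx' => by
    rw [bump_apply, bumpFun_eq1 ht hx (by linarith)]
    simp⟩

/-- the right bump -/
theorem G1_bump {s : ℝ} (hs : s < 1) : G1 (bump s 1 hs) (-1) :=
  ⟨(1 - s) / 2, by linarith, fun x hx hx' => by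
    rw [bump_apply, bumpFun_eq3 hs (by linarith) hx', zpow_neg, zpow_one]
    ring⟩

/-! ### The quotient by the commutators of boundedly supported elements is abelian -/

/-- Boundedly supported elements of `F`. -/
def Bdd (f : ThompsonF) : Prop := ∃ s t : X, f ∈ R ThompsonF s t

theorem bdd_of_germs {f : ThompsonF} (h0 : G0 (f : ℝ ≃o ℝ) 0) (h1 : G1 (f : ℝ ≃o ℝ) 0) : Bdd f := by
  obtain ⟨ε, hε, h⟩ := h0
  obtain ⟨δ, hδ, h'⟩ := h1
  have e1 : (0 : ℝ) < min ε (1 / 2) := lt_min hε (by norm_num)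
  have e2 : min ε (1 / 2) < (1 : ℝ) := lt_of_le_of_lt (min_le_right _ _) (by norm_num)
  have e3 : (0 : ℝ) < max (1 - δ) (1 / 2) := lt_of_lt_of_le (by norm_num) (le_max_right _ _)
  have e4 : max (1 - δ) (1 / 2) < (1 : ℝ) := max_lt (by linarith) (by norm_num)
  refine ⟨⟨min ε (1 / 2), e1, e2⟩, ⟨max (1 - δ) (1 / 2), e3, e4⟩, ?_⟩
  intro x hx
  apply Subtype.ext
  rw [smul_coe]
  rcases hx with hx | hx
  · have hx' : (x : ℝ) ≤ min ε (1 / 2) := hx
    rw [h x x.2.1.le (hx'.trans (min_le_left _ _))]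
    simp
  · have hx' : max (1 - δ) (1 / 2) ≤ (x : ℝ) := hx
    rw [h' x ((le_max_left _ _).trans hx') x.2.2.le]
    simp

theorem Bdd.inv {f : ThompsonF} (h : Bdd f) : Bdd f⁻¹ := by
  obtain ⟨s, t, h⟩ := h
  exact ⟨s, t, inv_mem h⟩

/-- For all elements `f, g` of `F` and all `(s, t)` there are two commuting elements which
are the identity on `[s, t]`, and which agree with `f`, `g` near the end points. -/
theorem exists_split (s t : X) : ∃ α β : ThompsonF, α * β = β * α ∧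
    (∀ c ∈ R ThompsonF s t, α * c = c * α ∧ β * c = c * β) ∧
    ∀ f : ThompsonF, ∃ k l : ℤ, Bdd (f * (α ^ k * β ^ l)⁻¹) := by
  obtain ⟨p, hp, hp0, hps⟩ := exists_dyadic_between (lt_min s.2.1 t.2.1)
  obtain ⟨q, hq, hqt, hq1⟩ := exists_dyadic_between (max_lt s.2.2 t.2.2)
  have hps' : p < s := lt_of_lt_of_le hps (min_le_left _ _)
  have hqt' : (t : ℝ) < q := lt_of_le_of_lt (le_max_right _ _) hqt
  have hqs' : (s : ℝ) < q := lt_of_le_of_lt (le_max_left _ _) hqt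
  let α : ThompsonF := ⟨bump 0 p hp0, bump_inF hp0 isDyadic_zero hp le_rfl (hps'.trans s.2.2).le⟩
  let β : ThompsonF := ⟨bump q 1 hq1, bump_inF hq1 hq isDyadic_one (s.2.1.trans hqs').le le_rfl⟩
  have hα : ∀ x : ℝ, p ≤ x → (α : ℝ ≃o ℝ) x = x := fun x hx => bump_fix 0 p hp0 x (Or.inr hx)
  have hβ : ∀ x : ℝ, x ≤ q → (β : ℝ ≃o ℝ) x = x := fun x hx => bump_fix q 1 hq1 x (Or.inl hx)
  have comm_aux : ∀ a b : ThompsonF, ∀ m : ℝ, (∀ x : ℝ, m ≤ x → (a : ℝ ≃o ℝ) x = x) →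
      (∀ x : ℝ, x ≤ m → (b : ℝ ≃o ℝ) x = x) → a * b = b * a := by
    intro a b m ha hb
    apply Subtype.ext
    apply RelIso.ext
    intro x
    change (a : ℝ ≃o ℝ) ((b : ℝ ≃o ℝ) x) = (b : ℝ ≃o ℝ) ((a : ℝ ≃o ℝ) x)
    rcases le_total x m with h | h
    · have h1 : (a : ℝ ≃o ℝ) x ≤ m := by
        have := (a : ℝ ≃o ℝ).monotone h
        rwa [ha m le_rfl] at this
      rw [hb x h, hb _ h1]
    · have h1 : m ≤ (b : ℝ ≃o ℝ) x := by
        have := (b : ℝ ≃o ℝ).monotone h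
        rwa [hb m le_rfl] at this
      rw [ha x h, ha _ h1]
  refine ⟨α, β, comm_aux α β p hα (fun x hx => hβ x (hx.trans (hps'.trans hqs').le)), ?_, ?_⟩
  · intro c hc
    have hc1 : ∀ x : ℝ, x ≤ s → (c : ℝ ≃o ℝ) x = x := by
      intro x hx
      rcases le_or_gt x 0 with h | h
      · exact c.2.1 x (Or.inl h)
      · exact congrArg Subtype.val (hc ⟨x, h, lt_of_le_of_lt hx s.2.2⟩ (Or.inl hx))
    have hc2 : ∀ x : ℝ, t ≤ x → (c : ℝ ≃o ℝ) x = x := by
      intro x hx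
      rcases le_or_gt 1 x with h | h
      · exact c.2.1 x (Or.inr h)
      · exact congrArg Subtype.val (hc ⟨x, lt_of_lt_of_le t.2.1 hx, h⟩ (Or.inr hx))
    constructor
    · exact comm_aux α c p hα (fun x hx => hc1 x (hx.trans hps'.le))
    · exact (comm_aux c β q (fun x hx => hc2 x (hqt'.le.trans hx)) hβ).symm
  · intro f
    obtain ⟨k, hk⟩ := exists_G0 f.2
    obtain ⟨l, hl⟩ := exists_G1 f.2
    refine ⟨k, -l, ?_⟩
    have a0 : G0 (α : ℝ ≃o ℝ) 1 := G0_bump hp0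
    have a1 : G1 (α : ℝ ≃o ℝ) 0 := G1_of_fix (hps'.trans s.2.2) hα
    have b0 : G0 (β : ℝ ≃o ℝ) 0 := G0_of_fix (s.2.1.trans hqs') hβ
    have b1 : G1 (β : ℝ ≃o ℝ) (-1) := G1_bump hq1
    apply bdd_of_germs
    · have := hk.mul ((a0.zpow k).mul (b0.zpow (-l))).inv
      have e : k + -(k * 1 + -l * 0) = 0 := by ring
      rw [e] at this
      simpa using this
    · have := hl.mul ((a1.zpow k).mul (b1.zpow (-l))).inv
      have e : l + -(k * 0 + -l * -1) = 0 := by ring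
      rw [e] at this
      simpa using this

/-- If a subgroup of `F` contains all commutators of pairs of elements supported in a common
interval, then it contains all commutators. -/
theorem commutators_mem {Δ : Subgroup ThompsonF}
    (h : ∀ a b : ThompsonF, ∀ s t : X, a ∈ R ThompsonF s t → b ∈ R ThompsonF s t →
      a * b * a⁻¹ * b⁻¹ ∈ Δ) (f g : ThompsonF) : f * g * f⁻¹ * g⁻¹ ∈ Δ := by
  have h2 : ∀ a b : ThompsonF, Bdd a → Bdd b → a * b * a⁻¹ * b⁻¹ ∈ Δ := by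
    rintro a b ⟨s, t, ha⟩ ⟨s', t', hb⟩
    exact h a b (min s s') (max t t') (R_mono (min_le_left _ _) (le_max_left _ _) ha)
      (R_mono (min_le_right _ _) (le_max_right _ _) hb)
  -- central: commutators of arbitrary elements with bounded elements
  have h3 : ∀ g c : ThompsonF, Bdd c → g * c * g⁻¹ * c⁻¹ ∈ Δ := by
    rintro g c ⟨s, t, hc⟩
    obtain ⟨α, β, hαβ, hcomm, hsplit⟩ := exists_split s t
    obtain ⟨k, l, hb⟩ := hsplit g
    obtain ⟨c1, c2⟩ := hcomm c hc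
    set η := α ^ k * β ^ l with hη
    have hηc : η * c = c * η := by
      have e1 : Commute α c := c1
      have e2 : Commute β c := c2
      exact ((e1.zpow_left k).mul_left (e2.zpow_left l)).eq
    have := h2 (g * η⁻¹) c hb ⟨s, t, hc⟩
    have e : g * η⁻¹ * c * (g * η⁻¹)⁻¹ * c⁻¹ = g * c * g⁻¹ * c⁻¹ := by
      calc g * η⁻¹ * c * (g * η⁻¹)⁻¹ * c⁻¹ = g * η⁻¹ * (c * η) * g⁻¹ * c⁻¹ := by group
        _ = g * η⁻¹ * (η * c) * g⁻¹ * c⁻¹ := by rw [hηc]
        _ = _ := by group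
    rwa [e] at this
  -- the general case
  obtain ⟨α, β, hαβ, -, hsplit⟩ := exists_split (⟨1 / 2, by norm_num, by norm_num⟩)
    (⟨1 / 2, by norm_num, by norm_num⟩)
  obtain ⟨k, l, hbf⟩ := hsplit f
  obtain ⟨k', l', hbg⟩ := hsplit g
  set η := α ^ k * β ^ l with hη
  set η' := α ^ k' * β ^ l' with hη'
  have hηη' : η * η' = η' * η := by
    have e0 : Commute α β := hαβ
    have e1 : Commute (α ^ k) (α ^ k') := (Commute.refl α).zpow_zpow k k'
    have e2 : Commute (α ^ k) (β ^ l') := e0.zpow_zpow k l'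
    have e3 : Commute (β ^ l) (α ^ k') := e0.symm.zpow_zpow l k'
    have e4 : Commute (β ^ l) (β ^ l') := (Commute.refl β).zpow_zpow l l'
    exact ((e1.mul_right e2).mul_left (e3.mul_right e4)).eq
  set c := f * η⁻¹ with hc
  set d := g * η'⁻¹ with hd
  have hf : f = c * η := by rw [hc]; group
  have hg : g = d * η' := by rw [hd]; group
  -- f g f⁻¹ g⁻¹ = c η d η' η⁻¹ c⁻¹ η'⁻¹ d⁻¹
  have e1 := h3 η d hbg
  have e2 := h3 η' c⁻¹ hbf.inv
  -- x = c (η d η⁻¹ d⁻¹) c⁻¹ and so on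
  have e3 : c * (η * d * η⁻¹ * d⁻¹) * c⁻¹ ∈ Δ := by
    -- bounded element times
    have e4 : Bdd (η * d * η⁻¹ * d⁻¹) := by
      obtain ⟨s, t, hd'⟩ := hbg
      refine ⟨min (η • s) s, max (η • t) t, mul_mem ?_ ?_⟩
      · exact R_mono (min_le_left _ _) (le_max_left _ _) (conj_mem_R flexF hd' η)
      · exact R_mono (min_le_right _ _) (le_max_right _ _) (inv_mem hd')
    have e5 := h3 c _ e4
    have e6 : c * (η * d * η⁻¹ * d⁻¹) * c⁻¹ =
        (c * (η * d * η⁻¹ * d⁻¹) * c⁻¹ * (η * d * η⁻¹ * d⁻¹)⁻¹) * (η * d * η⁻¹ * d⁻¹) := by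
      group
    rw [e6]
    exact mul_mem e5 e1
  have e7 : c * d * c⁻¹ * d⁻¹ ∈ Δ := h2 c d hbf hbg
  have e8 : (c * d) * (η' * c⁻¹ * η'⁻¹ * c⁻¹⁻¹) * (c * d)⁻¹ ∈ Δ := by
    have e4 : Bdd (η' * c⁻¹ * η'⁻¹ * c⁻¹⁻¹) := by
      obtain ⟨s, t, hc'⟩ := hbf
      refine ⟨min (η' • s) s, max (η' • t) t, mul_mem ?_ ?_⟩
      · exact R_mono (min_le_left _ _) (le_max_left _ _) (conj_mem_R flexF (inv_mem hc') η')
      · exact R_mono (min_le_right _ _) (le_max_right _ _) (inv_mem (inv_mem hc'))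
    have e5 := h3 (c * d) _ e4
    have e6 : (c * d) * (η' * c⁻¹ * η'⁻¹ * c⁻¹⁻¹) * (c * d)⁻¹ =
        ((c * d) * (η' * c⁻¹ * η'⁻¹ * c⁻¹⁻¹) * (c * d)⁻¹ * (η' * c⁻¹ * η'⁻¹ * c⁻¹⁻¹)⁻¹) *
          (η' * c⁻¹ * η'⁻¹ * c⁻¹⁻¹) := by
      group
    rw [e6]
    exact mul_mem e5 e2
  -- assemble
  have total : f * g * f⁻¹ * g⁻¹ =
      (c * (η * d * η⁻¹ * d⁻¹) * c⁻¹) * ((c * d) * (η' * c⁻¹ * η'⁻¹ * c⁻¹⁻¹) * (c * d)⁻¹) *
        (c * d * c⁻¹ * d⁻¹) := by
    have h1 : η' * η⁻¹ = η⁻¹ * η' := by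
      rw [eq_inv_mul_iff_mul_eq, ← mul_assoc, hηη', mul_assoc, mul_inv_cancel, mul_one]
    rw [hf, hg]
    calc c * η * (d * η') * (c * η)⁻¹ * (d * η')⁻¹
        = c * η * d * (η' * η⁻¹) * c⁻¹ * η'⁻¹ * d⁻¹ := by group
      _ = c * η * d * (η⁻¹ * η') * c⁻¹ * η'⁻¹ * d⁻¹ := by rw [h1]
      _ = _ := by group
  rw [total]
  exact mul_mem (mul_mem e3 e8) e7

/-- Every boomerang subgroup of `F` is normal. -/
theorem normal_of_isBoomerang (Δ : Subgroup ThompsonF) (hΔ : IsBoomerang Δ) : Δ.Normal := by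
  by_cases hne : Δ = ⊥
  · rw [hne]; infer_instance
  have hwb := wb_of_isBoomerang hΔ
  have hcomm := commutators_mem (Δ := Δ)
    (fun a b s t ha hb => comm_mem flexF hwb hne a b ha hb)
  constructor
  intro n hn g
  have : g * n * g⁻¹ = (g * n * g⁻¹ * n⁻¹) * n := by group
  rw [this]
  exact mul_mem (hcomm g n) hn

end Pool.Agent.V1129.ThF
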