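import Mathlib

/-!
# The cactus groups
-/

namespace Pool.Agent.V1129.Cactus

/-- The index set of the generators `s_{p,q}`, `1 ≤ p < q ≤ n`. -/
abbrev Gen (n : ℕ) : Type := {x : ℕ × ℕ // 1 ≤ x.1 ∧ x.1 < x.2 ∧ x.2 ≤ n}

/-- The defining relators of the cactus group `J_n`. -/
inductive IsRel (n : ℕ) : FreeGroup (Gen n) → Prop
  /-- `s_{p,q}² = 1` -/
  | sq (x : Gen n) : IsRel n (FreeGroup.of x * FreeGroup.of x)
  /-- `s_{p,q} s_{m,r} = s_{m,r} s_{p,q}` if `[p,q]` and `[m,r]` are disjoint -/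
  | disj (x y : Gen n) (h : x.1.2 < y.1.1 ∨ y.1.2 < x.1.1) :
      IsRel n (FreeGroup.of x * FreeGroup.of y * (FreeGroup.of y * FreeGroup.of x)⁻¹)
  /-- `s_{p,q} s_{m,r} = s_{p+q-r,p+q-m} s_{p,q}` if `[m,r] ⊆ [p,q]` -/
  | nest (x y z : Gen n) (h1 : x.1.1 ≤ y.1.1) (h2 : y.1.2 ≤ x.1.2)
      (h3 : z.1.1 = x.1.1 + x.1.2 - y.1.2) (h4 : z.1.2 = x.1.1 + x.1.2 - y.1.1) :
      IsRel n (FreeGroup.of x * FreeGroup.of y * (FreeGroup.of z * FreeGroup.of x)⁻¹)

/-- The cactus group `J_n`. -/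
abbrev J (n : ℕ) : Type := PresentedGroup {r : FreeGroup (Gen n) | IsRel n r}

/-- The element `s_{p,q}` of `J_n`, with the convention that it is trivial if it is not the case
that `1 ≤ p < q ≤ n`. -/
def s (n p q : ℕ) : J n :=
  if h : 1 ≤ p ∧ p < q ∧ q ≤ n then PresentedGroup.of ⟨(p, q), h⟩ else 1

theorem s_of {n p q : ℕ} (h : 1 ≤ p ∧ p < q ∧ q ≤ n) :
    s n p q = PresentedGroup.of (⟨(p, q), h⟩ : Gen n) := by
  rw [s, dif_pos h]

theorem s_triv {n p q : ℕ} (h : ¬ (1 ≤ p ∧ p < q ∧ q ≤ n)) : s n p q = 1 := by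
  rw [s, dif_neg h]

theorem s_sq (n p q : ℕ) : s n p q * s n p q = 1 := by
  by_cases h : 1 ≤ p ∧ p < q ∧ q ≤ n
  · rw [s_of h]
    exact PresentedGroup.one_of_mem (IsRel.sq ⟨(p, q), h⟩)
  · rw [s_triv h, one_mul]

theorem s_inv (n p q : ℕ) : (s n p q)⁻¹ = s n p q := inv_eq_of_mul_eq_one_left (s_sq n p q)

theorem s_disj (n p q m r : ℕ) (h : q < m) : s n p q * s n m r = s n m r * s n p q := by
  by_cases h1 : 1 ≤ p ∧ p < q ∧ q ≤ n
  · by_cases h2 : 1 ≤ m ∧ m < r ∧ r ≤ n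
    · rw [s_of h1, s_of h2]
      have := PresentedGroup.one_of_mem (rels := {r : FreeGroup (Gen n) | IsRel n r})
        (IsRel.disj ⟨(p, q), h1⟩ ⟨(m, r), h2⟩ (Or.inl h))
      rw [map_mul, map_inv, map_mul, map_mul, mul_inv_eq_one] at this
      exact this
    · rw [s_triv h2, one_mul, mul_one]
  · rw [s_triv h1, one_mul, mul_one]

theorem s_nest (n p q m r : ℕ) (h1 : p ≤ m) (h2 : r ≤ q) (hm : 1 ≤ p) (hq : q ≤ n) :
    s n p q * s n m r = s n (p + q - r) (p + q - m) * s n p q := by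
  by_cases hmr : m < r
  · have e1 : 1 ≤ p ∧ p < q ∧ q ≤ n := ⟨hm, by omega, hq⟩
    have e2 : 1 ≤ m ∧ m < r ∧ r ≤ n := ⟨by omega, hmr, by omega⟩
    have e3 : 1 ≤ p + q - r ∧ p + q - r < p + q - m ∧ p + q - m ≤ n :=
      ⟨by omega, by omega, by omega⟩
    rw [s_of e1, s_of e2, s_of e3]
    have := PresentedGroup.one_of_mem (rels := {r : FreeGroup (Gen n) | IsRel n r})
      (IsRel.nest ⟨(p, q), e1⟩ ⟨(m, r), e2⟩ ⟨(p + q - r, p + q - m), e3⟩ h1 h2 rfl rfl)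
    rw [map_mul, map_inv, map_mul, map_mul, mul_inv_eq_one] at this
    exact this
  · rw [s_triv (p := m) (by omega), s_triv (p := p + q - r) (by omega), one_mul, mul_one]

theorem s_conj (n p q m r : ℕ) (h1 : p ≤ m) (h2 : r ≤ q) (hm : 1 ≤ p) (hq : q ≤ n) :
    s n p q * s n m r * s n p q = s n (p + q - r) (p + q - m) := by
  rw [s_nest n p q m r h1 h2 hm hq, mul_assoc, s_sq, mul_one]

/-- The universal property. -/
def lift {n : ℕ} {H : Type*} [Group H] (f : Gen n → H) (hsq : ∀ x, f x * f x = 1)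
    (hdisj : ∀ x y : Gen n, x.1.2 < y.1.1 → f x * f y = f y * f x)
    (hnest : ∀ x y z : Gen n, x.1.1 ≤ y.1.1 → y.1.2 ≤ x.1.2 → z.1.1 = x.1.1 + x.1.2 - y.1.2 →
      z.1.2 = x.1.1 + x.1.2 - y.1.1 → f x * f y = f z * f x) : J n →* H :=
  PresentedGroup.toGroup (f := f) (by
    intro r hr
    induction hr with
    | sq x => simpa using hsq x
    | disj x y h =>
      rw [map_mul, map_inv, map_mul, map_mul, mul_inv_eq_one]
      simp only [FreeGroup.lift_apply_of]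
      rcases h with h | h
      · exact hdisj x y h
      · exact (hdisj y x h).symm
    | nest x y z h1 h2 h3 h4 =>
      rw [map_mul, map_inv, map_mul, map_mul, mul_inv_eq_one]
      simp only [FreeGroup.lift_apply_of]
      exact hnest x y z h1 h2 h3 h4)

theorem lift_s {n : ℕ} {H : Type*} [Group H] (f : Gen n → H) (hsq hdisj hnest) {p q : ℕ}
    (h : 1 ≤ p ∧ p < q ∧ q ≤ n) :
    lift f hsq hdisj hnest (s n p q) = f ⟨(p, q), h⟩ := by
  rw [s_of h, lift, PresentedGroup.toGroup.of]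

/-! ### The homomorphism to the symmetric group -/

/-- The reversal of `[p,q]`. -/
def revFun (p q i : ℕ) : ℕ := if p ≤ i ∧ i ≤ q then p + q - i else i

theorem revFun_invol (p q i : ℕ) : revFun p q (revFun p q i) = i := by
  unfold revFun
  split_ifs <;> omega

/-- The reversal of `[p,q]` as a permutation of `ℕ`. -/
def rev (p q : ℕ) : Equiv.Perm ℕ := Function.Involutive.toPerm (revFun p q) (revFun_invol p q)

theorem rev_apply (p q i : ℕ) : rev p q i = revFun p q i := rfl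

/-- The homomorphism from `J_n` to the permutations of `ℕ`. -/
def π (n : ℕ) : J n →* Equiv.Perm ℕ :=
  lift (fun x => rev x.1.1 x.1.2)
    (by
      intro x
      ext i
      rw [Equiv.Perm.mul_apply, rev_apply, rev_apply, revFun_invol]
      rfl)
    (by
      rintro ⟨⟨p, q⟩, hx⟩ ⟨⟨m, r⟩, hy⟩ h
      ext i
      simp only [Equiv.Perm.mul_apply, rev_apply, revFun] at *
      split_ifs <;> omega)
    (by
      rintro ⟨⟨p, q⟩, hx⟩ ⟨⟨m, r⟩, hy⟩ ⟨⟨a, b⟩, hz⟩ h1 h2 h3 h4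
      ext i
      simp only [Equiv.Perm.mul_apply, rev_apply, revFun] at *
      subst h3 h4
      split_ifs <;> omega)

theorem π_s {n p q : ℕ} (h : 1 ≤ p ∧ p < q ∧ q ≤ n) : π n (s n p q) = rev p q := by
  rw [π, lift_s _ _ _ _ h]

end Pool.Agent.V1129.Cactus
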