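import Mathlib

/-!
# Weak boomerang subgroups of flexible groups of order automorphisms

A group `G` acts faithfully by order automorphisms on a dense linear order `X` without end points,
and it is *flexible*: for all `a < u < v < b` some element supported in `(a, b)` pushes `u` past
`v`.  We show that a nontrivial boomerang subgroup contains all commutators of boundedly supported
elements.
-/

namespace Pool.Agent.V1129.Boom

variable {G X : Type*} [Group G] [LinearOrder X] [MulAction G X]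

/-- The elements of `G` supported in the open interval `(a, b)`. -/
def R (G : Type*) {X : Type*} [Group G] [LinearOrder X] [MulAction G X] (a b : X) :
    Subgroup G where
  carrier := {g | ∀ x, (x ≤ a ∨ b ≤ x) → g • x = x}
  one_mem' := fun x _ => one_smul _ _
  mul_mem' := by
    intro g h hg hh x hx
    rw [mul_smul, hh x hx, hg x hx]
  inv_mem' := by
    intro g hg x hx
    have := hg x hx
    rw [inv_smul_eq_iff, this]

theorem mem_R {a b : X} {g : G} : g ∈ R G a b ↔ ∀ x, (x ≤ a ∨ b ≤ x) → g • x = x := Iff.rfl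

theorem R_mono {a b a' b' : X} (ha : a' ≤ a) (hb : b ≤ b') : R G a b ≤ R G a' b' := by
  intro g hg x hx
  refine hg x ?_
  rcases hx with h | h
  · exact Or.inl (h.trans ha)
  · exact Or.inr (hb.trans h)

/-- The action is faithful, order preserving and flexible. -/
structure Flex (G X : Type*) [Group G] [LinearOrder X] [MulAction G X] : Prop where
  mono : ∀ g : G, ∀ x y : X, x < y → g • x < g • y
  faithful : ∀ g : G, (∀ x : X, g • x = x) → g = 1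
  push : ∀ a u v b : X, a < u → u < v → v < b → ∃ γ ∈ R G a b, v < γ • u

/-- The part of the boomerang property which is used. -/
structure WB (Δ : Subgroup G) : Prop where
  pos : ∀ a ∈ Δ, ∀ γ : G, ∃ n : ℕ, 1 ≤ n ∧ γ ^ n * a * (γ ^ n)⁻¹ ∈ Δ
  neg : ∀ b, b ∉ Δ → ∀ γ : G, ∃ n : ℕ, 1 ≤ n ∧ γ ^ n * b * (γ ^ n)⁻¹ ∉ Δ

variable (hF : Flex G X)

include hF

theorem smul_lt_iff (g : G) (x y : X) : g • x < g • y ↔ x < y := by
  constructor
  · intro h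
    have := hF.mono g⁻¹ _ _ h
    simpa using this
  · exact hF.mono g x y

theorem smul_le_iff (g : G) (x y : X) : g • x ≤ g • y ↔ x ≤ y := by
  rw [← not_lt, ← not_lt, smul_lt_iff hF]

theorem conj_mem_R {a b : X} {g : G} (hg : g ∈ R G a b) (k : G) :
    k * g * k⁻¹ ∈ R G (k • a) (k • b) := by
  intro x hx
  have : k⁻¹ • x ≤ a ∨ b ≤ k⁻¹ • x := by
    rcases hx with h | h
    · left
      rw [← smul_le_iff hF k]
      simpa using h
    · right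
      rw [← smul_le_iff hF k]
      simpa using h
  have h2 := hg _ this
  rw [mul_smul, mul_smul, h2, smul_inv_smul]

theorem comm_of_le {a b c d : X} (hbc : b ≤ c) {g h : G} (hg : g ∈ R G a b) (hh : h ∈ R G c d) :
    g * h = h * g := by
  have key : ∀ x : X, (g * h) • x = (h * g) • x := by
    intro x
    rw [mul_smul, mul_smul]
    rcases le_or_gt x c with hx | hx
    · rw [hh x (Or.inl hx)]
      rcases le_or_gt b x with hbx | hbx
      · rw [hg x (Or.inr hbx), hh x (Or.inl hx)]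
      · have h1 : g • x < g • b := hF.mono g _ _ hbx
        rw [hg b (Or.inr le_rfl)] at h1
        rw [hh (g • x) (Or.inl (h1.le.trans hbc))]
    · have h1 : h • c < h • x := hF.mono h _ _ hx
      rw [hh c (Or.inl le_rfl)] at h1
      rw [hg x (Or.inr (hbc.trans hx.le)), hg (h • x) (Or.inr (hbc.trans h1.le))]
  have h2 : (h * g)⁻¹ * (g * h) = 1 := by
    apply hF.faithful
    intro x
    rw [mul_smul, key, inv_smul_smul]
  exact (inv_mul_eq_one.mp h2).symm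

theorem pow_push {γ : G} {u v : X} (huv : u ≤ v) (h : v < γ • u) (n : ℕ) (hn : 1 ≤ n) :
    v < γ ^ n • u := by
  induction n with
  | zero => omega
  | succ m ih =>
    rcases Nat.eq_zero_or_pos m with rfl | hm
    · simpa using h
    · have := ih hm
      rw [pow_succ', mul_smul]
      calc v < γ • u := h
        _ ≤ γ • v := (smul_le_iff hF _ _ _).2 huv
        _ < γ • (γ ^ m • u) := hF.mono _ _ _ this

theorem pow_pull {γ : G} {u v : X} (huv : u ≤ v) (h : v < γ • u) (n : ℕ) (hn : 1 ≤ n) :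
    (γ ^ n)⁻¹ • v < u := by
  have := pow_push hF huv h n hn
  rw [← smul_lt_iff hF (γ ^ n), smul_inv_smul]
  exact this

variable [DenselyOrdered X] [NoMinOrder X] [NoMaxOrder X]

/-- For a compact interval `[u, v]` and an open interval `(p, q)` some boundedly supported `γ`
maps `[u, v]` into `(p, q)`. -/
theorem contract (u v p q : X) (hpq : p < q) :
    ∃ γ : G, (∃ a b : X, γ ∈ R G a b) ∧ p < γ • u ∧ γ • v < q := by
  obtain ⟨j, hpj, hjq⟩ := exists_between hpq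
  obtain ⟨s, hs⟩ := exists_lt (min u p)
  obtain ⟨t, ht⟩ := exists_gt (max v q)
  -- γ₁ supported in (s, j) pushing u past p
  have h1 : ∃ γ₁ ∈ R G s j, p < γ₁ • u := by
    by_cases huj : u < p
    · obtain ⟨γ, hγ, h⟩ := hF.push s u p j (lt_of_lt_of_le hs (min_le_left _ _)) huj hpj
      exact ⟨γ, hγ, h⟩
    · rcases lt_or_eq_of_le (not_lt.mp huj) with h | h
      · exact ⟨1, one_mem _, by rwa [one_smul]⟩
      · -- u = p: push s < p < j' < j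
        obtain ⟨p', hp1, hp2⟩ := exists_between hpj
        obtain ⟨γ, hγ, h'⟩ := hF.push s p p' j (lt_of_lt_of_le hs (min_le_right _ _)) hp1 hp2
        exact ⟨γ, hγ, by rw [← h]; exact hp1.trans h'⟩
  -- γ₂ supported in (j, t) pulling v before q
  have h2 : ∃ γ₂ ∈ R G j t, γ₂ • v < q := by
    by_cases hvq : q < v
    · obtain ⟨γ, hγ, h⟩ := hF.push j q v t hjq hvq (lt_of_le_of_lt (le_max_left _ _) ht)
      refine ⟨γ⁻¹, inv_mem hγ, ?_⟩
      rw [← smul_lt_iff hF γ, smul_inv_smul]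
      exact h
    · rcases lt_or_eq_of_le (not_lt.mp hvq) with h | h
      · exact ⟨1, one_mem _, by rwa [one_smul]⟩
      · obtain ⟨q', hq1, hq2⟩ := exists_between hjq
        obtain ⟨γ, hγ, h'⟩ := hF.push j q' q t hq1 hq2 (lt_of_le_of_lt (le_max_right _ _) ht)
        refine ⟨γ⁻¹, inv_mem hγ, ?_⟩
        rw [← smul_lt_iff hF γ, smul_inv_smul, h]
        exact h'.trans (hF.mono _ _ _ hq2)
  obtain ⟨γ₁, hγ₁, e1⟩ := h1
  obtain ⟨γ₂, hγ₂, e2⟩ := h2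
  have hcomm := comm_of_le hF (le_refl j) hγ₁ hγ₂
  refine ⟨γ₂ * γ₁, ⟨s, t, ?_⟩, ?_, ?_⟩
  · apply mul_mem
    · refine R_mono ?_ le_rfl hγ₂
      exact ((lt_of_lt_of_le hs (min_le_right _ _)).trans hpj).le
    · refine R_mono le_rfl ?_ hγ₁
      exact (hjq.trans (lt_of_le_of_lt (le_max_right _ _) ht)).le
  · rw [mul_smul]
    -- γ₁ u > p; if γ₁ u ≤ j then γ₂ fixes; else γ₂ (γ₁ u) > j > p
    rcases le_or_gt (γ₁ • u) j with h | h
    · rw [hγ₂ _ (Or.inl h)]; exact e1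
    · have := hF.mono γ₂ _ _ h
      rw [hγ₂ j (Or.inl le_rfl)] at this
      exact hpj.trans this
  · rw [← hcomm, mul_smul]
    rcases le_or_gt j (γ₂ • v) with h | h
    · rw [hγ₁ _ (Or.inr h)]; exact e2
    · have := hF.mono γ₁ _ _ h
      rw [hγ₁ j (Or.inr le_rfl)] at this
      exact this.trans hjq

/-- Iterated contraction. -/
theorem contract_pow (u v p q : X) (hpq : p < q) :
    ∃ γ : G, (∃ a b : X, γ ∈ R G a b) ∧
      ∀ n : ℕ, 1 ≤ n → p < γ ^ n • u ∧ γ ^ n • v < q := by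
  obtain ⟨γ, hγ, h1, h2⟩ := contract hF (min u p) (max v q) p q hpq
  refine ⟨γ, hγ, ?_⟩
  have key : ∀ n : ℕ, 1 ≤ n → p < γ ^ n • (min u p) ∧ γ ^ n • (max v q) < q := by
    intro n hn
    induction n with
    | zero => omega
    | succ m ih =>
      rcases Nat.eq_zero_or_pos m with rfl | hm
      · simpa using ⟨h1, h2⟩
      · obtain ⟨i1, i2⟩ := ih hm
        constructor
        · rw [pow_succ', mul_smul]
          calc p < γ • (min u p) := h1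
            _ ≤ γ • p := (smul_le_iff hF _ _ _).2 (min_le_right _ _)
            _ < _ := hF.mono _ _ _ i1
        · rw [pow_succ', mul_smul]
          calc _ < γ • q := hF.mono _ _ _ i2
            _ ≤ γ • (max v q) := (smul_le_iff hF _ _ _).2 (le_max_right _ _)
            _ < q := h2
  intro n hn
  obtain ⟨k1, k2⟩ := key n hn
  exact ⟨lt_of_lt_of_le k1 ((smul_le_iff hF _ _ _).2 (min_le_left _ _)),
    lt_of_le_of_lt ((smul_le_iff hF _ _ _).2 (le_max_left _ _)) k2⟩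

omit [NoMinOrder X] [NoMaxOrder X] [DenselyOrdered X] in
theorem exists_moved {δ : G} (hδ : δ ≠ 1) : ∃ x : X, δ • x ≠ x := by
  by_contra h
  push Not at h
  exact hδ (hF.faithful δ h)

/-- A nontrivial element of `Δ` can be taken to move some point up. -/
theorem exists_up {Δ : Subgroup G} {a b : X} {δ : G} (hδ : δ ∈ Δ) (h1 : δ ≠ 1)
    (hR : δ ∈ R G a b) : ∃ δ' ∈ Δ, δ' ∈ R G a b ∧ ∃ x : X, x < δ' • x := by
  obtain ⟨x, hx⟩ := exists_moved hF h1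
  rcases lt_or_gt_of_ne hx with h | h
  · refine ⟨δ⁻¹, inv_mem hδ, inv_mem hR, x, ?_⟩
    rw [← smul_lt_iff hF δ, smul_inv_smul]
    exact h
  · exact ⟨δ, hδ, hR, x, h⟩

/-- The main theorem: a nontrivial boomerang subgroup with a nontrivial boundedly supported
element contains all commutators of boundedly supported elements. -/
theorem comm_mem_of_bdd {Δ : Subgroup G} (hΔ : WB Δ) {δ₀ : G} (h0 : δ₀ ∈ Δ) (h1 : δ₀ ≠ 1)
    {a₀ b₀ : X} (hR0 : δ₀ ∈ R G a₀ b₀) (a b : G) {s t : X} (ha : a ∈ R G s t) (hb : b ∈ R G s t) :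
    a * b * a⁻¹ * b⁻¹ ∈ Δ := by
  -- Step 1: nontrivial elements in every interval
  have step1 : ∀ p q : X, p < q → ∃ δ ∈ Δ, δ ≠ 1 ∧ δ ∈ R G p q := by
    intro p q hpq
    obtain ⟨γ, -, hγ⟩ := contract_pow hF a₀ b₀ p q hpq
    obtain ⟨n, hn, hmem⟩ := hΔ.pos δ₀ h0 γ
    refine ⟨_, hmem, ?_, ?_⟩
    · intro h
      apply h1
      have := congrArg (fun z => (γ ^ n)⁻¹ * z * γ ^ n) h
      simpa [mul_assoc] using this
    · have := conj_mem_R hF hR0 (γ ^ n)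
      exact R_mono (hγ n hn).1.le (hγ n hn).2.le this
  -- Step 2: the element δ₁ and the interval J = (x, δ₁ x)
  obtain ⟨δ₁, hδ₁, -, x, hx⟩ := exists_up hF h0 h1 hR0
  obtain ⟨δ₂, hδ₂, hδ₂1, hδ₂R⟩ := step1 x (δ₁ • x) hx
  obtain ⟨δ', hδ', hδ'R, x', hx'⟩ := exists_up hF hδ₂ hδ₂1 hδ₂R
  -- x' and δ' x' are in J
  have hx'J : x < x' ∧ δ' • x' < δ₁ • x := by
    constructor
    · by_contra h
      rw [hδ'R x' (Or.inl (not_lt.mp h))] at hx'
      exact lt_irrefl _ hx'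
    · have h3 : x' < δ₁ • x := by
        by_contra h
        rw [hδ'R x' (Or.inr (not_lt.mp h))] at hx'
        exact lt_irrefl _ hx'
      have h4 := hF.mono δ' _ _ h3
      rwa [hδ'R (δ₁ • x) (Or.inr le_rfl)] at h4
  set J1 := x with hJ1
  set J2 := δ₁ • x with hJ2
  set I1 := x' with hI1
  set I2 := δ' • x' with hI2
  have hIJ : R G I1 I2 ≤ R G J1 J2 := R_mono hx'J.1.le hx'J.2.le
  -- Step 3
  have step3 : ∀ g ∈ R G J1 J2, ∃ n : ℕ, 1 ≤ n ∧ ∀ k ∈ Δ, k ∈ R G J1 J2 →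
      (g ^ n * k * (g ^ n)⁻¹ ∈ Δ ∧ (g ^ n)⁻¹ * k * g ^ n ∈ Δ) := by
    intro g hg
    obtain ⟨n, hn, hmem⟩ := hΔ.pos δ₁ hδ₁ g⁻¹
    refine ⟨n, hn, ?_⟩
    intro k hk hkR
    have e1 : (g⁻¹ ^ n * δ₁ * (g⁻¹ ^ n)⁻¹) * δ₁⁻¹ ∈ Δ := mul_mem hmem (inv_mem hδ₁)
    have hgn : g ^ n ∈ R G J1 J2 := pow_mem hg n
    -- w = δ₁ gⁿ δ₁⁻¹ supported in δ₁ J
    have hw : δ₁ * g ^ n * δ₁⁻¹ ∈ R G (δ₁ • J1) (δ₁ • J2) := conj_mem_R hF hgn δ₁
    have e2 : (g⁻¹ ^ n * δ₁ * (g⁻¹ ^ n)⁻¹) * δ₁⁻¹ = (g ^ n)⁻¹ * (δ₁ * g ^ n * δ₁⁻¹) := by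
      simp only [inv_pow, inv_inv]
      group
    rw [e2] at e1
    have hc1 : k * (δ₁ * g ^ n * δ₁⁻¹) = (δ₁ * g ^ n * δ₁⁻¹) * k :=
      comm_of_le hF (le_refl _) hkR hw
    have hc2 : g ^ n * (δ₁ * g ^ n * δ₁⁻¹) = (δ₁ * g ^ n * δ₁⁻¹) * g ^ n :=
      comm_of_le hF (le_refl _) hgn hw
    set w := δ₁ * g ^ n * δ₁⁻¹ with hwdef
    set y := g ^ n with hy
    have e3 : (y⁻¹ * w) * k * (y⁻¹ * w)⁻¹ ∈ Δ := mul_mem (mul_mem e1 hk) (inv_mem e1)
    have e4 : (y⁻¹ * w)⁻¹ * k * (y⁻¹ * w) ∈ Δ := mul_mem (mul_mem (inv_mem e1) hk) e1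
    constructor
    · have : (y⁻¹ * w)⁻¹ * k * (y⁻¹ * w) = y * k * y⁻¹ := by
        have hc2' : y⁻¹ * w = w * y⁻¹ := by
          rw [eq_mul_inv_iff_mul_eq, mul_assoc, ← hc2, inv_mul_cancel_left]
        rw [hc2', mul_inv_rev, inv_inv]
        calc y * w⁻¹ * k * (w * y⁻¹) = y * w⁻¹ * (k * w) * y⁻¹ := by group
          _ = y * w⁻¹ * (w * k) * y⁻¹ := by rw [hc1]
          _ = y * k * y⁻¹ := by group
      rw [this] at e4
      exact e4
    · have : (y⁻¹ * w) * k * (y⁻¹ * w)⁻¹ = y⁻¹ * k * y := by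
        rw [mul_inv_rev, inv_inv]
        calc y⁻¹ * w * k * (w⁻¹ * y) = y⁻¹ * (w * k) * w⁻¹ * y := by group
          _ = y⁻¹ * (k * w) * w⁻¹ * y := by rw [hc1]
          _ = y⁻¹ * k * y := by group
      rw [this] at e3
      exact e3
  -- Step 4: M
  let N : G → Prop := fun g => ∀ k ∈ Δ, k ∈ R G J1 J2 → (g * k * g⁻¹ ∈ Δ ∧ g⁻¹ * k * g ∈ Δ)
  have Npow : ∀ g ∈ R G J1 J2, N g → ∀ m : ℕ, N (g ^ m) := by
    intro g hg hN m
    induction m with
    | zero =>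
      intro k hk _
      simpa using hk
    | succ m ih =>
      intro k hk hkR
      obtain ⟨i1, i2⟩ := ih k hk hkR
      have hgm : g ^ m ∈ R G J1 J2 := pow_mem hg m
      constructor
      · have := (hN _ i1 (mul_mem (mul_mem hgm hkR) (inv_mem hgm))).1
        have e : g ^ (m + 1) * k * (g ^ (m + 1))⁻¹ = g * (g ^ m * k * (g ^ m)⁻¹) * g⁻¹ := by
          rw [pow_succ']; group
        rw [e]; exact this
      · have := (hN _ i2 (mul_mem (mul_mem (inv_mem hgm) hkR) hgm)).2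
        have e : (g ^ (m + 1))⁻¹ * k * g ^ (m + 1) = g⁻¹ * ((g ^ m)⁻¹ * k * g ^ m) * g := by
          rw [pow_succ]; group
        rw [e]; exact this
  have Nmul : ∀ g h : G, g ∈ R G J1 J2 → h ∈ R G J1 J2 → N g → N h → N (g * h) := by
    intro g h hg hh hNg hNh k hk hkR
    obtain ⟨i1, i2⟩ := hNh k hk hkR
    obtain ⟨j1, j2⟩ := hNg k hk hkR
    constructor
    · have := (hNg _ i1 (mul_mem (mul_mem hh hkR) (inv_mem hh))).1
      have e : g * h * k * (g * h)⁻¹ = g * (h * k * h⁻¹) * g⁻¹ := by group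
      rw [e]; exact this
    · have := (hNh _ j2 (mul_mem (mul_mem (inv_mem hg) hkR) hg)).2
      have e : (g * h)⁻¹ * k * (g * h) = h⁻¹ * (g⁻¹ * k * g) * h := by group
      rw [e]; exact this
  have Ninv : ∀ g : G, N g → N g⁻¹ := by
    intro g hNg k hk hkR
    obtain ⟨i1, i2⟩ := hNg k hk hkR
    exact ⟨by simpa using i2, by simpa using i1⟩
  -- commutators of elements of M are in Δ
  have step4 : ∀ g h : G, g ∈ R G I1 I2 → h ∈ R G I1 I2 → N g → N h →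
      g * h * g⁻¹ * h⁻¹ ∈ Δ := by
    intro g h hg hh hNg hNh
    have hgJ := hIJ hg
    have hhJ := hIJ hh
    have c1 : g * δ' * g⁻¹ * δ'⁻¹ ∈ Δ := mul_mem (hNg δ' hδ' hδ'R).1 (inv_mem hδ')
    have c1R : g * δ' * g⁻¹ * δ'⁻¹ ∈ R G J1 J2 :=
      mul_mem (mul_mem (mul_mem hgJ hδ'R) (inv_mem hgJ)) (inv_mem hδ'R)
    have c2 := (hNh _ c1 c1R).1
    have c3 : (g * δ' * g⁻¹ * δ'⁻¹) * (h * (g * δ' * g⁻¹ * δ'⁻¹) * h⁻¹)⁻¹ ∈ Δ :=
      mul_mem c1 (inv_mem c2)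
    have hg1 : δ' * g⁻¹ * δ'⁻¹ ∈ R G (δ' • I1) (δ' • I2) := conj_mem_R hF (inv_mem hg) δ'
    have hc : h * (δ' * g⁻¹ * δ'⁻¹) = (δ' * g⁻¹ * δ'⁻¹) * h := comm_of_le hF (le_refl _) hh hg1
    set g1 := δ' * g⁻¹ * δ'⁻¹ with hg1def
    have e : (g * δ' * g⁻¹ * δ'⁻¹) * (h * (g * δ' * g⁻¹ * δ'⁻¹) * h⁻¹)⁻¹ = g * h * g⁻¹ * h⁻¹ := by
      have e0 : g * δ' * g⁻¹ * δ'⁻¹ = g * g1 := by rw [hg1def]; group
      rw [e0]
      calc g * g1 * (h * (g * g1) * h⁻¹)⁻¹ = g * (g1 * h) * g1⁻¹ * g⁻¹ * h⁻¹ := by group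
        _ = g * (h * g1) * g1⁻¹ * g⁻¹ * h⁻¹ := by rw [hc]
        _ = _ := by group
    rw [e] at c3
    exact c3
  -- Step 5: choose I' = (i1, i2) inside I
  obtain ⟨i1, hi1, hi1'⟩ := exists_between hx'
  obtain ⟨i2, hi2, hi2'⟩ := exists_between hi1'
  obtain ⟨γ, hγR, hγ⟩ := hF.push I1 i1 i2 I2 hi1 hi2 hi2'
  have hI'I : R G i1 i2 ≤ R G I1 I2 := R_mono hi1.le hi2'.le
  have step5 : ∀ c ∈ R G i1 i2, ∀ d ∈ R G i1 i2, N (c * d * c⁻¹ * d⁻¹) := by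
    intro c hc d hd
    have powN : ∀ g ∈ R G I1 I2, ∃ n : ℕ, 1 ≤ n ∧ N (g ^ n) := by
      intro g hg
      obtain ⟨n, hn, h⟩ := step3 g (hIJ hg)
      exact ⟨n, hn, h⟩
    have two : ∀ g ∈ R G I1 I2, ∀ h ∈ R G I1 I2, ∃ n : ℕ, 1 ≤ n ∧ N (g ^ n) ∧ N (h ^ n) := by
      intro g hg h hh
      obtain ⟨n, hn, h1⟩ := powN g hg
      obtain ⟨m, hm, h2⟩ := powN h hh
      refine ⟨n * m, Nat.mul_pos hn hm, ?_, ?_⟩
      · rw [pow_mul]; exact Npow _ (pow_mem (hIJ hg) n) h1 m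
      · rw [mul_comm, pow_mul]; exact Npow _ (pow_mem (hIJ hh) m) h2 n
    have hcI := hI'I hc
    have hdI := hI'I hd
    obtain ⟨r, hr, r1, r2⟩ := two γ hγR (c * γ * c⁻¹) (mul_mem (mul_mem hcI hγR) (inv_mem hcI))
    obtain ⟨q, hq, q1, q2⟩ := two γ hγR (d * γ⁻¹ * d⁻¹)
      (mul_mem (mul_mem hdI (inv_mem hγR)) (inv_mem hdI))
    -- c_* = c γ^r c⁻¹ γ^{-r}
    have hγrR : γ ^ r ∈ R G I1 I2 := pow_mem hγR r
    have hγqR : γ ^ q ∈ R G I1 I2 := pow_mem hγR q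
    have ec : (c * γ * c⁻¹) ^ r = c * γ ^ r * c⁻¹ := by rw [conj_pow]
    have ed : (d * γ⁻¹ * d⁻¹) ^ q = d * (γ ^ q)⁻¹ * d⁻¹ := by rw [conj_pow, inv_pow]
    rw [ec] at r2
    rw [ed] at q2
    have nc : N (c * γ ^ r * c⁻¹ * (γ ^ r)⁻¹) :=
      Nmul _ _ (hIJ (mul_mem (mul_mem hcI hγrR) (inv_mem hcI))) (inv_mem (hIJ hγrR)) r2 (Ninv _ r1)
    have nd : N (d * (γ ^ q)⁻¹ * d⁻¹ * γ ^ q) :=
      Nmul _ _ (hIJ (mul_mem (mul_mem hdI (inv_mem hγqR)) (inv_mem hdI))) (hIJ hγqR) q2 q1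
    -- supports
    have hγi : ∀ n : ℕ, 1 ≤ n → i2 < γ ^ n • i1 := fun n hn => pow_push hF hi2.le hγ n hn
    have hγi' : ∀ n : ℕ, 1 ≤ n → (γ ^ n)⁻¹ • i2 < i1 := fun n hn => pow_pull hF hi2.le hγ n hn
    set c1 := γ ^ r * c⁻¹ * (γ ^ r)⁻¹ with hc1
    set d1 := (γ ^ q)⁻¹ * d⁻¹ * ((γ ^ q)⁻¹)⁻¹ with hd1
    have hc1R : c1 ∈ R G (γ ^ r • i1) (γ ^ r • i2) := conj_mem_R hF (inv_mem hc) _
    have hd1R : d1 ∈ R G ((γ ^ q)⁻¹ • i1) ((γ ^ q)⁻¹ • i2) := conj_mem_R hF (inv_mem hd) _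
    have k1 : d * c1 = c1 * d := comm_of_le hF (hγi r hr).le hd hc1R
    have k2 : d1 * c = c * d1 := comm_of_le hF (hγi' q hq).le hd1R hc
    have k3 : d1 * c1 = c1 * d1 :=
      comm_of_le hF (((hγi' q hq).trans (hi2.trans (hγi r hr))).le) hd1R hc1R
    have m1 : c * γ ^ r * c⁻¹ * (γ ^ r)⁻¹ = c * c1 := by rw [hc1]; group
    have m2 : d * (γ ^ q)⁻¹ * d⁻¹ * γ ^ q = d * d1 := by rw [hd1]; group
    rw [m1] at nc
    rw [m2] at nd
    have hcc1R : c * c1 ∈ R G J1 J2 := by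
      rw [← m1]
      exact hIJ (mul_mem (mul_mem (mul_mem hcI hγrR) (inv_mem hcI)) (inv_mem hγrR))
    have hdd1R : d * d1 ∈ R G J1 J2 := by
      rw [← m2]
      exact hIJ (mul_mem (mul_mem (mul_mem hdI (inv_mem hγqR)) (inv_mem hdI)) hγqR)
    have total : (c * c1) * (d * d1) * (c * c1)⁻¹ * (d * d1)⁻¹ = c * d * c⁻¹ * d⁻¹ := by
      calc (c * c1) * (d * d1) * (c * c1)⁻¹ * (d * d1)⁻¹
          = c * (c1 * d) * d1 * c1⁻¹ * c⁻¹ * d1⁻¹ * d⁻¹ := by group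
        _ = c * (d * c1) * d1 * c1⁻¹ * c⁻¹ * d1⁻¹ * d⁻¹ := by rw [k1]
        _ = c * d * (c1 * d1) * c1⁻¹ * c⁻¹ * d1⁻¹ * d⁻¹ := by group
        _ = c * d * (d1 * c1) * c1⁻¹ * c⁻¹ * d1⁻¹ * d⁻¹ := by rw [k3]
        _ = c * d * (d1 * c⁻¹) * d1⁻¹ * d⁻¹ := by group
        _ = c * d * (c⁻¹ * d1) * d1⁻¹ * d⁻¹ := by
            have : d1 * c⁻¹ = c⁻¹ * d1 := by
              rw [eq_inv_mul_iff_mul_eq, ← mul_assoc, ← k2, mul_assoc, mul_inv_cancel, mul_one]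
            rw [this]
        _ = _ := by group
    rw [← total]
    exact Nmul _ _ (mul_mem (mul_mem hcc1R hdd1R) (inv_mem hcc1R)) (inv_mem hdd1R)
      (Nmul _ _ (mul_mem hcc1R hdd1R) (inv_mem hcc1R) (Nmul _ _ hcc1R hdd1R nc nd) (Ninv _ nc))
      (Ninv _ nd)
  -- Step 6
  have step6 : ∀ c ∈ R G i1 i2, ∀ d ∈ R G i1 i2, ∀ e ∈ R G i1 i2, ∀ f ∈ R G i1 i2,
      (c * d * c⁻¹ * d⁻¹) * (e * f * e⁻¹ * f⁻¹) * (c * d * c⁻¹ * d⁻¹)⁻¹ *
        (e * f * e⁻¹ * f⁻¹)⁻¹ ∈ Δ := by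
    intro c hc d hd e he f hf
    apply step4
    · exact hI'I (mul_mem (mul_mem (mul_mem hc hd) (inv_mem hc)) (inv_mem hd))
    · exact hI'I (mul_mem (mul_mem (mul_mem he hf) (inv_mem he)) (inv_mem hf))
    · exact step5 c hc d hd
    · exact step5 e he f hf
  -- Step 7: transport
  have step7 : ∀ c d e f : G, ∀ u v : X, c ∈ R G u v → d ∈ R G u v → e ∈ R G u v → f ∈ R G u v →
      (c * d * c⁻¹ * d⁻¹) * (e * f * e⁻¹ * f⁻¹) * (c * d * c⁻¹ * d⁻¹)⁻¹ *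
        (e * f * e⁻¹ * f⁻¹)⁻¹ ∈ Δ := by
    intro c d e f u v hc hd he hf
    by_contra hnot
    obtain ⟨κ, -, hκ⟩ := contract_pow hF u v i1 i2 hi2
    obtain ⟨n, hn, hmem⟩ := hΔ.neg _ hnot κ
    apply hmem
    have tr : ∀ z ∈ R G u v, κ ^ n * z * (κ ^ n)⁻¹ ∈ R G i1 i2 := by
      intro z hz
      exact R_mono (hκ n hn).1.le (hκ n hn).2.le (conj_mem_R hF hz (κ ^ n))
    have := step6 _ (tr c hc) _ (tr d hd) _ (tr e he) _ (tr f hf)
    convert this using 1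
    group
  -- Step 8: displacement
  obtain ⟨s', hs'⟩ := exists_lt (min s t)
  obtain ⟨t', ht'⟩ := exists_gt (max s t)
  rcases lt_or_ge s t with hst | hst
  · obtain ⟨η, hηR, hη⟩ := hF.push s' s t t' (lt_of_lt_of_le hs' (min_le_left _ _)) hst
      (lt_of_le_of_lt (le_max_right _ _) ht')
    have ha' : a ∈ R G s' t' := R_mono (lt_of_lt_of_le hs' (min_le_left _ _)).le
      (lt_of_le_of_lt (le_max_right _ _) ht').le ha
    have hb' : b ∈ R G s' t' := R_mono (lt_of_lt_of_le hs' (min_le_left _ _)).le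
      (lt_of_le_of_lt (le_max_right _ _) ht').le hb
    have := step7 a η b η⁻¹ s' t' ha' hηR hb' (inv_mem hηR)
    set a1 := η * a⁻¹ * η⁻¹ with ha1
    set b1 := η⁻¹ * b⁻¹ * (η⁻¹)⁻¹ with hb1
    have ha1R : a1 ∈ R G (η • s) (η • t) := conj_mem_R hF (inv_mem ha) η
    have hb1R : b1 ∈ R G (η⁻¹ • s) (η⁻¹ • t) := conj_mem_R hF (inv_mem hb) η⁻¹
    have hη' : η⁻¹ • t < s := by
      have := pow_pull hF hst.le hη 1 le_rfl
      simpa using this
    have k1 : b * a1 = a1 * b := comm_of_le hF hη.le hb ha1R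
    have k2 : b1 * a = a * b1 := comm_of_le hF hη'.le hb1R ha
    have k3 : b1 * a1 = a1 * b1 := comm_of_le hF ((hη'.trans (hst.trans hη)).le) hb1R ha1R
    have m1 : a * η * a⁻¹ * η⁻¹ = a * a1 := by rw [ha1]; group
    have m2 : b * η⁻¹ * b⁻¹ * (η⁻¹)⁻¹ = b * b1 := by rw [hb1]; group
    rw [m1, m2] at this
    have total : (a * a1) * (b * b1) * (a * a1)⁻¹ * (b * b1)⁻¹ = a * b * a⁻¹ * b⁻¹ := by
      calc (a * a1) * (b * b1) * (a * a1)⁻¹ * (b * b1)⁻¹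
          = a * (a1 * b) * b1 * a1⁻¹ * a⁻¹ * b1⁻¹ * b⁻¹ := by group
        _ = a * (b * a1) * b1 * a1⁻¹ * a⁻¹ * b1⁻¹ * b⁻¹ := by rw [k1]
        _ = a * b * (a1 * b1) * a1⁻¹ * a⁻¹ * b1⁻¹ * b⁻¹ := by group
        _ = a * b * (b1 * a1) * a1⁻¹ * a⁻¹ * b1⁻¹ * b⁻¹ := by rw [k3]
        _ = a * b * (b1 * a⁻¹) * b1⁻¹ * b⁻¹ := by group
        _ = a * b * (a⁻¹ * b1) * b1⁻¹ * b⁻¹ := by
            have : b1 * a⁻¹ = a⁻¹ * b1 := by
              rw [eq_inv_mul_iff_mul_eq, ← mul_assoc, ← k2, mul_assoc, mul_inv_cancel, mul_one]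
            rw [this]
        _ = _ := by group
    rw [total] at this
    exact this
  · -- s ≥ t: then a = 1
    have ha1 : a = 1 := by
      apply hF.faithful
      intro x
      rcases le_or_gt x s with h | h
      · exact ha x (Or.inl h)
      · exact ha x (Or.inr (hst.trans h.le))
    rw [ha1]
    simp

end Pool.Agent.V1129.Boom
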