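import Mathlib

/-!
# The Chabauty topology on the set of subgroups, and boomerang subgroups
-/

open Topology

namespace Pool.Agent.V1129.Boom

variable (Γ : Type*) [Group Γ]

open Classical in
/-- The indicator function of a subgroup, an element of `{0,1}^Γ`. -/
noncomputable def indicator (H : Subgroup Γ) : Γ → Bool := fun g => decide (g ∈ H)

/-- The Chabauty topology on the set of all subgroups of `Γ`: the topology induced from the product
topology on `{0,1}^Γ`. -/
@[reducible] noncomputable def chabauty : TopologicalSpace (Subgroup Γ) :=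
  TopologicalSpace.induced (indicator Γ) Pi.topologicalSpace

variable {Γ}

/-- The conjugate `g H g⁻¹`. -/
def conjSubgroup (g : Γ) (H : Subgroup Γ) : Subgroup Γ := H.map (MulAut.conj g).toMonoidHom

/-- `Δ` is a boomerang subgroup: for all `γ` and all neighbourhoods `O` of `Δ` in the Chabauty
topology there is `n ≥ 1` with `γⁿ Δ γ⁻ⁿ ∈ O`. -/
def IsBoomerang (Δ : Subgroup Γ) : Prop :=
  ∀ γ : Γ, ∀ O : Set (Subgroup Γ), IsOpen[chabauty Γ] O → Δ ∈ O →
    ∃ n : ℕ, 1 ≤ n ∧ conjSubgroup (γ ^ n) Δ ∈ O

end Pool.Agent.V1129.Boom
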