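import Pool.Agent.TH54.BExt
import Pool.Agent.TH54.BU.Iter
import Pool.Agent.Y321.HM.Gen

set_option autoImplicit false

/-!
Free Burnside groups of infinite rank are topologizable; a locally compact hereditarily minimal
group with non-trivial centre which is not hereditarily totally minimal.
-/

namespace Pool.Agent.V1129.HTM

open Topology Filter Pool.Agent.TH54 Pool.Agent.TH54.BU

/-- the free Burnside group of countable rank -/
abbrev BB (p : ℕ) : Type := FreeGroup ℕ ⧸ powSub (FreeGroup ℕ) p

/-- endomorphisms of free groups preserve the power subgroup -/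
lemma powSub_le_comap (p : ℕ) {G H : Type} [Group G] [Group H] (f : G →* H) :
    powSub G p ≤ (powSub H p).comap f := by
  refine Subgroup.normalClosure_le_normal ?_
  rintro _ ⟨g, rfl⟩
  show f (g ^ p) ∈ powSub H p
  rw [map_pow]
  exact Subgroup.subset_normalClosure ⟨f g, rfl⟩

/-- the retraction of the free group killing the generators `i ≥ n` -/
noncomputable def ret (n : ℕ) : FreeGroup ℕ →* FreeGroup ℕ :=
  FreeGroup.lift fun i => if i < n then FreeGroup.of i else 1

/-- the retraction of the free Burnside group killing the generators `i ≥ n` -/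
noncomputable def rho (p n : ℕ) : BB p →* BB p :=
  QuotientGroup.map _ _ (ret n) (powSub_le_comap p (ret n))

lemma rho_mk (p n : ℕ) (w : FreeGroup ℕ) : rho p n (w : BB p) = ((ret n w : FreeGroup ℕ) : BB p) :=
  rfl

lemma ret_of (n i : ℕ) : ret n (FreeGroup.of i) = if i < n then FreeGroup.of i else 1 := by
  simp [ret]

lemma ret_eventually (w : FreeGroup ℕ) : ∃ N, ∀ n, N ≤ n → ret n w = w := by
  induction w using FreeGroup.induction_on with
  | C1 => exact ⟨0, fun n _ => map_one _⟩
  | of i =>
    refine ⟨i + 1, fun n hn => ?_⟩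
    rw [ret_of, if_pos (by omega)]
  | inv_of i h =>
    obtain ⟨N, hN⟩ := h
    exact ⟨N, fun n hn => by rw [map_inv, hN n hn]⟩
  | mul a b ha hb =>
    obtain ⟨N, hN⟩ := ha
    obtain ⟨N', hN'⟩ := hb
    refine ⟨max N N', fun n hn => ?_⟩
    rw [map_mul, hN n (le_trans (le_max_left _ _) hn), hN' n (le_trans (le_max_right _ _) hn)]

lemma rho_eventually (p : ℕ) (b : BB p) : ∃ N, ∀ n, N ≤ n → rho p n b = b := by
  obtain ⟨w, rfl⟩ := QuotientGroup.mk_surjective b
  obtain ⟨N, hN⟩ := ret_eventually w
  exact ⟨N, fun n hn => by rw [rho_mk, hN n hn]⟩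

/-- the generators are non-trivial -/
lemma gen_ne_one (p : ℕ) (hp : 1 < p) (i : ℕ) : ((FreeGroup.of i : FreeGroup ℕ) : BB p) ≠ 1 := by
  intro h
  rw [QuotientGroup.eq_one_iff] at h
  let f : FreeGroup ℕ →* Multiplicative (ZMod p) :=
    FreeGroup.lift fun _ => Multiplicative.ofAdd (1 : ZMod p)
  have h1 : powSub (FreeGroup ℕ) p ≤ f.ker := by
    refine Subgroup.normalClosure_le_normal ?_
    rintro _ ⟨g, rfl⟩
    show f (g ^ p) = 1
    rw [map_pow]
    apply Multiplicative.toAdd.injective
    rw [toAdd_pow, nsmul_eq_mul, CharP.cast_eq_zero, zero_mul]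
    rfl
  have h2 : f (FreeGroup.of i) = 1 := h1 h
  have h3 : f (FreeGroup.of i) = Multiplicative.ofAdd (1 : ZMod p) := by simp [f]
  rw [h3] at h2
  have h4 : (1 : ZMod p) = 0 := congrArg Multiplicative.toAdd h2
  have : Fact (1 < p) := ⟨hp⟩
  exact one_ne_zero h4

/-- the free Burnside group of countable rank has a non-discrete Hausdorff group topology -/
theorem burnside_topologizable (p : ℕ) (hp : 1 < p) :
    ∃ σ : TopologicalSpace (BB p), @IsTopologicalGroup (BB p) σ _ ∧ @T2Space (BB p) σ ∧ σ ≠ ⊥ := by
  let t0 : TopologicalSpace (BB p) := ⊥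
  have : DiscreteTopology (BB p) := ⟨rfl⟩
  let F : BB p →* (ℕ → BB p) := MonoidHom.pi (fun n => rho p n)
  have hF : ∀ b n, F b n = rho p n b := fun b n => rfl
  have hinj : Function.Injective F := by
    intro a b hab
    obtain ⟨N, hN⟩ := rho_eventually p a
    obtain ⟨N', hN'⟩ := rho_eventually p b
    have h1 := congrFun hab (max N N')
    rw [hF, hF, hN _ (le_max_left _ _), hN' _ (le_max_right _ _)] at h1
    exact h1
  have : IsTopologicalGroup (BB p) := inferInstance
  refine ⟨TopologicalSpace.induced F inferInstance, topologicalGroup_induced F, ?_, ?_⟩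
  · exact @T2Space.of_injective_continuous (BB p) (ℕ → BB p)
      (TopologicalSpace.induced F inferInstance) inferInstance inferInstance F hinj
      continuous_induced_dom
  · intro hbot
    -- the generators converge to 1
    have h1 : Tendsto (fun i : ℕ => ((FreeGroup.of i : FreeGroup ℕ) : BB p)) atTop
        (@nhds (BB p) (TopologicalSpace.induced F inferInstance) 1) := by
      rw [nhds_induced, tendsto_comap_iff, map_one, tendsto_pi_nhds]
      intro n
      refine tendsto_const_nhds.congr' ?_
      filter_upwards [eventually_ge_atTop n] with i hi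
      show (1 : BB p) = F ((FreeGroup.of i : FreeGroup ℕ) : BB p) n
      rw [hF, rho_mk, ret_of, if_neg (by omega)]
      rfl
    rw [hbot] at h1
    have h2 : ∀ᶠ i : ℕ in atTop, ((FreeGroup.of i : FreeGroup ℕ) : BB p) ∈ ({1} : Set (BB p)) :=
      h1 (by rw [nhds_discrete]; exact Filter.mem_pure.2 rfl)
    obtain ⟨i, hi⟩ := h2.exists
    exact gen_ne_one p hp i hi

end Pool.Agent.V1129.HTM
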