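import Mathlib

set_option autoImplicit false
set_option linter.unusedSectionVars false

/-!
The topological wreath-type group `(X → E) ⋊ Perm X`, for discrete `X` and `E`.
-/

namespace Pool.Agent.V1129.Irr

open Topology Filter

/-- elements `(v, g)` of `(X → E) ⋊ Perm X` -/
@[ext] structure Gam (X E : Type) where
  v : X → E
  g : Equiv.Perm X

variable {X E : Type} [AddCommGroup E]

instance : Mul (Gam X E) := ⟨fun a b => ⟨fun x => a.v x + b.v (a.g⁻¹ x), a.g * b.g⟩⟩
instance : One (Gam X E) := ⟨⟨0, 1⟩⟩
instance : Inv (Gam X E) := ⟨fun a => ⟨fun x => -a.v (a.g x), a.g⁻¹⟩⟩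

@[simp] lemma mul_v (a b : Gam X E) (x : X) : (a * b).v x = a.v x + b.v (a.g⁻¹ x) := rfl
@[simp] lemma mul_g (a b : Gam X E) : (a * b).g = a.g * b.g := rfl
@[simp] lemma one_v (x : X) : (1 : Gam X E).v x = 0 := rfl
@[simp] lemma one_g : (1 : Gam X E).g = 1 := rfl
@[simp] lemma inv_v (a : Gam X E) (x : X) : (a⁻¹).v x = -a.v (a.g x) := rfl
@[simp] lemma inv_g (a : Gam X E) : (a⁻¹).g = a.g⁻¹ := rfl

lemma gam_ext {a b : Gam X E} (h : ∀ x, a.v x = b.v x) (h' : ∀ x, a.g x = b.g x) : a = b :=
  Gam.ext (funext h) (Equiv.ext h')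

instance : Group (Gam X E) :=
  Group.ofLeftAxioms
    (fun a b c => gam_ext (fun x => by simp [mul_inv_rev, add_assoc]) (fun x => by simp))
    (fun a => gam_ext (fun x => by simp) (fun x => by simp))
    (fun a => gam_ext (fun x => by simp) (fun x => by simp))

/-- the projection to the permutations -/
def pr : Gam X E →* Equiv.Perm X where
  toFun := Gam.g
  map_one' := rfl
  map_mul' _ _ := rfl

@[simp] lemma pr_apply (a : Gam X E) : pr a = a.g := rfl

variable [TopologicalSpace X] [TopologicalSpace E]

instance : TopologicalSpace (Gam X E) :=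
  TopologicalSpace.induced
    (fun a : Gam X E => (a.v, (a.g : X → X), ((a.g⁻¹ : Equiv.Perm X) : X → X))) inferInstance

lemma ind : IsInducing (fun a : Gam X E => (a.v, (a.g : X → X), ((a.g⁻¹ : Equiv.Perm X) : X → X))) :=
  ⟨rfl⟩

lemma cont_v (x : X) : Continuous (fun a : Gam X E => a.v x) :=
  (continuous_apply x).comp (continuous_fst.comp ind.continuous)

lemma cont_g (x : X) : Continuous (fun a : Gam X E => a.g x) :=
  (continuous_apply x).comp (continuous_fst.comp (continuous_snd.comp ind.continuous))

lemma cont_ginv (x : X) : Continuous (fun a : Gam X E => a.g⁻¹ x) :=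
  (continuous_apply x).comp (continuous_snd.comp (continuous_snd.comp ind.continuous))

/-- composing pointwise continuous maps into discrete spaces -/
lemma cont_comp_discrete {Y Z : Type} [TopologicalSpace Y] [TopologicalSpace Z]
    [DiscreteTopology X] (F : Y → X → Z) (hF : ∀ x, Continuous fun y => F y x) (u : Y → X)
    (hu : Continuous u) : Continuous fun y => F y (u y) := by
  rw [continuous_iff_continuousAt]
  intro y₀
  have h1 : ∀ᶠ y in 𝓝 y₀, u y = u y₀ := by
    have h0 : Tendsto u (𝓝 y₀) (pure (u y₀)) := by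
      rw [← nhds_discrete]
      exact hu.continuousAt
    have h00 : {z | z = u y₀} ∈ (pure (u y₀) : Filter X) := Filter.mem_pure.2 rfl
    exact h0 h00
  have h2 : Tendsto (fun y => F y (u y₀)) (𝓝 y₀) (𝓝 (F y₀ (u y₀))) := (hF (u y₀)).continuousAt
  refine h2.congr' ?_
  filter_upwards [h1] with y hy
  rw [hy]

lemma cont_into {Y : Type} [TopologicalSpace Y] (f : Y → Gam X E)
    (h1 : ∀ x, Continuous fun y => (f y).v x) (h2 : ∀ x, Continuous fun y => (f y).g x)
    (h3 : ∀ x, Continuous fun y => (f y).g⁻¹ x) : Continuous f := by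
  rw [ind.continuous_iff]
  exact (continuous_pi h1).prodMk ((continuous_pi h2).prodMk (continuous_pi h3))

instance [DiscreteTopology X] [DiscreteTopology E] : IsTopologicalGroup (Gam X E) where
  continuous_mul := by
    refine cont_into _ ?_ ?_ ?_
    · intro x
      have h1 : Continuous fun p : Gam X E × Gam X E => p.1.v x := (cont_v x).comp continuous_fst
      have h2 : Continuous fun p : Gam X E × Gam X E => p.2.v (p.1.g⁻¹ x) :=
        cont_comp_discrete (fun (p : Gam X E × Gam X E) x => p.2.v x)
          (fun x => (cont_v x).comp continuous_snd) _ ((cont_ginv x).comp continuous_fst)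
      have h3 : Continuous fun q : E × E => q.1 + q.2 := continuous_of_discreteTopology
      exact h3.comp (h1.prodMk h2)
    · intro x
      exact cont_comp_discrete (fun (p : Gam X E × Gam X E) x => p.1.g x)
          (fun x => (cont_g x).comp continuous_fst) _ ((cont_g x).comp continuous_snd)
    · intro x
      have h1 : Continuous fun p : Gam X E × Gam X E => p.2.g⁻¹ (p.1.g⁻¹ x) :=
        cont_comp_discrete (fun (p : Gam X E × Gam X E) x => p.2.g⁻¹ x)
          (fun x => (cont_ginv x).comp continuous_snd) _ ((cont_ginv x).comp continuous_fst)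
      have h2 : ∀ p : Gam X E × Gam X E, (p.1 * p.2).g⁻¹ x = p.2.g⁻¹ (p.1.g⁻¹ x) := by
        intro p
        rw [mul_g, mul_inv_rev]
        rfl
      simp only [h2]
      exact h1
  continuous_inv := by
    refine cont_into _ ?_ ?_ ?_
    · intro x
      have h1 : Continuous fun p : Gam X E => p.v (p.g x) :=
        cont_comp_discrete (fun (p : Gam X E) x => p.v x) (fun x => cont_v x) _ (cont_g x)
      have h3 : Continuous fun q : E => -q := continuous_of_discreteTopology
      exact h3.comp h1
    · intro x
      exact cont_ginv x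
    · intro x
      simp only [inv_g, inv_inv]
      exact cont_g x

instance [DiscreteTopology X] [DiscreteTopology E] : T2Space (Gam X E) := by
  have hinj : Function.Injective
      (fun a : Gam X E => (a.v, (a.g : X → X), ((a.g⁻¹ : Equiv.Perm X) : X → X))) := by
    intro a b h
    simp only [Prod.mk.injEq] at h
    exact Gam.ext h.1 (Equiv.coe_fn_injective h.2.1)
  exact T2Space.of_injective_continuous hinj ind.continuous

/-- approximation on finite sets gives membership in closed sets -/
lemma mem_of_approx [DiscreteTopology X] [DiscreteTopology E] {S : Set (Gam X E)}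
    (hS : IsClosed S) (a : Gam X E)
    (h : ∀ T : Finset X, ∃ b ∈ S, (∀ x ∈ T, b.v x = a.v x) ∧ ∀ x ∈ T, b.g x = a.g x) : a ∈ S := by
  classical
  choose b hb h1 h2 using fun T : Finset X => h (T ∪ T.image (fun x => a.g⁻¹ x))
  have h3 : ∀ T : Finset X, ∀ x ∈ T, (b T).g⁻¹ x = a.g⁻¹ x := by
    intro T x hx
    have h4 := h2 T (a.g⁻¹ x) (Finset.mem_union_right _
      (Finset.mem_image_of_mem (fun x => a.g⁻¹ x) hx))
    rw [Equiv.Perm.inv_eq_iff_eq, h4]
    exact (Equiv.apply_symm_apply a.g x).symm
  have hev : ∀ x : X, ∀ᶠ T : Finset X in atTop, x ∈ T := fun x => by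
    filter_upwards [eventually_ge_atTop ({x} : Finset X)] with T hT
    exact hT (Finset.mem_singleton_self x)
  refine hS.mem_of_tendsto (f := b) (b := atTop) ?_ (Eventually.of_forall hb)
  rw [ind.tendsto_nhds_iff]
  refine Tendsto.prodMk_nhds ?_ (Tendsto.prodMk_nhds ?_ ?_)
  · rw [tendsto_pi_nhds]
    intro x
    refine tendsto_const_nhds.congr' ?_
    filter_upwards [hev x] with T hT
    exact (h1 T x (Finset.mem_union_left _ hT)).symm
  · rw [tendsto_pi_nhds]
    intro x
    refine tendsto_const_nhds.congr' ?_
    filter_upwards [hev x] with T hT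
    exact (h2 T x (Finset.mem_union_left _ hT)).symm
  · rw [tendsto_pi_nhds]
    intro x
    refine tendsto_const_nhds.congr' ?_
    filter_upwards [hev x] with T hT
    exact (h3 T x hT).symm

end Pool.Agent.V1129.Irr
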