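import Pool.Agent.V1129.Irr1

set_option autoImplicit false

/-!
A countable topological group with a faithful irreducible coset space and infinitely many minimal
closed normal subgroups.
-/

namespace Pool.Agent.V1129.Irr

open Topology Filter

/-- the free group of countable rank -/
abbrev Fr : Type := FreeGroup ℕ
/-- the base set -/
abbrev XX : Type := FreeGroup ℕ × ℕ
/-- the coefficients -/
abbrev EE : Type := ℕ →₀ ZMod 2

/-- left translation -/
def lam (f : Fr) : Equiv.Perm XX := (Equiv.mulLeft f).prodCongr (Equiv.refl ℕ)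

lemma lam_apply (f : Fr) (x : XX) : lam f x = (f * x.1, x.2) := rfl

/-- the sum of the coordinates -/
noncomputable def sig : EE →ₗ[ZMod 2] ZMod 2 :=
  Finsupp.linearCombination (ZMod 2) (fun _ : ℕ => (1 : ZMod 2))

@[simp] lemma sig_single (i : ℕ) (c : ZMod 2) : sig (Finsupp.single i c) = c := by
  simp [sig]

/-- a permutation with prescribed values on a finite set and prescribed behaviour at infinity -/
lemma exists_perm (X : Type) (l g : Equiv.Perm X) (T : Finset X) :
    ∃ s : Equiv.Perm X, (∀ x ∈ T, s x = g x) ∧ {x | s x ≠ l x}.Finite := by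
  classical
  induction T using Finset.induction_on with
  | empty => exact ⟨l, by simp, by simp⟩
  | insert a T ha ih =>
    obtain ⟨s, hs, hf⟩ := ih
    refine ⟨Equiv.swap (s a) (g a) * s, ?_, ?_⟩
    · intro x hx
      rcases Finset.mem_insert.1 hx with rfl | hx
      · simp
      · have hne : x ≠ a := fun h => ha (h ▸ hx)
        rw [Equiv.Perm.mul_apply, hs x hx]
        refine Equiv.swap_apply_of_ne_of_ne ?_ ?_
        · rw [← hs x hx]
          exact fun h => hne (s.injective h)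
        · exact fun h => hne (g.injective h)
    · refine (hf.union (Set.toFinite ({a, s.symm (g a)} : Set X))).subset ?_
      intro x hx
      by_contra hcon
      simp only [Set.mem_union, Set.mem_insert_iff, Set.mem_singleton_iff, not_or] at hcon
      obtain ⟨h1, h2, h3⟩ := hcon
      apply hx
      have h4 : s x = l x := by
        by_contra h
        exact h1 h
      rw [Equiv.Perm.mul_apply, ← h4]
      refine Equiv.swap_apply_of_ne_of_ne ?_ ?_
      · exact fun h => h2 (s.injective h)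
      · intro h
        exact h3 (by rw [← h]; simp)

/-- an enumeration of the finite data -/
noncomputable def phi : ℕ → Finset (XX × XX) × Finset (XX × EE) :=
  (exists_surjective_nat (Finset (XX × XX) × Finset (XX × EE))).choose

lemma phi_surj : Function.Surjective phi :=
  (exists_surjective_nat (Finset (XX × XX) × Finset (XX × EE))).choose_spec

lemma exists_gen (i : ℕ) : ∃ c : Gam XX EE, (∀ x, sig (c.v x) = 0) ∧
    {x | c.g x ≠ lam (FreeGroup.of i) x}.Finite ∧
    ((∃ a : Gam XX EE, (∀ x, sig (a.v x) = 0) ∧ (∀ p ∈ (phi i).1, a.g p.1 = p.2) ∧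
      ∀ q ∈ (phi i).2, a.v q.1 = q.2) →
      (∀ p ∈ (phi i).1, c.g p.1 = p.2) ∧ ∀ q ∈ (phi i).2, c.v q.1 = q.2) := by
  classical
  by_cases h : ∃ a : Gam XX EE, (∀ x, sig (a.v x) = 0) ∧ (∀ p ∈ (phi i).1, a.g p.1 = p.2) ∧
      ∀ q ∈ (phi i).2, a.v q.1 = q.2
  · obtain ⟨a, h1, h2, h3⟩ := h
    obtain ⟨s, hs, hf⟩ := exists_perm XX (lam (FreeGroup.of i)) a.g ((phi i).1.image Prod.fst)
    refine ⟨⟨a.v, s⟩, h1, hf, fun _ => ⟨fun p hp => ?_, h3⟩⟩
    show s p.1 = p.2
    rw [hs p.1 (Finset.mem_image_of_mem _ hp)]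
    exact h2 p hp
  · exact ⟨⟨0, lam (FreeGroup.of i)⟩, fun x => by simp, by simp, fun h' => absurd h' h⟩

/-- the generators -/
noncomputable def gen (i : ℕ) : Gam XX EE := (exists_gen i).choose

lemma gen_sig (i : ℕ) (x : XX) : sig ((gen i).v x) = 0 := (exists_gen i).choose_spec.1 x

lemma gen_fin (i : ℕ) : {x | (gen i).g x ≠ lam (FreeGroup.of i) x}.Finite :=
  (exists_gen i).choose_spec.2.1

lemma gen_approx (a : Gam XX EE) (ha : ∀ x, sig (a.v x) = 0) (T : Finset XX) :
    ∃ i, (∀ x ∈ T, (gen i).v x = a.v x) ∧ ∀ x ∈ T, (gen i).g x = a.g x := by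
  classical
  obtain ⟨i, hi⟩ := phi_surj (T.image (fun x => (x, a.g x)), T.image (fun x => (x, a.v x)))
  obtain ⟨h1, h2⟩ := (exists_gen i).choose_spec.2.2 ⟨a, ha, by
    rw [hi]
    intro p hp
    rw [Finset.mem_image] at hp
    obtain ⟨x, -, rfl⟩ := hp
    rfl, by
    rw [hi]
    intro p hp
    rw [Finset.mem_image] at hp
    obtain ⟨x, -, rfl⟩ := hp
    rfl⟩
  refine ⟨i, fun x hx => ?_, fun x hx => ?_⟩
  · exact h2 (x, a.v x) (by rw [hi]; exact Finset.mem_image_of_mem _ hx)
  · exact h1 (x, a.g x) (by rw [hi]; exact Finset.mem_image_of_mem _ hx)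

/-- the free group inside `Gam` -/
noncomputable def psi : Fr →* Gam XX EE := FreeGroup.lift gen

lemma psi_of (i : ℕ) : psi (FreeGroup.of i) = gen i := by simp [psi]

lemma psi_sig (f : Fr) : ∀ x, sig ((psi f).v x) = 0 := by
  induction f using FreeGroup.induction_on with
  | C1 => intro x; simp
  | of i => intro x; rw [psi_of]; exact gen_sig i x
  | inv_of i h => intro x; rw [map_inv, inv_v, map_neg, h, neg_zero]
  | mul f f' h h' => intro x; rw [map_mul, mul_v, map_add, h, h', add_zero]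

lemma psi_fin (f : Fr) : {x | (psi f).g x ≠ lam f x}.Finite := by
  induction f using FreeGroup.induction_on with
  | C1 => simp [lam_apply]
  | of i => rw [psi_of]; exact gen_fin i
  | inv_of i h =>
    refine (h.image (lam (FreeGroup.of i))).subset ?_
    intro x hx
    refine ⟨(lam (FreeGroup.of i))⁻¹ x, ?_, by simp⟩
    intro h1
    apply hx
    have h2 : (lam (FreeGroup.of i))⁻¹ x = lam (FreeGroup.of i)⁻¹ x := by
      rw [Equiv.Perm.inv_eq_iff_eq, lam_apply, lam_apply]
      simp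
    rw [map_inv, inv_g, Equiv.Perm.inv_eq_iff_eq, ← h2, h1]
    simp
  | mul f f' h h' =>
    refine (h'.union (h.preimage ((lam f').injective.injOn))).subset ?_
    intro x hx
    by_contra hcon
    simp only [Set.mem_union, Set.mem_preimage, Set.mem_ofPred_eq, not_or, not_not] at hcon
    apply hx
    rw [map_mul, mul_g, Equiv.Perm.mul_apply, hcon.1, hcon.2, lam_apply, lam_apply, lam_apply,
      mul_assoc]

/-- the basic functions -/
noncomputable def W (i : ℕ) (f : Fr) : XX → EE := fun x =>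
  if ((psi f).g⁻¹ x).1 = 1 ∧ (Nat.unpair ((psi f).g⁻¹ x).2).1 = i then Finsupp.single i 1 else 0

lemma W_shift (i : ℕ) (f f' : Fr) (x : XX) : W i f ((psi f').g⁻¹ x) = W i (f' * f) x := by
  have h : (psi (f' * f)).g⁻¹ x = (psi f).g⁻¹ ((psi f').g⁻¹ x) := by
    rw [map_mul, mul_g, mul_inv_rev]; rfl
  unfold W
  rw [h]

/-- the linear combinations of the basic functions -/
noncomputable def TT : ((ℕ × Fr) →₀ ZMod 2) →ₗ[ZMod 2] (XX → EE) :=
  Finsupp.linearCombination (ZMod 2) (fun p : ℕ × Fr => W p.1 p.2)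

lemma TT_single (p : ℕ × Fr) (c : ZMod 2) : TT (Finsupp.single p c) = c • W p.1 p.2 := by
  simp [TT]

lemma TT_shift (f' : Fr) (a : (ℕ × Fr) →₀ ZMod 2) :
    ∃ a', ∀ x, TT a ((psi f').g⁻¹ x) = TT a' x := by
  induction a using Finsupp.induction_linear with
  | zero => exact ⟨0, fun x => by simp⟩
  | add a b ha hb =>
    obtain ⟨a', ha'⟩ := ha
    obtain ⟨b', hb'⟩ := hb
    refine ⟨a' + b', fun x => ?_⟩
    rw [map_add, map_add, Pi.add_apply, Pi.add_apply, ha', hb']
  | single p c =>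
    refine ⟨Finsupp.single (p.1, f' * p.2) c, fun x => ?_⟩
    rw [TT_single, TT_single, Pi.smul_apply, Pi.smul_apply, W_shift]

lemma TT_asymp (i : ℕ) (f : Fr) (a : (ℕ × Fr) →₀ ZMod 2) :
    {n | (Nat.unpair n).1 = i ∧ TT a (f, n) ≠ Finsupp.single i (a (i, f))}.Finite := by
  classical
  induction a using Finsupp.induction_linear with
  | zero => simp
  | add a b ha hb =>
    refine (ha.union hb).subset ?_
    rintro n ⟨h1, h2⟩
    by_contra hcon
    simp only [Set.mem_union, Set.mem_ofPred_eq, not_or, not_and, not_not] at hcon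
    apply h2
    rw [map_add, Pi.add_apply, hcon.1 h1, hcon.2 h1, Finsupp.add_apply, Finsupp.single_add]
  | single p c =>
    obtain ⟨j, f'⟩ := p
    have hinj : Function.Injective (fun n : ℕ => (psi f').g⁻¹ ((f, n) : XX)) := by
      intro n m h
      have := ((psi f').g⁻¹).injective h
      exact (Prod.mk.inj this).2
    refine ((psi_fin f').preimage hinj.injOn).subset ?_
    rintro n ⟨h1, h2⟩ h3
    apply h2
    have h4 : (psi f').g⁻¹ ((f, n) : XX) = (f'⁻¹ * f, n) := by
      have h5 : (psi f').g ((psi f').g⁻¹ ((f, n) : XX)) = (f, n) := by simp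
      rw [h3] at h5
      have h6 : lam f' (f'⁻¹ * f, n) = (f, n) := by
        rw [lam_apply]; simp
      exact (lam f').injective (h5.trans h6.symm)
    rw [TT_single, Pi.smul_apply]
    unfold W
    simp only [h4]
    by_cases h7 : f = f' ∧ j = i
    · obtain ⟨rfl, rfl⟩ := h7
      simp [h1]
    · have h8 : ¬ (f'⁻¹ * f = 1 ∧ (Nat.unpair n).1 = j) := by
        rintro ⟨h8, h9⟩
        exact h7 ⟨(inv_mul_eq_one.1 h8).symm, by rw [← h9, h1]⟩
      rw [if_neg h8, Finsupp.single_apply, if_neg, Finsupp.single_zero, smul_zero]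
      intro h9
      exact h7 ⟨(Prod.mk.inj h9).2.symm, (Prod.mk.inj h9).1⟩

lemma exists_n (i : ℕ) (f : Fr) (a : (ℕ × Fr) →₀ ZMod 2) :
    ∃ n, TT a (f, n) = Finsupp.single i (a (i, f)) := by
  have hinf : {n : ℕ | (Nat.unpair n).1 = i}.Infinite := by
    refine Set.infinite_of_injective_forall_mem (f := fun m => Nat.pair i m) ?_ ?_
    · intro m m' h
      exact (Nat.pair_eq_pair.1 h).2
    · intro m
      simp
  obtain ⟨n, hn, hn2⟩ := hinf.exists_notMem_finite (TT_asymp i f a)
  refine ⟨n, ?_⟩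
  by_contra h
  exact hn2 ⟨hn, h⟩

lemma TT_const (a : (ℕ × Fr) →₀ ZMod 2) (κ : ZMod 2) (h : ∀ x, sig (TT a x) = κ) : a = 0 := by
  have h1 : ∀ p, a p = κ := by
    rintro ⟨i, f⟩
    obtain ⟨n, hn⟩ := exists_n i f a
    have := h (f, n)
    rw [hn, sig_single] at this
    exact this
  have h2 : κ = 0 := by
    obtain ⟨p, hp⟩ := Infinite.exists_notMem_finset a.support
    rw [← h1 p]
    exact Finsupp.notMem_support_iff.1 hp
  ext p
  rw [h1 p, h2]
  rfl

lemma TT_nonconst (a : (ℕ × Fr) →₀ ZMod 2) (ha : a ≠ 0) : ∃ x y, sig (TT a x) ≠ sig (TT a y) := by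
  by_contra hcon
  push Not at hcon
  exact ha (TT_const a (sig (TT a (1, 0))) fun x => hcon x _)

lemma psi_g_one (f : Fr) (h : (psi f).g = 1) : f = 1 := by
  have h1 := psi_fin f
  obtain ⟨x, hx⟩ := h1.infinite_compl.nonempty
  simp only [Set.mem_compl_iff, Set.mem_ofPred_eq, not_not] at hx
  rw [h, lam_apply] at hx
  have h2 : x.1 = f * x.1 := congrArg Prod.fst hx
  exact (mul_eq_right.1 h2.symm)

/-- the group -/
noncomputable def GG : Subgroup (Gam XX EE) where
  carrier := {γ | ∃ f a, γ.g = (psi f).g ∧ ∀ x, γ.v x = TT a x + (psi f).v x}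
  one_mem' := ⟨1, 0, by simp, fun x => by simp⟩
  mul_mem' := by
    rintro γ γ' ⟨f, a, h1, h2⟩ ⟨f', a', h1', h2'⟩
    obtain ⟨b, hb⟩ := TT_shift f a'
    refine ⟨f * f', a + b, ?_, fun x => ?_⟩
    · rw [mul_g, h1, h1', map_mul, mul_g]
    · rw [mul_v, h2, h2', h1, hb, map_mul, mul_v, map_add, Pi.add_apply]
      abel
  inv_mem' := by
    rintro γ ⟨f, a, h1, h2⟩
    obtain ⟨b, hb⟩ := TT_shift f⁻¹ a
    refine ⟨f⁻¹, -b, ?_, fun x => ?_⟩
    · rw [inv_g, h1, map_inv, inv_g]
    · rw [inv_v, h2, h1, map_inv, inv_v, map_neg, Pi.neg_apply, ← hb]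
      rw [map_inv, inv_g, inv_inv]
      abel

lemma psi_mem (f : Fr) : psi f ∈ GG := ⟨f, 0, rfl, fun x => by simp⟩

lemma TT_mem (a : (ℕ × Fr) →₀ ZMod 2) : (⟨TT a, 1⟩ : Gam XX EE) ∈ GG :=
  ⟨1, a, by simp, fun x => by simp⟩

lemma mem_GG_one {γ : Gam XX EE} (h : γ ∈ GG) (h1 : γ.g = 1) : ∃ a, γ.v = TT a := by
  obtain ⟨f, a, h2, h3⟩ := h
  have h4 : f = 1 := psi_g_one f (by rw [← h2, h1])
  subst h4
  refine ⟨a, funext fun x => ?_⟩
  rw [h3]
  simp

lemma mem_GG_sig {γ : Gam XX EE} (h : γ ∈ GG) (h1 : ∀ x, sig (γ.v x) = 0) : ∃ f, γ = psi f := by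
  obtain ⟨f, a, h2, h3⟩ := h
  have h4 : a = 0 := by
    refine TT_const a 0 fun x => ?_
    have h5 := h1 x
    rw [h3, map_add, psi_sig, add_zero] at h5
    exact h5
  subst h4
  refine ⟨f, gam_ext (fun x => ?_) (fun x => by rw [h2])⟩
  rw [h3]
  simp

end Pool.Agent.V1129.Irr
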