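import Mathlib

set_option autoImplicit false

/-!
Definitions: faithful irreducible coset spaces, minimal closed normal subgroups.
-/

namespace Pool.Agent.V1129.Irr

/-- `G/H` is a faithful irreducible coset space: `H` is closed, `H ≠ G`, the only closed subgroups
`K` with `H ≤ K ≤ G` are `H` and `G`, and the intersection of all conjugates of `H` is trivial. -/
def FaithfulIrreducible (G : Type) [Group G] [TopologicalSpace G] (H : Subgroup G) : Prop :=
  IsClosed (H : Set G) ∧ H ≠ ⊤ ∧
    (∀ K : Subgroup G, IsClosed (K : Set G) → H ≤ K → K = H ∨ K = ⊤) ∧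
    H.normalCore = ⊥

/-- `M` is minimal among the non-trivial closed normal subgroups of `G` -/
def MinimalClosedNormal (G : Type) [Group G] [TopologicalSpace G] (M : Subgroup G) : Prop :=
  M.Normal ∧ IsClosed (M : Set G) ∧ M ≠ ⊥ ∧
    ∀ N : Subgroup G, N.Normal → IsClosed (N : Set G) → N ≤ M → N = ⊥ ∨ N = M

end Pool.Agent.V1129.Irr
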