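import Pool.Agent.V1129.Irr2
import Pool.Agent.V1129.IrrDefs

set_option autoImplicit false

/-!
The main example: closures, irreducibility, minimality.
-/

namespace Pool.Agent.V1129.Irr

open Topology Filter

instance : TopologicalSpace XX := ⊥
instance : DiscreteTopology XX := ⟨rfl⟩
instance : TopologicalSpace EE := ⊥
instance : DiscreteTopology EE := ⟨rfl⟩

/-! ### spreading a function -/

section spread

variable (Q : Subgroup (Gam XX EE)) (hQ : IsClosed (Q : Set (Gam XX EE)))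
  (hinv : ∀ (g : Equiv.Perm XX), ∀ b ∈ Q, (⟨0, g⟩ : Gam XX EE) * b * (⟨0, g⟩ : Gam XX EE)⁻¹ ∈ Q)

include hinv in
lemma shift_mem (u : XX → EE) (hu : (⟨u, 1⟩ : Gam XX EE) ∈ Q) (g : Equiv.Perm XX) :
    (⟨fun x => u (g⁻¹ x), 1⟩ : Gam XX EE) ∈ Q := by
  have h := hinv g _ hu
  convert h using 1
  refine gam_ext (fun x => ?_) (fun x => ?_)
  · simp
  · simp

lemma exists_two {X : Type} {x y x' y' : X} (h : x ≠ y) (h' : x' ≠ y') :
    ∃ g : Equiv.Perm X, g x = x' ∧ g y = y' := by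
  classical
  let s := Equiv.swap x x'
  have h1 : s x = x' := Equiv.swap_apply_left _ _
  have h2 : s y ≠ x' := by
    rw [← h1]
    exact fun h3 => h (s.injective h3).symm
  refine ⟨Equiv.swap (s y) y' * s, ?_, ?_⟩
  · rw [Equiv.Perm.mul_apply, h1]
    exact Equiv.swap_apply_of_ne_of_ne h2.symm h'
  · rw [Equiv.Perm.mul_apply]
    exact Equiv.swap_apply_left _ _

include hQ hinv in
lemma spread (v : XX → EE) (hv : (⟨v, 1⟩ : Gam XX EE) ∈ Q) (x y : XX) (e : EE)
    (he : e ≠ 0) (hxy : v x - v y = e) (u : XX → EE) (hu : ∀ z, u z = 0 ∨ u z = e) :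
    (⟨u, 1⟩ : Gam XX EE) ∈ Q := by
  classical
  have hmul : ∀ a b : XX → EE, (⟨a, 1⟩ : Gam XX EE) ∈ Q → (⟨b, 1⟩ : Gam XX EE) ∈ Q →
      (⟨fun z => a z + b z, 1⟩ : Gam XX EE) ∈ Q := by
    intro a b ha hb
    have := Q.mul_mem ha hb
    convert this using 1
    exact gam_ext (fun z => by simp) (fun z => by simp)
  have hinv' : ∀ a : XX → EE, (⟨a, 1⟩ : Gam XX EE) ∈ Q → (⟨fun z => -a z, 1⟩ : Gam XX EE) ∈ Q := by
    intro a ha
    have := Q.inv_mem ha
    convert this using 1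
    exact gam_ext (fun z => by simp) (fun z => by simp)
  have hne : x ≠ y := by
    rintro rfl
    exact he (by rw [← hxy, sub_self])
  -- the difference function
  have h1 : (⟨fun z => v ((Equiv.swap x y)⁻¹ z) + -v z, 1⟩ : Gam XX EE) ∈ Q :=
    hmul _ _ (shift_mem Q hinv v hv (Equiv.swap x y)) (hinv' v hv)
  have h2 : ∀ x' y' : XX, x' ≠ y' →
      (⟨fun z => if z = y' then e else if z = x' then -e else 0, 1⟩ : Gam XX EE) ∈ Q := by
    intro x' y' h'
    obtain ⟨g, hg1, hg2⟩ := exists_two hne h'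
    have h3 := shift_mem Q hinv _ h1 g
    convert h3 using 1
    refine gam_ext (fun z => ?_) (fun z => rfl)
    simp only [Equiv.swap_inv]
    by_cases hz1 : z = y'
    · have h4 : g⁻¹ z = y := by
        rw [Equiv.Perm.inv_eq_iff_eq, hg2, hz1]
      rw [if_pos hz1, h4, Equiv.swap_apply_right, ← hxy, sub_eq_add_neg]
    · rw [if_neg hz1]
      by_cases hz2 : z = x'
      · have h4 : g⁻¹ z = x := by
          rw [Equiv.Perm.inv_eq_iff_eq, hg1, hz2]
        rw [if_pos hz2, h4, Equiv.swap_apply_left, ← hxy]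
        abel
      · have h4 : g⁻¹ z ≠ x := by
          intro h; rw [Equiv.Perm.inv_eq_iff_eq, hg1] at h; exact hz2 h
        have h5 : g⁻¹ z ≠ y := by
          intro h; rw [Equiv.Perm.inv_eq_iff_eq, hg2] at h; exact hz1 h
        rw [if_neg hz2, Equiv.swap_apply_of_ne_of_ne h4 h5, add_neg_cancel]
  -- point functions
  have h3 : ∀ y' : XX, (⟨fun z => if z = y' then e else 0, 1⟩ : Gam XX EE) ∈ Q := by
    intro y'
    refine mem_of_approx hQ _ fun T => ?_
    obtain ⟨x', hx'⟩ := Infinite.exists_notMem_finset (insert y' T)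
    rw [Finset.mem_insert, not_or] at hx'
    refine ⟨_, h2 x' y' hx'.1, fun z hz => ?_, fun z _ => rfl⟩
    have hzx : z ≠ x' := by
      rintro rfl
      exact hx'.2 hz
    simp only [if_neg hzx]
  -- finite sums
  have h4 : ∀ S : Finset XX, (⟨fun z => if z ∈ S then e else 0, 1⟩ : Gam XX EE) ∈ Q := by
    intro S
    induction S using Finset.induction_on with
    | empty =>
      have : (⟨fun z => if z ∈ (∅ : Finset XX) then e else 0, 1⟩ : Gam XX EE) = 1 :=
        gam_ext (fun z => by simp) (fun z => rfl)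
      rw [this]
      exact Q.one_mem
    | insert a S ha ih =>
      have := hmul _ _ (h3 a) ih
      convert this using 1
      refine gam_ext (fun z => ?_) (fun z => rfl)
      simp only [Finset.mem_insert]
      by_cases hz : z = a
      · subst hz
        simp [ha]
      · simp [hz]
  refine mem_of_approx hQ _ fun T => ⟨_, h4 (T.filter fun z => u z = e), fun z hz => ?_,
    fun z _ => rfl⟩
  simp only [Finset.mem_filter]
  rcases hu z with h | h
  · rw [h, if_neg]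
    rintro ⟨-, h5⟩
    exact he h5.symm
  · rw [h, if_pos ⟨hz, rfl⟩]

end spread

/-- a closed set containing the free group contains the whole `σ = 0` part -/
lemma sig_zero_mem {S : Set (Gam XX EE)} (hS : IsClosed S) (h : ∀ f, psi f ∈ S)
    (a : Gam XX EE) (ha : ∀ x, sig (a.v x) = 0) : a ∈ S := by
  refine mem_of_approx hS a fun T => ?_
  obtain ⟨i, h1, h2⟩ := gen_approx a ha T
  exact ⟨gen i, by rw [← psi_of]; exact h _, h1, h2⟩

/-- the point stabiliser -/
noncomputable def HH : Subgroup GG := psi.range.subgroupOf GG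

/-- the minimal normal subgroups inside the big group -/
def MB (i : ℕ) : Subgroup (Gam XX EE) where
  carrier := {γ | γ.g = 1 ∧ ∀ x, ∃ c : ZMod 2, γ.v x = Finsupp.single i c}
  one_mem' := ⟨rfl, fun x => ⟨0, by simp⟩⟩
  mul_mem' := by
    rintro γ γ' ⟨h1, h2⟩ ⟨h1', h2'⟩
    refine ⟨by rw [mul_g, h1, h1', one_mul], fun x => ?_⟩
    obtain ⟨c, hc⟩ := h2 x
    obtain ⟨c', hc'⟩ := h2' (γ.g⁻¹ x)
    exact ⟨c + c', by rw [mul_v, hc, hc', Finsupp.single_add]⟩
  inv_mem' := by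
    rintro γ ⟨h1, h2⟩
    refine ⟨by rw [inv_g, h1, inv_one], fun x => ?_⟩
    obtain ⟨c, hc⟩ := h2 (γ.g x)
    exact ⟨-c, by rw [inv_v, hc, Finsupp.single_neg]⟩

lemma mem_MB (i : ℕ) (γ : Gam XX EE) :
    γ ∈ MB i ↔ γ.g = 1 ∧ ∀ x, ∃ c : ZMod 2, γ.v x = Finsupp.single i c := Iff.rfl

/-- the minimal normal subgroups -/
noncomputable def MM (i : ℕ) : Subgroup GG := (MB i).subgroupOf GG

lemma mem_MM (i : ℕ) (γ : GG) : γ ∈ MM i ↔ γ.1 ∈ MB i := Iff.rfl

lemma HH_closed : IsClosed (HH : Set GG) := by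
  have h1 : (HH : Set GG) = ⋂ x : XX, {γ : GG | sig (γ.1.v x) = 0} := by
    ext γ
    rw [Set.mem_iInter]
    constructor
    · rintro ⟨f, hf⟩ x
      show sig (γ.1.v x) = 0
      have : psi f = γ.1 := hf
      rw [← this]
      exact psi_sig f x
    · intro h
      obtain ⟨f, hf⟩ := mem_GG_sig γ.2 h
      exact ⟨f, hf.symm⟩
  rw [h1]
  refine isClosed_iInter fun x => ?_
  have h2 : Continuous (fun γ : GG => γ.1.v x) := (cont_v x).comp continuous_subtype_val
  exact (isClosed_discrete {e : EE | sig e = 0}).preimage h2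

/-- closed subgroups of `GG` are traces of their closures -/
lemma trace_closed (K : Subgroup GG) (hK : IsClosed (K : Set GG)) (γ : GG)
    (h : γ.1 ∈ (K.map GG.subtype).topologicalClosure) : γ ∈ K := by
  have h1 : closure (K : Set GG) = K := hK.closure_eq
  have h2 := IsInducing.closure_eq_preimage_closure_image (X := GG) (Y := Gam XX EE)
    (f := Subtype.val) IsInducing.subtypeVal (K : Set GG)
  have h3 : γ ∈ closure (K : Set GG) := by
    rw [h2]
    exact h
  rw [h1] at h3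
  exact h3

lemma le_closure (K : Subgroup GG) (γ : GG) (h : γ ∈ K) :
    γ.1 ∈ (K.map GG.subtype).topologicalClosure :=
  Subgroup.le_topologicalClosure _ ⟨γ, h, rfl⟩

lemma HH_core : HH.normalCore = ⊥ := by
  rw [eq_bot_iff]
  intro γ hγ
  rw [Subgroup.mem_bot]
  have h1 : ∀ b : GG, b * γ * b⁻¹ ∈ HH := hγ
  obtain ⟨f, hf⟩ : ∃ f, psi f = γ.1 := by
    have := h1 1
    rw [one_mul, inv_one, mul_one] at this
    exact this
  -- conjugate by a basic function
  obtain ⟨f', hf'⟩ : ∃ f', psi f' = (⟨TT (Finsupp.single (0, 1) 1), 1⟩ : Gam XX EE) * γ.1 *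
      (⟨TT (Finsupp.single (0, 1) 1), 1⟩ : Gam XX EE)⁻¹ :=
    h1 ⟨_, TT_mem (Finsupp.single (0, 1) 1)⟩
  have h2 : ∀ x, sig (TT (Finsupp.single (0, 1) 1 - Finsupp.single (0, f) 1) x) = 0 := by
    intro x
    have h3 := psi_sig f' x
    have h4 := psi_sig f x
    rw [hf'] at h3
    rw [hf] at h4
    simp only [mul_v, inv_v, map_add, mul_g] at h3
    rw [map_neg] at h3
    simp only [inv_one, Equiv.Perm.coe_one, id_eq, one_mul] at h3
    rw [h4, add_zero, ← hf] at h3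
    rw [map_sub, Pi.sub_apply, map_sub, TT_single, TT_single, Pi.smul_apply, Pi.smul_apply,
      one_smul, one_smul]
    rw [TT_single, Pi.smul_apply, Pi.smul_apply, one_smul, one_smul, W_shift, mul_one] at h3
    rw [sub_eq_add_neg]
    exact h3
  have h5 := TT_const _ 0 h2
  have h6 : f = 1 := by
    by_contra hne
    have h7 := DFunLike.congr_fun h5 ((0 : ℕ), (1 : Fr))
    rw [Finsupp.sub_apply, Finsupp.single_eq_same, Finsupp.single_apply, if_neg] at h7
    · simp at h7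
    · intro h8
      exact hne (Prod.mk.inj h8).2
  apply Subtype.ext
  rw [← hf, h6, map_one]
  rfl

/-- non-trivial elements of `V₀` are non-constant -/
lemma nonconst_of {γ : Gam XX EE} (h : γ ∈ GG) (h1 : γ.g = 1) (h2 : γ ≠ 1) :
    ∃ x y, sig (γ.v x) ≠ sig (γ.v y) := by
  obtain ⟨a, ha⟩ := mem_GG_one h h1
  have ha0 : a ≠ 0 := by
    rintro rfl
    apply h2
    refine gam_ext (fun x => ?_) (fun x => ?_)
    · rw [ha]; simp
    · rw [h1]; rfl
  obtain ⟨x, y, hxy⟩ := TT_nonconst a ha0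
  exact ⟨x, y, by rw [ha]; exact hxy⟩

lemma GG_irred (K : Subgroup GG) (hK : IsClosed (K : Set GG)) (hHK : HH ≤ K) :
    K = HH ∨ K = ⊤ := by
  by_cases hcase : K ≤ HH
  · exact Or.inl (le_antisymm hcase hHK)
  right
  obtain ⟨k, hk, hkH⟩ := SetLike.not_le_iff_exists.1 hcase
  obtain ⟨f, a, h1, h2⟩ := k.2
  let K' : Subgroup (Gam XX EE) := (K.map GG.subtype).topologicalClosure
  have hK' : IsClosed (K' : Set (Gam XX EE)) := Subgroup.isClosed_topologicalClosure _
  have hpsi : ∀ f, psi f ∈ K' := fun f =>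
    le_closure K ⟨psi f, psi_mem f⟩ (hHK ⟨f, rfl⟩)
  have hsig : ∀ b : Gam XX EE, (∀ x, sig (b.v x) = 0) → b ∈ K' :=
    fun b hb => sig_zero_mem hK' hpsi b hb
  -- the element of V₀
  have hv : k.1 * (psi f)⁻¹ ∈ K' := K'.mul_mem (le_closure K k hk) (K'.inv_mem (hpsi f))
  have hg1 : (k.1 * (psi f)⁻¹).g = 1 := by rw [mul_g, inv_g, h1, mul_inv_cancel]
  have hne1 : k.1 * (psi f)⁻¹ ≠ 1 := by
    intro h
    rw [mul_inv_eq_one] at h
    exact hkH ⟨f, h.symm⟩
  obtain ⟨x, y, hxy⟩ := nonconst_of (GG.mul_mem k.2 (GG.inv_mem (psi_mem f))) hg1 hne1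
  set γ := k.1 * (psi f)⁻¹ with hγ
  have hγ' : (⟨γ.v, 1⟩ : Gam XX EE) ∈ K' := by
    have : (⟨γ.v, 1⟩ : Gam XX EE) = γ := gam_ext (fun x => rfl) (fun x => by rw [hg1])
    rw [this]
    exact hv
  have hinv : ∀ (g : Equiv.Perm XX), ∀ b ∈ K',
      (⟨0, g⟩ : Gam XX EE) * b * (⟨0, g⟩ : Gam XX EE)⁻¹ ∈ K' := by
    intro g b hb
    have h3 : (⟨0, g⟩ : Gam XX EE) ∈ K' := hsig _ fun x => by simp
    exact K'.mul_mem (K'.mul_mem h3 hb) (K'.inv_mem h3)
  have hsige : sig (γ.v x - γ.v y) = 1 := by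
    rw [map_sub]
    have h3 : ∀ a b : ZMod 2, a ≠ b → a - b = 1 := by decide
    exact h3 _ _ hxy
  have he : γ.v x - γ.v y ≠ 0 := by
    intro h
    rw [h, map_zero] at hsige
    exact zero_ne_one hsige
  have hall : ∀ b : Gam XX EE, b ∈ K' := by
    intro b
    have h3 := spread K' hK' hinv γ.v hγ' x y _ he rfl
      (fun z => if sig (b.v z) = 1 then γ.v x - γ.v y else 0)
      (fun z => by by_cases h : sig (b.v z) = 1 <;> simp [h])
    have h4 : (⟨fun z => b.v z - (if sig (b.v z) = 1 then γ.v x - γ.v y else 0), b.g⟩ :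
        Gam XX EE) ∈ K' := by
      refine hsig _ fun z => ?_
      show sig (b.v z - (if sig (b.v z) = 1 then γ.v x - γ.v y else 0)) = 0
      rw [map_sub]
      by_cases h : sig (b.v z) = 1
      · rw [if_pos h, h, hsige, sub_self]
      · rw [if_neg h, map_zero, sub_zero]
        have h5 : ∀ a : ZMod 2, a ≠ 1 → a = 0 := by decide
        exact h5 _ h
    have h5 := K'.mul_mem h3 h4
    convert h5 using 1
    refine gam_ext (fun z => ?_) (fun z => ?_)
    · simp
    · simp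
  rw [eq_top_iff]
  intro γ' _
  exact trace_closed K hK γ' (hall _)

lemma MM_normal (i : ℕ) : (MM i).Normal := by
  constructor
  rintro γ hγ b
  rw [mem_MM, mem_MB] at hγ ⊢
  obtain ⟨h1, h2⟩ := hγ
  refine ⟨?_, fun x => ?_⟩
  · show (b.1 * γ.1 * (b.1)⁻¹).g = 1
    rw [mul_g, mul_g, inv_g, h1, mul_one, mul_inv_cancel]
  · show ∃ c : ZMod 2, (b.1 * γ.1 * (b.1)⁻¹).v x = Finsupp.single i c
    obtain ⟨c, hc⟩ := h2 (b.1.g⁻¹ x)
    refine ⟨c, ?_⟩
    rw [mul_v, mul_v, inv_v, hc, mul_g, h1, mul_one]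
    simp

lemma MM_closed (i : ℕ) : IsClosed (MM i : Set GG) := by
  have h1 : (MM i : Set GG) = (⋂ x : XX, {γ : GG | γ.1.g x = x}) ∩
      ⋂ x : XX, {γ : GG | ∃ c : ZMod 2, γ.1.v x = Finsupp.single i c} := by
    ext γ
    rw [Set.mem_inter_iff, Set.mem_iInter, Set.mem_iInter]
    constructor
    · rintro ⟨h1, h2⟩
      refine ⟨fun x => ?_, h2⟩
      show γ.1.g x = x
      have h3 : γ.1.g = 1 := h1
      rw [h3]; rfl
    · rintro ⟨h1, h2⟩
      exact ⟨Equiv.ext h1, h2⟩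
  rw [h1]
  refine IsClosed.inter (isClosed_iInter fun x => ?_) (isClosed_iInter fun x => ?_)
  · have h2 : Continuous (fun γ : GG => γ.1.g x) := (cont_g x).comp continuous_subtype_val
    exact (isClosed_discrete {z : XX | z = x}).preimage h2
  · have h2 : Continuous (fun γ : GG => γ.1.v x) := (cont_v x).comp continuous_subtype_val
    exact (isClosed_discrete {e : EE | ∃ c : ZMod 2, e = Finsupp.single i c}).preimage h2

lemma TT_single_mem (i : ℕ) : (⟨⟨TT (Finsupp.single (i, 1) 1), 1⟩, TT_mem _⟩ : GG) ∈ MM i := by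
  rw [mem_MM, mem_MB]
  refine ⟨rfl, fun x => ?_⟩
  show ∃ c, TT (Finsupp.single (i, 1) 1) x = _
  rw [TT_single, one_smul]
  unfold W
  split_ifs
  · exact ⟨1, rfl⟩
  · exact ⟨0, by simp⟩

lemma TT_single_ne (i : ℕ) : (⟨⟨TT (Finsupp.single (i, 1) 1), 1⟩, TT_mem _⟩ : GG) ≠ 1 := by
  intro h
  have h1 : TT (Finsupp.single ((i : ℕ), (1 : Fr)) 1) = 0 := congrArg Gam.v (congrArg Subtype.val h)
  have h2 := TT_const (Finsupp.single ((i : ℕ), (1 : Fr)) 1) 0 (fun x => by rw [h1]; simp)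
  rw [Finsupp.single_eq_zero] at h2
  exact one_ne_zero h2

lemma MM_ne_bot (i : ℕ) : MM i ≠ ⊥ := by
  intro h
  have h1 := TT_single_mem i
  rw [h, Subgroup.mem_bot] at h1
  exact TT_single_ne i h1

lemma MM_disjoint {i j : ℕ} (h : i ≠ j) : MM i ⊓ MM j = ⊥ := by
  rw [eq_bot_iff]
  rintro γ ⟨h1, h2⟩
  rw [Subgroup.mem_bot]
  apply Subtype.ext
  refine gam_ext (fun x => ?_) (fun x => ?_)
  · obtain ⟨c, hc⟩ := h1.2 x
    obtain ⟨c', hc'⟩ := h2.2 x
    have h3 : γ.1.v x = Finsupp.single i c := hc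
    have h4 : γ.1.v x = Finsupp.single j c' := hc'
    rw [h3] at h4
    have h5 := DFunLike.congr_fun h4 i
    rw [Finsupp.single_eq_same, Finsupp.single_apply, if_neg (Ne.symm h)] at h5
    show γ.1.v x = 0
    rw [h3, h5, Finsupp.single_zero]
  · have h3 : γ.1.g = 1 := h1.1
    rw [h3]
    rfl

lemma MM_comm (i : ℕ) (a b : GG) (ha : a ∈ MM i) (hb : b ∈ MM i) : a * b = b * a := by
  apply Subtype.ext
  have h1 : a.1.g = 1 := ha.1
  have h2 : b.1.g = 1 := hb.1
  refine gam_ext (fun x => ?_) (fun x => ?_)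
  · show (a.1 * b.1).v x = (b.1 * a.1).v x
    rw [mul_v, mul_v, h1, h2]
    simp [add_comm]
  · show (a.1 * b.1).g x = (b.1 * a.1).g x
    rw [mul_g, mul_g, h1, h2]

lemma MM_min (i : ℕ) (B : Subgroup GG) (hB : B.Normal) (hBc : IsClosed (B : Set GG))
    (hBM : B ≤ MM i) : B = ⊥ ∨ B = MM i := by
  by_cases hcase : B = ⊥
  · exact Or.inl hcase
  right
  obtain ⟨b, hb, hb1⟩ := B.ne_bot_iff_exists_ne_one.1 hcase |>.elim
    (fun b hb => (⟨b.1, b.2, fun h => hb (Subtype.ext h)⟩ : ∃ b ∈ B, b ≠ 1))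
  let Q : Subgroup (Gam XX EE) := (B.map GG.subtype).topologicalClosure
  have hQ : IsClosed (Q : Set (Gam XX EE)) := Subgroup.isClosed_topologicalClosure _
  have hinv : ∀ (g : Equiv.Perm XX), ∀ q ∈ Q,
      (⟨0, g⟩ : Gam XX EE) * q * (⟨0, g⟩ : Gam XX EE)⁻¹ ∈ Q := by
    intro g q hq
    have hcl : IsClosed {r : Gam XX EE | r * q * r⁻¹ ∈ Q} :=
      hQ.preimage (f := fun r : Gam XX EE => r * q * r⁻¹) (by fun_prop)
    refine sig_zero_mem hcl ?_ (⟨0, g⟩ : Gam XX EE) (fun x => by simp)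
    intro f
    show psi f * q * (psi f)⁻¹ ∈ Q
    have hcont : Continuous (fun r : Gam XX EE => psi f * r * (psi f)⁻¹) := by fun_prop
    refine map_mem_closure (f := fun r : Gam XX EE => psi f * r * (psi f)⁻¹) hcont hq ?_
    rintro r ⟨b', hb', rfl⟩
    have h5 := hB.conj_mem b' hb' (⟨psi f, psi_mem f⟩ : GG)
    refine ⟨_, h5, ?_⟩
    rw [map_mul, map_mul, map_inv]
    rfl
  have hbM : b.1 ∈ MB i := hBM hb
  obtain ⟨hbg, hbv⟩ := (mem_MB i b.1).1 hbM
  obtain ⟨x, y, hxy⟩ := nonconst_of b.2 hbg (fun h => hb1 (Subtype.ext h))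
  have hb' : (⟨b.1.v, 1⟩ : Gam XX EE) ∈ Q := by
    have : (⟨b.1.v, 1⟩ : Gam XX EE) = b.1 := gam_ext (fun x => rfl) (fun x => by rw [hbg])
    rw [this]
    exact le_closure B b hb
  obtain ⟨c, hc⟩ := hbv x
  obtain ⟨c', hc'⟩ := hbv y
  have h1 : b.1.v x - b.1.v y = Finsupp.single i 1 := by
    rw [hc, hc'] at hxy ⊢
    rw [sig_single, sig_single] at hxy
    rw [← Finsupp.single_sub]
    have h3 : ∀ a b : ZMod 2, a ≠ b → a - b = 1 := by decide
    rw [h3 _ _ hxy]
  have he : (Finsupp.single i 1 : EE) ≠ 0 := by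
    rw [Ne, Finsupp.single_eq_zero]
    exact one_ne_zero
  refine le_antisymm hBM ?_
  intro m hm
  obtain ⟨hmg, hmv⟩ := (mem_MB i m.1).1 hm
  apply trace_closed B hBc
  have h2 := spread Q hQ hinv b.1.v hb' x y _ he h1 m.1.v (fun z => by
    obtain ⟨c, hc⟩ := hmv z
    rw [hc]
    have h3 : ∀ a : ZMod 2, a = 0 ∨ a = 1 := by decide
    rcases h3 c with rfl | rfl
    · left; simp
    · right; rfl)
  have h3 : m.1 = (⟨m.1.v, 1⟩ : Gam XX EE) := gam_ext (fun x => rfl) (fun x => by rw [hmg])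
  rw [h3]
  exact h2

theorem GG_faithful : FaithfulIrreducible GG HH := by
  refine ⟨HH_closed, ?_, GG_irred, HH_core⟩
  intro h
  have h1 : (⟨⟨TT (Finsupp.single (0, 1) 1), 1⟩, TT_mem _⟩ : GG) ∈ HH := by
    rw [h]; trivial
  obtain ⟨f, hf⟩ := h1
  have h2 : psi f = (⟨TT (Finsupp.single (0, 1) 1), 1⟩ : Gam XX EE) := hf
  have h3 := TT_const (Finsupp.single ((0 : ℕ), (1 : Fr)) 1) 0 (fun x => by
    have := psi_sig f x
    rw [h2] at this
    exact this)
  rw [Finsupp.single_eq_zero] at h3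
  exact one_ne_zero h3

theorem MM_minimal (i : ℕ) : MinimalClosedNormal GG (MM i) :=
  ⟨MM_normal i, MM_closed i, MM_ne_bot i, fun N hN hNc hle => MM_min i N hN hNc hle⟩

instance : Countable GG := by
  have h1 : Function.Surjective (fun p : Fr × ((ℕ × Fr) →₀ ZMod 2) =>
      (⟨(⟨TT p.2, 1⟩ : Gam XX EE) * psi p.1, GG.mul_mem (TT_mem _) (psi_mem _)⟩ : GG)) := by
    rintro ⟨γ, f, a, h1, h2⟩
    refine ⟨(f, a), Subtype.ext (gam_ext (fun x => ?_) (fun x => ?_))⟩
    · show TT a x + (psi f).v ((1 : Equiv.Perm XX)⁻¹ x) = γ.v x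
      rw [h2]
      simp
    · show ((1 : Equiv.Perm XX) * (psi f).g) x = γ.g x
      rw [h1, one_mul]
  exact h1.countable

instance : TopologicalSpace.MetrizableSpace (Gam XX EE) := by
  have hinj : Function.Injective
      (fun a : Gam XX EE => (a.v, (a.g : XX → XX), ((a.g⁻¹ : Equiv.Perm XX) : XX → XX))) := by
    intro a b h
    simp only [Prod.mk.injEq] at h
    exact Gam.ext h.1 (Equiv.coe_fn_injective h.2.1)
  exact (Topology.IsEmbedding.mk ind hinj).metrizableSpace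

instance : TopologicalSpace.MetrizableSpace GG :=
  Topology.IsEmbedding.subtypeVal.metrizableSpace

end Pool.Agent.V1129.Irr
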