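import Mathlib

set_option autoImplicit false

/-!
The kernel of all ordinary (finite-dimensional continuous complex) representations, and a
Heisenberg type group realising a given abelian topological group as such a kernel.
-/

open Topology Matrix

namespace Pool.Agent.V1129

universe u

/-- `KO G` is the intersection of the kernels of all continuous homomorphisms from `G` to
`GL (Fin n) ℂ`, for all natural numbers `n`. -/
def KO (G : Type u) [Group G] [TopologicalSpace G] : Subgroup G :=
  ⨅ (n : ℕ) (ρ : G →ₜ* GL (Fin n) ℂ), ρ.toMonoidHom.ker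

theorem mem_KO {G : Type u} [Group G] [TopologicalSpace G] {g : G} :
    g ∈ KO G ↔ ∀ (n : ℕ) (ρ : G →ₜ* GL (Fin n) ℂ), ρ g = 1 := by
  simp only [KO, Subgroup.mem_iInf]
  rfl

namespace Heis

section alg

variable (A : Type u) [CommGroup A]

/-- finitely supported integer sequences -/
def Dx : Type := ℕ →₀ ℤ

/-- finitely supported sequences in `A` -/
def Dy : Type u := ℕ →₀ Additive A

noncomputable instance : AddCommGroup Dx := inferInstanceAs (AddCommGroup (ℕ →₀ ℤ))
noncomputable instance : AddCommGroup (Dy A) := inferInstanceAs (AddCommGroup (ℕ →₀ Additive A))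
instance : TopologicalSpace Dx := ⊥
instance : TopologicalSpace (Dy A) := ⊥
instance : DiscreteTopology Dx := ⟨rfl⟩
instance : DiscreteTopology (Dy A) := ⟨rfl⟩

variable {A}

/-- the pairing `(x, y) ↦ ∏ i, (y i) ^ (x i)` -/
noncomputable def pair (x : Dx) (y : Dy A) : A :=
  Additive.toMul (Finsupp.sum (show ℕ →₀ ℤ from x) (fun i n => n • (show ℕ →₀ Additive A from y) i))

theorem pair_add_left (x x' : Dx) (y : Dy A) : pair (x + x') y = pair x y * pair x' y := by
  unfold pair
  rw [← toMul_add]
  congr 1
  exact Finsupp.sum_add_index' (fun i => zero_smul ℤ _) (fun i a b => add_smul a b _)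

theorem pair_add_right (x : Dx) (y y' : Dy A) : pair x (y + y') = pair x y * pair x y' := by
  unfold pair
  rw [← toMul_add]
  congr 1
  show Finsupp.sum _ (fun i n => n • ((show ℕ →₀ Additive A from y) i +
    (show ℕ →₀ Additive A from y') i)) = _
  simp only [smul_add]
  exact Finsupp.sum_add

theorem pair_zero_left (y : Dy A) : pair 0 y = 1 := by
  have h := pair_add_left (0 : Dx) 0 y
  rw [add_zero] at h
  exact left_eq_mul.1 h

theorem pair_zero_right (x : Dx) : pair x (0 : Dy A) = 1 := by
  have h := pair_add_right x (0 : Dy A) 0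
  rw [add_zero] at h
  exact left_eq_mul.1 h

theorem pair_neg_left (x : Dx) (y : Dy A) : pair (-x) y = (pair x y)⁻¹ := by
  have h := pair_add_left x (-x) y
  rw [add_neg_cancel, pair_zero_left] at h
  exact (inv_eq_of_mul_eq_one_right h.symm).symm

/-- the basis vectors -/
noncomputable def ex (i : ℕ) : Dx := Finsupp.single i 1
/-- `a` in position `i` -/
noncomputable def ey (i : ℕ) (a : A) : Dy A := Finsupp.single i (Additive.ofMul a)

theorem pair_ex_ey (i : ℕ) (a : A) : pair (ex i) (ey i a) = a := by
  unfold pair ex ey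
  have h := Finsupp.sum_single_index (a := i) (b := (1 : ℤ))
    (h := fun k n => n • (Finsupp.single i (Additive.ofMul a) : ℕ →₀ Additive A) k)
    (zero_smul ℤ _)
  refine (congrArg Additive.toMul h).trans ?_
  simp

theorem pair_ex_ey_ne {i j : ℕ} (h : i ≠ j) (a : A) : pair (ex i) (ey j a) = 1 := by
  unfold pair ex ey
  have h' := Finsupp.sum_single_index (a := i) (b := (1 : ℤ))
    (h := fun k n => n • (Finsupp.single j (Additive.ofMul a) : ℕ →₀ Additive A) k)
    (zero_smul ℤ _)
  refine (congrArg Additive.toMul h').trans ?_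
  simp [Finsupp.single_eq_of_ne h]

variable (A)

/-- The Heisenberg type group: triples `(a, x, y)` with `a` in `A`, `x` a finitely supported
integer sequence and `y` a finitely supported sequence in `A`. -/
@[ext] structure Hs where
  /-- the central coordinate -/
  a : A
  /-- the integer sequence -/
  x : Dx
  /-- the sequence in `A` -/
  y : Dy A

variable {A}

noncomputable instance : Group (Hs A) where
  mul g h := ⟨g.a * h.a * pair g.x h.y, g.x + h.x, g.y + h.y⟩
  one := ⟨1, 0, 0⟩
  inv g := ⟨g.a⁻¹ * pair g.x g.y, -g.x, -g.y⟩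
  mul_assoc := by
    intro g h k
    apply Hs.ext
    · show g.a * h.a * pair g.x h.y * k.a * pair (g.x + h.x) k.y =
        g.a * (h.a * k.a * pair h.x k.y) * pair g.x (h.y + k.y)
      rw [pair_add_left, pair_add_right]
      ac_rfl
    · exact add_assoc _ _ _
    · exact add_assoc _ _ _
  one_mul := by
    intro g
    apply Hs.ext
    · show 1 * g.a * pair 0 g.y = g.a
      rw [pair_zero_left, one_mul, mul_one]
    · exact zero_add _
    · exact zero_add _
  mul_one := by
    intro g
    apply Hs.ext
    · show g.a * 1 * pair g.x 0 = g.a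
      rw [pair_zero_right, mul_one, mul_one]
    · exact add_zero _
    · exact add_zero _
  inv_mul_cancel := by
    intro g
    apply Hs.ext
    · show g.a⁻¹ * pair g.x g.y * g.a * pair (-g.x) g.y = 1
      rw [pair_neg_left, mul_assoc, mul_assoc, mul_left_comm (pair g.x g.y), mul_inv_cancel,
        mul_one, inv_mul_cancel]
    · exact neg_add_cancel _
    · exact neg_add_cancel _

theorem mul_def (g h : Hs A) : g * h = ⟨g.a * h.a * pair g.x h.y, g.x + h.x, g.y + h.y⟩ := rfl
theorem one_def : (1 : Hs A) = ⟨1, 0, 0⟩ := rfl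
theorem inv_def (g : Hs A) : g⁻¹ = ⟨g.a⁻¹ * pair g.x g.y, -g.x, -g.y⟩ := rfl

/-- the embedding of `A` -/
noncomputable def emb : A →* Hs A where
  toFun a := ⟨a, 0, 0⟩
  map_one' := rfl
  map_mul' a b := by
    rw [mul_def]
    simp [pair_zero_left]

/-- the projection to the abelian quotient -/
noncomputable def quo : Hs A →* Multiplicative (Dx × Dy A) where
  toFun g := Multiplicative.ofAdd (g.x, g.y)
  map_one' := rfl
  map_mul' _ _ := rfl

/-- the elements `X i` -/
noncomputable def X (i : ℕ) : Hs A := ⟨1, ex i, 0⟩
/-- the elements `Y i a` -/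
noncomputable def Y (i : ℕ) (a : A) : Hs A := ⟨1, 0, ey i a⟩

theorem X_mul_Y (i : ℕ) (a : A) : X i * Y i a = emb a * (Y i a * X i) := by
  show (⟨1, ex i, 0⟩ : Hs A) * ⟨1, 0, ey i a⟩ = ⟨a, 0, 0⟩ * (⟨1, 0, ey i a⟩ * ⟨1, ex i, 0⟩)
  simp only [mul_def, pair_ex_ey, pair_zero_left, pair_zero_right]
  simp

theorem X_mul_Y_ne {i j : ℕ} (h : i ≠ j) (a : A) : X i * Y j a = Y j a * X i := by
  show (⟨1, ex i, 0⟩ : Hs A) * ⟨1, 0, ey j a⟩ = ⟨1, 0, ey j a⟩ * ⟨1, ex i, 0⟩
  simp only [mul_def, pair_ex_ey_ne h, pair_zero_left]
  simp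

/-- **Key point**: in a finite-dimensional complex representation the central subgroup `A` of the
Heisenberg type group acts trivially. No continuity is needed. -/
theorem rep_trivial {n : ℕ} (ρ : Hs A →* GL (Fin n) ℂ) (a : A) : ρ (emb a) = 1 := by
  by_contra hne
  let M := Matrix (Fin n) (Fin n) ℂ
  let v : ℕ → M := fun j => (ρ (Y j a) : GL (Fin n) ℂ).val
  have hli : LinearIndependent ℂ v := by
    rw [linearIndependent_iff']
    intro s g hg i hi
    have hX : ∀ j, (ρ (X i)).val * v j =
        if i = j then (ρ (emb a)).val * (v j * (ρ (X i)).val) else v j * (ρ (X i)).val := by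
      intro j
      split_ifs with h
      · subst h
        show (ρ (X i)).val * (ρ (Y i a)).val = (ρ (emb a)).val * ((ρ (Y i a)).val * (ρ (X i)).val)
        rw [← Units.val_mul, ← Units.val_mul, ← Units.val_mul, ← map_mul, ← map_mul, ← map_mul,
          X_mul_Y]
      · show (ρ (X i)).val * (ρ (Y j a)).val = (ρ (Y j a)).val * (ρ (X i)).val
        rw [← Units.val_mul, ← Units.val_mul, ← map_mul, ← map_mul, X_mul_Y_ne h]
    have h1 : (ρ (X i)).val * ∑ j ∈ s, g j • v j = 0 := by rw [hg, mul_zero]
    have h2 : (∑ j ∈ s, g j • v j) * (ρ (X i)).val = 0 := by rw [hg, zero_mul]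
    rw [Finset.mul_sum] at h1
    rw [Finset.sum_mul] at h2
    have h3 : ∑ j ∈ s, ((ρ (X i)).val * (g j • v j) - (g j • v j) * (ρ (X i)).val) = 0 := by
      rw [Finset.sum_sub_distrib, h1, h2, sub_zero]
    rw [Finset.sum_eq_single_of_mem i hi] at h3
    · rw [mul_smul_comm, hX i, if_pos rfl, smul_mul_assoc, ← smul_sub] at h3
      by_contra hgi
      rw [smul_eq_zero] at h3
      rcases h3 with h3 | h3
      · exact hgi h3
      · apply hne
        rw [sub_eq_zero] at h3
        have h4 : (ρ (emb a) * (ρ (Y i a) * ρ (X i))).val = (1 * (ρ (Y i a) * ρ (X i))).val := by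
          rw [Units.val_mul, Units.val_mul, one_mul, Units.val_mul]
          exact h3
        exact mul_right_cancel (Units.ext h4)
    · intro j _ hji
      rw [mul_smul_comm, hX j, if_neg (Ne.symm hji), smul_mul_assoc, sub_self]
  have hfin : Finite ℕ := hli.finite
  exact not_finite ℕ

end alg

/-- Characters separate the points of an abelian group: version with values in `ℂˣ`. -/
theorem exists_char {B : Type u} [AddCommGroup B] {b : B} (hb : b ≠ 0) :
    ∃ χ : Multiplicative B →* ℂˣ, χ (Multiplicative.ofAdd b) ≠ 1 := by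
  obtain ⟨c, hc⟩ := CharacterModule.exists_character_apply_ne_zero_of_ne_zero hb
  let e : AddCircle (1 : ℚ) →+ Additive ℂˣ :=
    QuotientAddGroup.lift (AddSubgroup.zmultiples (1 : ℚ))
      { toFun := fun q : ℚ => Additive.ofMul (Units.mk0 (Complex.exp (2 * Real.pi * Complex.I * q))
          (Complex.exp_ne_zero _))
        map_zero' := by
          show Additive.ofMul _ = Additive.ofMul 1
          congr 1
          ext
          simp
        map_add' := by
          intro p q
          rw [← ofMul_mul]
          congr 1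
          ext
          simp only [Units.val_mk0, Units.val_mul, Rat.cast_add]
          rw [← Complex.exp_add]
          congr 1
          ring }
      (by
        rintro q ⟨n, rfl⟩
        rw [AddMonoidHom.mem_ker]
        show Additive.ofMul _ = Additive.ofMul 1
        congr 1
        ext
        simp only [Units.val_mk0, Units.val_one]
        rw [Complex.exp_eq_one_iff]
        exact ⟨n, by simp; ring⟩)
  have he : ∀ t : AddCircle (1 : ℚ), e t = 0 → t = 0 := by
    intro t
    obtain ⟨q, rfl⟩ := QuotientAddGroup.mk_surjective t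
    intro h
    have h1 : Units.mk0 (Complex.exp (2 * Real.pi * Complex.I * q)) (Complex.exp_ne_zero _) = 1 := h
    have h2 : Complex.exp (2 * Real.pi * Complex.I * q) = 1 := congrArg Units.val h1
    rw [Complex.exp_eq_one_iff] at h2
    obtain ⟨n, hn⟩ := h2
    have h3 : (q : ℂ) = n := by
      have hpi : (2 * (Real.pi : ℂ) * Complex.I) ≠ 0 := Complex.two_pi_I_ne_zero
      apply mul_left_cancel₀ hpi
      rw [hn]; ring
    have h4 : q = n := by exact_mod_cast h3
    rw [h4]
    apply (QuotientAddGroup.eq_zero_iff _).2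
    exact ⟨n, by simp⟩
  refine ⟨AddMonoidHom.toMultiplicativeLeft (e.comp (c : B →+ AddCircle (1 : ℚ))), ?_⟩
  intro h
  exact hc (he _ h)

section top

variable {A : Type u} [CommGroup A] [TopologicalSpace A]

/-- the underlying triple -/
def toTriple : Hs A ≃ A × (Dx × Dy A) where
  toFun g := (g.a, (g.x, g.y))
  invFun p := ⟨p.1, p.2.1, p.2.2⟩
  left_inv _ := rfl
  right_inv _ := rfl

instance : TopologicalSpace (Hs A) := TopologicalSpace.induced toTriple inferInstance

/-- the homeomorphism with the product -/
def hom : Hs A ≃ₜ A × (Dx × Dy A) := toTriple.toHomeomorphOfIsInducing ⟨rfl⟩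

theorem cont_a : Continuous (Hs.a : Hs A → A) := continuous_fst.comp hom.continuous
theorem cont_xy : Continuous (fun g : Hs A => (g.x, g.y)) := continuous_snd.comp hom.continuous
theorem cont_x : Continuous (Hs.x : Hs A → Dx) := continuous_fst.comp cont_xy
theorem cont_y : Continuous (Hs.y : Hs A → Dy A) := continuous_snd.comp cont_xy

theorem cont_mk {Z : Type u} [TopologicalSpace Z] {f : Z → A} {g : Z → Dx} {h : Z → Dy A}
    (hf : Continuous f) (hg : Continuous g) (hh : Continuous h) :
    Continuous (fun z => (⟨f z, g z, h z⟩ : Hs A)) :=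
  hom.symm.continuous.comp (hf.prodMk (hg.prodMk hh))

theorem cont_pair : Continuous (fun p : Dx × Dy A => pair p.1 p.2) :=
  continuous_of_discreteTopology

instance [IsTopologicalGroup A] : IsTopologicalGroup (Hs A) where
  continuous_mul := by
    apply cont_mk
    · exact ((cont_a.comp continuous_fst).mul (cont_a.comp continuous_snd)).mul
        (cont_pair.comp ((cont_x.comp continuous_fst).prodMk (cont_y.comp continuous_snd)))
    · exact (cont_x.comp continuous_fst).add (cont_x.comp continuous_snd)
    · exact (cont_y.comp continuous_fst).add (cont_y.comp continuous_snd)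
  continuous_inv := by
    apply cont_mk
    · exact cont_a.inv.mul (cont_pair.comp (cont_x.prodMk cont_y))
    · exact cont_x.neg
    · exact cont_y.neg

instance [T2Space A] : T2Space (Hs A) := hom.isEmbedding.t2Space
instance [LocallyCompactSpace A] : LocallyCompactSpace (Hs A) :=
  hom.isClosedEmbedding.locallyCompactSpace

theorem cont_emb : Continuous (emb : A →* Hs A) :=
  cont_mk continuous_id continuous_const continuous_const

theorem cont_quo : Continuous (fun g : Hs A => Multiplicative.toAdd (quo g)) := cont_xy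

/-- The kernel of the ordinary representations of the Heisenberg type group is `A`. -/
theorem mem_KO_iff (g : Hs A) : g ∈ KO (Hs A) ↔ g.x = 0 ∧ g.y = 0 := by
  rw [mem_KO]
  constructor
  · intro h
    by_contra hne
    have hb : ((g.x, g.y) : Dx × Dy A) ≠ 0 := by
      intro h0
      rw [Prod.mk_eq_zero] at h0
      exact hne h0
    obtain ⟨χ, hχ⟩ := exists_char hb
    let r : ℂˣ →* GL (Fin 1) ℂ := Units.map (Matrix.scalar (Fin 1) : ℂ →+* _).toMonoidHom
    let ρ : Hs A →ₜ* GL (Fin 1) ℂ :=
      { toMonoidHom := r.comp (χ.comp quo)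
        continuous_toFun := by
          have hd : Continuous (fun b : Dx × Dy A => r (χ (Multiplicative.ofAdd b))) :=
            continuous_of_discreteTopology
          exact hd.comp cont_quo }
    have h1 := h 1 ρ
    apply hχ
    have h2 : (Matrix.scalar (Fin 1) ((χ (quo g) : ℂˣ) : ℂ)) = (1 : Matrix (Fin 1) (Fin 1) ℂ) :=
      congrArg Units.val h1
    have h3 := congrFun (congrFun h2 0) 0
    rw [Matrix.scalar_apply, Matrix.diagonal_apply_eq, Matrix.one_apply_eq] at h3
    exact Units.ext h3
  · rintro ⟨h1, h2⟩ n ρ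
    have hg : g = emb g.a := Hs.ext rfl h1 h2
    rw [hg]
    exact rep_trivial ρ.toMonoidHom g.a

/-- `A` is isomorphic, as a topological group, to the kernel of the ordinary representations
of the Heisenberg type group. -/
noncomputable def iso : A ≃ₜ* KO (Hs A) where
  toFun a := ⟨emb a, (mem_KO_iff _).2 ⟨rfl, rfl⟩⟩
  invFun g := g.1.a
  left_inv _ := rfl
  right_inv g := by
    obtain ⟨h1, h2⟩ := (mem_KO_iff g.1).1 g.2
    exact Subtype.ext (Hs.ext rfl h1.symm h2.symm)
  map_mul' a b := Subtype.ext (map_mul emb a b)
  continuous_toFun := cont_emb.subtype_mk _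
  continuous_invFun := cont_a.comp continuous_subtype_val

end top

end Heis

end Pool.Agent.V1129
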