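import Pool.Agent.V1129.LMP1

set_option autoImplicit false

/-!
The relative property for compact subgroups and its inheritance.
-/

namespace Pool.Agent.V1129.LMP

open Topology Filter Set
open Pool.Agent.H753R3.LM

/-- the circle -/
abbrev Cir : Type := AddCircle (1 : ℝ)

/-- every `K`-saturated chain of neighbourhoods in `V₀ + K` is eventually small -/
def PropK (G : Type) [AddCommGroup G] [TopologicalSpace G] (K : AddSubgroup G) (V₀ : Set G) :
    Prop :=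
  ∀ S : ℕ → Set G, Chain S → (∀ n, S n ∈ 𝓝 (0 : G)) → (∀ n, ∀ x ∈ S n, ∀ k ∈ K, x + k ∈ S n) →
    (∀ x ∈ S 0, ∃ v ∈ V₀, ∃ k ∈ K, x = v + k) → ∀ U ∈ 𝓝 (0 : G), ∃ n, Sml (S n) U

/-! ### the circle -/

lemma cir_lift (t : Cir) : ∃ r : ℝ, (r : Cir) = t ∧ |r| = ‖t‖ := by
  obtain ⟨s, rfl⟩ := QuotientAddGroup.mk_surjective t
  refine ⟨s - round s, ?_, ?_⟩
  · rw [AddCircle.coe_sub]
    have : ((round s : ℝ) : Cir) = 0 := by
      rw [AddCircle.coe_eq_zero_iff]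
      exact ⟨round s, by simp⟩
    rw [this, sub_zero]
  · rw [show (QuotientAddGroup.mk s : Cir) = (s : Cir) from rfl, AddCircle.norm_eq]
    simp

lemma norm_coe_le (r : ℝ) : ‖(r : Cir)‖ ≤ |r| := by
  rw [AddCircle.norm_eq]
  simp only [inv_one, one_mul, mul_one]
  have := round_le r 0
  simpa using this

lemma norm_coe_eq {r : ℝ} (h : |r| ≤ 1 / 2) : ‖(r : Cir)‖ = |r| := by
  rw [AddCircle.norm_coe_eq_abs_iff 1 one_ne_zero]
  simpa using h

lemma norm_two {t : Cir} (h : ‖t‖ ≤ 1 / 4) : ‖(2 : ℤ) • t‖ = 2 * ‖t‖ := by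
  obtain ⟨r, rfl, hr⟩ := cir_lift t
  rw [← AddCircle.coe_zsmul, ← hr]
  have h1 : (2 : ℤ) • r = 2 * r := by simp
  rw [h1, norm_coe_eq, abs_mul, abs_two]
  rw [abs_mul, abs_two]
  linarith

/-- small elements of a closed subgroup of the circle can be halved -/
lemma halving (C : AddSubgroup Cir) (hC : IsClosed (C : Set Cir)) :
    ∃ ε₀ : ℝ, 0 < ε₀ ∧ ∀ δ ∈ C, ‖δ‖ < ε₀ → ∃ δ' ∈ C, (2 : ℤ) • δ' = δ ∧ ‖δ'‖ ≤ ‖δ‖ / 2 := by
  let S : AddSubgroup ℝ := C.comap (QuotientAddGroup.mk' (AddSubgroup.zmultiples (1 : ℝ)))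
  have hS : ∀ r : ℝ, r ∈ S ↔ (r : Cir) ∈ C := fun r => Iff.rfl
  rcases AddSubgroup.dense_or_cyclic S with h | ⟨a, ha⟩
  · refine ⟨1, one_pos, fun δ _ _ => ?_⟩
    have hall : ∀ r : ℝ, r ∈ S := by
      intro r
      have h1 : IsClosed (S : Set ℝ) := hC.preimage (AddCircle.continuous_mk' 1)
      have h2 := h.closure_eq
      rw [h1.closure_eq] at h2
      have : r ∈ (S : Set ℝ) := by rw [h2]; trivial
      exact this
    obtain ⟨r, rfl, hr⟩ := cir_lift δ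
    refine ⟨((r / 2 : ℝ) : Cir), (hS _).1 (hall _), ?_, ?_⟩
    · rw [← AddCircle.coe_zsmul]
      have h9 : (2 : ℤ) • (r / 2) = r := by
        rw [zsmul_eq_mul]
        push_cast
        ring
      rw [h9]
    · refine (norm_coe_le _).trans ?_
      rw [← hr, abs_div, abs_two]
  · have ha0 : a ≠ 0 := by
      rintro rfl
      have h1 : (1 : ℝ) ∈ S := by
        rw [hS]
        have : ((1 : ℝ) : Cir) = 0 := AddCircle.coe_period 1
        rw [this]
        exact zero_mem _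
      rw [ha, AddSubgroup.mem_closure_singleton] at h1
      obtain ⟨n, hn⟩ := h1
      simp at hn
    refine ⟨|a|, abs_pos.2 ha0, fun δ hδ hlt => ?_⟩
    obtain ⟨r, rfl, hr⟩ := cir_lift δ
    have h1 : r ∈ S := (hS r).2 hδ
    rw [ha, AddSubgroup.mem_closure_singleton] at h1
    obtain ⟨n, rfl⟩ := h1
    rw [← hr] at hlt
    have h2 : n = 0 := by
      by_contra hn
      have h3 : (1 : ℝ) ≤ |(n : ℝ)| := by
        exact_mod_cast Int.one_le_abs hn
      rw [zsmul_eq_mul, abs_mul] at hlt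
      nlinarith [abs_pos.2 ha0]
    subst h2
    refine ⟨0, zero_mem _, ?_, ?_⟩
    · simp
    · simp

/-- approximating an almost-doubling sequence -/
lemma doubling (C : AddSubgroup Cir) {ε₀ ε : ℝ}
    (hC : ∀ δ ∈ C, ‖δ‖ < ε₀ → ∃ δ' ∈ C, (2 : ℤ) • δ' = δ ∧ ‖δ'‖ ≤ ‖δ‖ / 2) (hε : 2 * ε < ε₀)
    (hε0 : 0 ≤ ε) (p : ℕ) : ∀ φ : ℕ → Cir, (∀ j ≤ p, φ j ∈ C) →
      (∀ j < p, ‖φ (j + 1) - (2 : ℤ) • φ j‖ ≤ ε) →
      ∃ α ∈ C, ∀ j ≤ p, ‖φ j - ((2 : ℤ) ^ j) • α‖ ≤ ε := by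
  induction p with
  | zero =>
    intro φ hφ _
    refine ⟨φ 0, hφ 0 le_rfl, fun j hj => ?_⟩
    obtain rfl : j = 0 := Nat.le_zero.1 hj
    simpa using hε0
  | succ p ih =>
    intro φ hφ hd
    obtain ⟨β, hβ, hβ2⟩ := ih (fun j => φ (j + 1)) (fun j hj => hφ _ (by omega))
      (fun j hj => hd _ (by omega))
    have h0 : φ 0 ∈ C := hφ 0 (by omega)
    have h1 : β - (2 : ℤ) • φ 0 ∈ C := sub_mem hβ (zsmul_mem h0 _)
    have h2 : ‖β - (2 : ℤ) • φ 0‖ ≤ 2 * ε := by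
      have h3 := hβ2 0 (by omega)
      simp only [zero_add, pow_zero, one_smul] at h3
      have h4 := hd 0 (by omega)
      simp only [zero_add] at h4
      have h5 : β - (2 : ℤ) • φ 0 = -(φ 1 - β) + (φ 1 - (2 : ℤ) • φ 0) := by abel
      rw [h5]
      refine (norm_add_le _ _).trans ?_
      rw [norm_neg]
      linarith
    obtain ⟨δ', hδ', hδ2, hδ3⟩ := hC _ h1 (lt_of_le_of_lt h2 hε)
    have h6 : (2 : ℤ) • (φ 0 + δ') = β := by
      rw [smul_add, hδ2]; abel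
    refine ⟨φ 0 + δ', add_mem h0 hδ', fun j hj => ?_⟩
    cases j with
    | zero =>
      simp only [pow_zero, one_smul]
      have h7 : φ 0 - (φ 0 + δ') = -δ' := by abel
      rw [h7, norm_neg]
      linarith
    | succ j =>
      have h7 := hβ2 j (by omega)
      rw [pow_succ, mul_smul, h6]
      exact h7

end Pool.Agent.V1129.LMP
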