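import Pool.Agent.V1129.LMP2

set_option autoImplicit false

/-!
The inheritance step for compact subgroups.
-/

namespace Pool.Agent.V1129.LMP

open Topology Filter Set
open Pool.Agent.H753R3.LM

/-- base step -/
lemma propK_base (G : Type) [AddCommGroup G] [TopologicalSpace G] {V₀ V₁ : Set G}
    (h : PropP G V₀) (h1 : ∀ x ∈ V₁, ∀ y ∈ V₁, x + y ∈ V₀) (K : AddSubgroup G)
    (hK : (K : Set G) ⊆ V₁) : PropK G K V₁ := by
  intro S hS hSn _ hS0 U hU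
  refine h S hS hSn ?_ U hU
  intro x hx
  obtain ⟨v, hv, k, hk, rfl⟩ := hS0 x hx
  exact h1 v hv k (hK hk)

/-- doubling inside a chain -/
lemma Chain.two_pow {G : Type} [AddCommGroup G] {S : ℕ → Set G} (hS : Chain S) (j : ℕ) :
    ∀ (n : ℕ) (x : G), x ∈ S (n + j) → ((2 : ℤ) ^ j) • x ∈ S n := by
  induction j with
  | zero => intro n x hx; simpa using hx
  | succ j ih =>
    intro n x hx
    have h1 : x + x ∈ S (n + j) := hS.add (n + j) x hx x hx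
    have h2 := ih n _ h1
    have h3 : ((2 : ℤ) ^ (j + 1)) • x = ((2 : ℤ) ^ j) • (x + x) := by
      rw [pow_succ, mul_smul, two_zsmul]
    rw [h3]
    exact h2

/-- a continuous character is small near its kernel -/
lemma small_char (G : Type) [AddCommGroup G] [TopologicalSpace G] [IsTopologicalAddGroup G]
    [T2Space G]
    (K₁ K₂ : AddSubgroup G) (hc : IsCompact (K₂ : Set G)) (χ : K₂ →+ Cir)
    (hχ : Continuous χ) (hker : ∀ x : K₂, χ x = 0 ↔ (x : G) ∈ K₁) (N : Set G)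
    (hN : N ∈ 𝓝 (0 : G)) :
    ∃ b : ℝ, 0 < b ∧ ∀ κ : K₂, ‖χ κ‖ ≤ b → ∃ ν ∈ N, ∃ k ∈ K₁, (κ : G) = ν + k := by
  haveI : CompactSpace K₂ := isCompact_iff_compactSpace.1 hc
  obtain ⟨O, hON, hO, h0⟩ := mem_nhds_iff.1 hN
  -- the open set O + K₁
  let P : Set K₂ := {κ | ∃ ν ∈ O, ∃ k ∈ K₁, (κ : G) = ν + k}
  have hP : IsOpen P := by
    have h1 : P = (fun x : K₂ => (x : G)) ⁻¹' (⋃ k ∈ K₁, (fun g => g - k) ⁻¹' O) := by
      ext x
      simp only [P, mem_setOf_eq, mem_preimage, mem_iUnion]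
      constructor
      · rintro ⟨ν, hν, k, hk, h⟩
        refine ⟨k, hk, ?_⟩
        rw [h, add_sub_cancel_right]
        exact hν
      · rintro ⟨k, hk, h⟩
        exact ⟨_, h, k, hk, by abel⟩
    rw [h1]
    refine IsOpen.preimage continuous_subtype_val ?_
    refine isOpen_biUnion fun k _ => hO.preimage (by fun_prop)
  have hPc : IsCompact Pᶜ := hP.isClosed_compl.isCompact
  by_cases hne : (Pᶜ).Nonempty
  · obtain ⟨x, hx, hmin⟩ := hPc.exists_isMinOn hne (f := fun κ => ‖χ κ‖) (by fun_prop)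
    have hpos : 0 < ‖χ x‖ := by
      rw [norm_pos_iff]
      intro h
      rw [hker] at h
      exact hx ⟨0, h0, x, h, by simp⟩
    refine ⟨‖χ x‖ / 2, by positivity, fun κ hκ => ?_⟩
    have h2 : κ ∈ P := by
      by_contra h
      have := hmin h
      simp only [mem_setOf_eq] at this
      linarith
    obtain ⟨ν, hν, k, hk, h⟩ := h2
    exact ⟨ν, hON hν, k, hk, h⟩
  · refine ⟨1, one_pos, fun κ _ => ?_⟩
    have h2 : κ ∈ P := by
      by_contra h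
      exact hne ⟨κ, h⟩
    obtain ⟨ν, hν, k, hk, h⟩ := h2
    exact ⟨ν, hON hν, k, hk, h⟩

/-- a small symmetric neighbourhood -/
lemma exists_nhd (G : Type) [AddCommGroup G] [TopologicalSpace G] [IsTopologicalAddGroup G]
    (M : Set G) (hM : M ∈ 𝓝 (0 : G)) :
    ∃ N ∈ 𝓝 (0 : G), (∀ x ∈ N, -x ∈ N) ∧ (0 : G) ∈ N ∧ N ⊆ M ∧
      ∀ x ∈ N, ∀ y ∈ N, ∀ z ∈ N, x + y + z ∈ M := by
  obtain ⟨A, hA, hA2⟩ := exists_nhds_zero_half hM
  obtain ⟨B, hB, hB2⟩ := exists_nhds_zero_half hA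
  have hB0 : (0 : G) ∈ B := mem_of_mem_nhds hB
  refine ⟨B ∩ -B, inter_mem hB (neg_mem_nhds_zero G hB), ?_, ?_, ?_, ?_⟩
  · rintro x ⟨h1, h2⟩
    exact ⟨h2, by simpa using h1⟩
  · exact ⟨hB0, by simpa using hB0⟩
  · rintro x ⟨h1, -⟩
    have h2 : x + 0 ∈ A := hB2 x h1 0 hB0
    have h3 := hA2 _ h2 0 (mem_of_mem_nhds hA)
    simpa using h3
  · rintro x ⟨hx, -⟩ y ⟨hy, -⟩ z ⟨hz, -⟩
    have h1 := hB2 x hx y hy
    have h2 := hB2 z hz 0 hB0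
    rw [add_zero] at h2
    exact hA2 _ h1 _ h2

/-- the inductive step -/
lemma propK_step (G : Type) [AddCommGroup G] [TopologicalSpace G] [IsTopologicalAddGroup G]
    [T2Space G] (K₁ K₂ : AddSubgroup G) (hc : IsCompact (K₂ : Set G))
    (χ : K₂ →+ Cir) (hχ : Continuous χ) (hK : K₁ ≤ K₂)
    (hker : ∀ x : K₂, χ x = 0 ↔ (x : G) ∈ K₁)
    (V₀ : Set G) (hV₀ : V₀ ∈ 𝓝 (0 : G)) (h : PropK G K₁ V₀) :
    ∃ N ∈ 𝓝 (0 : G), PropK G K₂ N := by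
  classical
  haveI : CompactSpace K₂ := isCompact_iff_compactSpace.1 hc
  obtain ⟨ε₀, hε₀, hhalf⟩ := halving χ.range (by
    rw [AddMonoidHom.coe_range]
    exact (isCompact_range hχ).isClosed)
  obtain ⟨N', hN', hN'2⟩ := exists_nhds_zero_half hV₀
  obtain ⟨b₀, hb₀, hb₀2⟩ := small_char G K₁ K₂ hc χ hχ hker N' hN'
  obtain ⟨b, hb, hbb₀, hb4⟩ : ∃ b : ℝ, 0 < b ∧ b ≤ b₀ ∧ b ≤ 1 / 4 :=
    ⟨min b₀ (1 / 4), lt_min hb₀ (by norm_num), min_le_left _ _, min_le_right _ _⟩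
  obtain ⟨ε, hε, hε5, hε2⟩ : ∃ ε : ℝ, 0 < ε ∧ 5 * ε ≤ b ∧ 2 * ε < ε₀ := by
    refine ⟨min (b / 5) (ε₀ / 4), lt_min (by positivity) (by positivity), ?_, ?_⟩
    · have := min_le_left (b / 5) (ε₀ / 4)
      linarith
    · have := min_le_right (b / 5) (ε₀ / 4)
      linarith
  -- the neighbourhood
  obtain ⟨M, hM, hM2⟩ : ∃ M ∈ 𝓝 (0 : G), ∀ κ : K₂, (κ : G) ∈ M → ‖χ κ‖ ≤ ε := by
    have h1 : {κ : K₂ | ‖χ κ‖ < ε} ∈ 𝓝 (0 : K₂) := by
      refine IsOpen.mem_nhds ?_ (by simpa using hε)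
      exact isOpen_lt (by fun_prop) continuous_const
    rw [nhds_subtype_eq_comap, mem_comap] at h1
    obtain ⟨M, hM, hM2⟩ := h1
    exact ⟨M, hM, fun κ hκ => (hM2 hκ).le⟩
  obtain ⟨N, hN, hNneg, hN0, hNM, hN3⟩ := exists_nhd G (M ∩ N') (inter_mem hM hN')
  have hN3' : ∀ x ∈ N, ∀ y ∈ N, ∀ z ∈ N, ∀ κ : K₂, (κ : G) = x + y + z → ‖χ κ‖ ≤ ε := by
    intro x hx y hy z hz κ hκ
    apply hM2
    rw [hκ]
    exact (hN3 x hx y hy z hz).1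
  refine ⟨N, hN, ?_⟩
  intro S hS hSn hSK hS0 U hU
  -- everything close
  have hS0' : ∀ x ∈ S 0, ∃ ν ∈ N, ∃ κ : K₂, x = ν + κ := by
    intro x hx
    obtain ⟨ν, hν, κ, hκ, h⟩ := hS0 x hx
    exact ⟨ν, hν, ⟨κ, hκ⟩, h⟩
  have hSj : ∀ n x, x ∈ S n → ∀ j ≤ n, ((2 : ℤ) ^ j) • x ∈ S 0 := by
    intro n x hx j hj
    have h1 : x ∈ S ((n - j) + j) := by
      rw [Nat.sub_add_cancel hj]; exact hx
    exact hS.anti (Nat.zero_le _) (Chain.two_pow hS j _ _ h1)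
  let T : ℕ → Set G := fun n => {x | x ∈ S (2 * n + 1) ∧
    ∀ j ≤ 2 * n, ∃ ν ∈ N, ∃ κ : K₂, ‖χ κ‖ ≤ b ∧ ((2 : ℤ) ^ j) • x = ν + κ}
  have hTimp : ∀ n x, x ∈ T (n + 1) → ∀ j ≤ 2 * n, ∃ ν ∈ N, ∃ κ : K₂,
      ‖χ κ‖ ≤ b / 4 + 3 / 4 * ε ∧ ((2 : ℤ) ^ j) • x = ν + κ := by
    intro n x hx
    have key : ∀ j (B : ℝ), ∀ ν ∈ N, ∀ ν' ∈ N, ∀ κ κ' : K₂, ‖χ κ‖ ≤ b → ‖χ κ'‖ ≤ B →
        ((2 : ℤ) ^ j) • x = ν + κ → ((2 : ℤ) ^ (j + 1)) • x = ν' + κ' →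
        ‖χ κ‖ ≤ (B + ε) / 2 := by
      intro j B ν hν ν' hν' κ κ' h1 h2 h3 h4
      have h5 : (((2 : ℤ) • κ - κ' : K₂) : G) = ν' + -ν + -ν := by
        have h6 : (2 : ℤ) • (((2 : ℤ) ^ j) • x) = ((2 : ℤ) ^ (j + 1)) • x := by
          rw [← mul_smul, pow_succ, mul_comm]
        rw [h3, h4, smul_add] at h6
        push_cast
        have h7 : (2 : ℤ) • (κ : G) = ν' + κ' - (2 : ℤ) • ν := by
          rw [← h6]; abel
        rw [h7, two_zsmul]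
        abel
      have h6 := hN3' ν' hν' (-ν) (hNneg _ hν) (-ν) (hNneg _ hν) _ h5
      rw [map_sub, map_zsmul] at h6
      have h7 : ‖(2 : ℤ) • χ κ‖ ≤ ε + B := by
        have h8 : (2 : ℤ) • χ κ = ((2 : ℤ) • χ κ - χ κ') + χ κ' := by abel
        rw [h8]
        exact (norm_add_le _ _).trans (add_le_add h6 h2)
      rw [norm_two (h1.trans hb4)] at h7
      linarith
    intro j hj
    obtain ⟨ν0, hν0, κ0, hκ0, h0⟩ := hx.2 j (by omega)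
    obtain ⟨ν1, hν1, κ1, hκ1, h1⟩ := hx.2 (j + 1) (by omega)
    obtain ⟨ν2, hν2, κ2, hκ2, h2⟩ := hx.2 (j + 2) (by omega)
    have h3 := key (j + 1) b ν1 hν1 ν2 hν2 κ1 κ2 hκ1 hκ2 h1 h2
    have h4 := key j _ ν0 hν0 ν1 hν1 κ0 κ1 hκ0 h3 h0 h1
    refine ⟨ν0, hν0, κ0, ?_, h0⟩
    linarith
  have hTchain : Chain T := by
    refine ⟨fun n => ⟨hS.zero _, fun j _ => ⟨0, hN0, 0, by simpa using hb.le, by simp⟩⟩, ?_, ?_⟩
    · rintro n x ⟨hx, hx2⟩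
      refine ⟨hS.neg _ x hx, fun j hj => ?_⟩
      obtain ⟨ν, hν, κ, hκ, h1⟩ := hx2 j hj
      refine ⟨-ν, hNneg _ hν, -κ, by simpa using hκ, ?_⟩
      rw [smul_neg, h1]
      push_cast
      abel
    · intro n x hx y hy
      have hxy : x + y ∈ S (2 * n + 2) := hS.add (2 * n + 2) x hx.1 y hy.1
      refine ⟨hS.succ_subset _ hxy, fun j hj => ?_⟩
      obtain ⟨ν1, hν1, κ1, hκ1, h1⟩ := hTimp n x hx j hj
      obtain ⟨ν2, hν2, κ2, hκ2, h2⟩ := hTimp n y hy j hj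
      obtain ⟨ν3, hν3, κ3, h3⟩ := hS0' _ (hSj _ _ hxy j (by omega))
      refine ⟨ν3, hν3, κ3, ?_, h3⟩
      have h4 : ((κ3 - κ1 - κ2 : K₂) : G) = ν1 + ν2 + -ν3 := by
        rw [smul_add, h1, h2] at h3
        push_cast
        have h5 : (κ3 : G) = ν1 + κ1 + (ν2 + κ2) - ν3 := by rw [h3]; abel
        rw [h5]
        abel
      have h5 := hN3' ν1 hν1 ν2 hν2 (-ν3) (hNneg _ hν3) _ h4
      rw [map_sub, map_sub] at h5
      have h6 : χ κ3 = (χ κ3 - χ κ1 - χ κ2) + χ κ1 + χ κ2 := by abel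
      rw [h6]
      refine (norm_add_le _ _).trans ?_
      have h7 := norm_add_le (χ κ3 - χ κ1 - χ κ2) (χ κ1)
      linarith
  have hTn : ∀ n, T n ∈ 𝓝 (0 : G) := by
    intro n
    have h1 : ∀ j : ℕ, {x : G | ((2 : ℤ) ^ j) • x ∈ N} ∈ 𝓝 (0 : G) := by
      intro j
      have h2 : Continuous (fun x : G => ((2 : ℤ) ^ j) • x) := continuous_zsmul _
      have h3 := h2.tendsto 0
      simp only [smul_zero] at h3
      exact h3 hN
    have h2 : (⋂ j ∈ Finset.range (2 * n + 1), {x : G | ((2 : ℤ) ^ j) • x ∈ N}) ∈ 𝓝 (0 : G) :=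
      (Filter.biInter_finset_mem _).2 fun j _ => h1 j
    refine mem_of_superset (inter_mem (hSn (2 * n + 1)) h2) ?_
    rintro x ⟨hx1, hx2⟩
    refine ⟨hx1, fun j hj => ?_⟩
    rw [mem_iInter₂] at hx2
    refine ⟨_, hx2 j (by rw [Finset.mem_range]; omega), 0, by simpa using hb.le, by simp⟩
  have hTK : ∀ n, ∀ x ∈ T n, ∀ k ∈ K₁, x + k ∈ T n := by
    rintro n x ⟨hx1, hx2⟩ k hk
    refine ⟨hSK _ x hx1 k (hK hk), fun j hj => ?_⟩
    obtain ⟨ν, hν, κ, hκ, h1⟩ := hx2 j hj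
    refine ⟨ν, hν, κ + ((2 : ℤ) ^ j) • ⟨k, hK hk⟩, ?_, ?_⟩
    · rw [map_add, map_zsmul, (hker ⟨k, hK hk⟩).2 hk, smul_zero, add_zero]
      exact hκ
    · rw [smul_add, h1]
      push_cast
      abel
  have hT0 : ∀ x ∈ T 0, ∃ v ∈ V₀, ∃ k ∈ K₁, x = v + k := by
    rintro x ⟨-, hx2⟩
    obtain ⟨ν, hν, κ, hκ, h1⟩ := hx2 0 le_rfl
    obtain ⟨ν', hν', k, hk, h2⟩ := hb₀2 κ (hκ.trans hbb₀)
    rw [pow_zero, one_smul] at h1
    refine ⟨ν + ν', hN'2 _ (hNM hν).2 _ hν', k, hk, ?_⟩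
    rw [h1, h2]
    abel
  obtain ⟨U', hU', hU'2⟩ := exists_nhds_zero_half hU
  obtain ⟨n, F, hF⟩ := h T hTchain hTn hTK hT0 U' hU'
  -- finitely many translates cover K₂
  obtain ⟨F', hF'⟩ : ∃ F' : Finset G, ∀ x ∈ K₂, ∃ f ∈ F', x - f ∈ U' := by
    obtain ⟨t, ht, ht2⟩ := hc.elim_nhds_subcover (fun f => {x | x - f ∈ U'}) (fun f _ => by
      have h2 : Continuous (fun x : G => x - f) := by fun_prop
      have h3 := h2.tendsto f
      simp only [sub_self] at h3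
      exact h3 hU')
    refine ⟨t, fun x hx => ?_⟩
    have := ht2 hx
    simp only [mem_iUnion, mem_setOf_eq, exists_prop] at this
    exact this
  refine ⟨2 * n + 1, (F ×ˢ F').image (fun p => p.1 + p.2), ?_⟩
  intro x hx
  -- decompose x
  obtain ⟨κ, hκ⟩ : ∃ κ : K₂, x - κ ∈ T n := by
    have h1 : ∀ j, ∃ κ : K₂, j ≤ 2 * n → ∃ ν ∈ N, ((2 : ℤ) ^ j) • x = ν + κ := by
      intro j
      by_cases hj : j ≤ 2 * n
      · obtain ⟨ν, hν, κ, h2⟩ := hS0' _ (hSj _ _ hx j (by omega))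
        exact ⟨κ, fun _ => ⟨ν, hν, h2⟩⟩
      · exact ⟨0, fun h => absurd h hj⟩
    choose κ hκ using h1
    obtain ⟨α, hα, hα2⟩ := doubling χ.range hhalf hε2 hε.le (2 * n) (fun j => χ (κ j))
      (fun j _ => ⟨κ j, rfl⟩) (by
        intro j hj
        obtain ⟨ν, hν, h3⟩ := hκ j hj.le
        obtain ⟨ν', hν', h4⟩ := hκ (j + 1) hj
        have h5 : ((κ (j + 1) - (2 : ℤ) • κ j : K₂) : G) = ν + ν + -ν' := by
          have h6 : (2 : ℤ) • (((2 : ℤ) ^ j) • x) = ((2 : ℤ) ^ (j + 1)) • x := by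
            rw [← mul_smul, pow_succ, mul_comm]
          rw [h3, h4, smul_add] at h6
          push_cast
          have h7 : ((κ (j + 1) : K₂) : G) = (2 : ℤ) • ν + (2 : ℤ) • (κ j : G) - ν' := by
            rw [h6]; abel
          rw [h7, two_zsmul ν]
          abel
        have h6 := hN3' ν hν ν hν (-ν') (hNneg _ hν') _ h5
        rw [map_sub, map_zsmul] at h6
        exact h6)
    obtain ⟨β, rfl⟩ := hα
    refine ⟨β, ?_, fun j hj => ?_⟩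
    · rw [sub_eq_add_neg]
      exact hSK _ x hx _ (K₂.neg_mem β.2)
    · obtain ⟨ν, hν, h3⟩ := hκ j hj
      refine ⟨ν, hν, κ j - ((2 : ℤ) ^ j) • β, ?_, ?_⟩
      · rw [map_sub, map_zsmul]
        have := hα2 j hj
        linarith
      · rw [smul_sub, h3]
        push_cast
        abel
  obtain ⟨f, hf, hf2⟩ := hF _ hκ
  obtain ⟨f', hf', hf'2⟩ := hF' κ κ.2
  refine ⟨f + f', Finset.mem_image.2 ⟨(f, f'), Finset.mem_product.2 ⟨hf, hf'⟩, rfl⟩, ?_⟩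
  have h1 := hU'2 _ hf2 _ hf'2
  have h2 : x - (f + f') = x - κ - f + (κ - f') := by abel
  rw [h2]
  exact h1

end Pool.Agent.V1129.LMP
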