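import Pool.Agent.V1129.LMP3

set_option autoImplicit false

/-!
Quotients of complete locally minimal abelian groups modulo compact subgroups.
-/

namespace Pool.Agent.V1129.LMP

open Topology Filter Set
open Pool.Agent.H753R3.LM

/-- common zeros of a list of characters of `K` -/
def Lz {G : Type} [AddCommGroup G] (K : AddSubgroup G) (l : List (K →+ Cir)) : AddSubgroup G where
  carrier := {x | ∃ h : x ∈ K, ∀ χ ∈ l, χ ⟨x, h⟩ = 0}
  zero_mem' := ⟨K.zero_mem, fun χ _ => map_zero χ⟩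
  add_mem' := by
    rintro x y ⟨hx, hx2⟩ ⟨hy, hy2⟩
    refine ⟨K.add_mem hx hy, fun χ hχ => ?_⟩
    have h1 : (⟨x + y, K.add_mem hx hy⟩ : K) = ⟨x, hx⟩ + ⟨y, hy⟩ := rfl
    rw [h1, map_add, hx2 χ hχ, hy2 χ hχ, add_zero]
  neg_mem' := by
    rintro x ⟨hx, hx2⟩
    refine ⟨K.neg_mem hx, fun χ hχ => ?_⟩
    have h1 : (⟨-x, K.neg_mem hx⟩ : K) = -⟨x, hx⟩ := rfl
    rw [h1, map_neg, hx2 χ hχ, neg_zero]

lemma mem_Lz {G : Type} [AddCommGroup G] (K : AddSubgroup G) (l : List (K →+ Cir)) (x : G) :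
    x ∈ Lz K l ↔ ∃ h : x ∈ K, ∀ χ ∈ l, χ ⟨x, h⟩ = 0 := Iff.rfl

lemma Lz_le {G : Type} [AddCommGroup G] (K : AddSubgroup G) (l : List (K →+ Cir)) :
    Lz K l ≤ K := fun _ h => h.1

lemma Lz_nil {G : Type} [AddCommGroup G] (K : AddSubgroup G) : Lz K [] = K := by
  ext x
  rw [mem_Lz]
  simp

lemma Lz_compact {G : Type} [AddCommGroup G] [TopologicalSpace G] [IsTopologicalAddGroup G]
    [T2Space G] (K : AddSubgroup G) (hK : IsCompact (K : Set G)) (l : List (K →+ Cir))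
    (hl : ∀ χ ∈ l, Continuous χ) : IsCompact (Lz K l : Set G) := by
  have : CompactSpace K := isCompact_iff_compactSpace.1 hK
  have h1 : (Lz K l : Set G) = (fun x : K => (x : G)) '' {x : K | ∀ χ ∈ l, χ x = 0} := by
    ext x
    constructor
    · rintro ⟨h, h2⟩
      exact ⟨⟨x, h⟩, h2, rfl⟩
    · rintro ⟨⟨y, hy⟩, h2, rfl⟩
      exact ⟨hy, h2⟩
  rw [h1]
  refine IsCompact.image ?_ continuous_subtype_val
  refine IsClosed.isCompact ?_
  have h2 : {x : K | ∀ χ ∈ l, χ x = 0} = ⋂ χ ∈ l, {x : K | χ x = 0} := by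
    ext x
    simp
  rw [h2]
  exact isClosed_biInter fun χ hχ => isClosed_eq (hl χ hχ) continuous_const

/-- going up along a list of characters -/
lemma propK_list (G : Type) [AddCommGroup G] [TopologicalSpace G] [IsTopologicalAddGroup G]
    [T2Space G] (K : AddSubgroup G) (hK : IsCompact (K : Set G)) (l : List (K →+ Cir)) :
    (∀ χ ∈ l, Continuous χ) → ∀ V ∈ 𝓝 (0 : G), PropK G (Lz K l) V →
      ∃ N ∈ 𝓝 (0 : G), PropK G K N := by
  induction l with
  | nil =>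
    intro _ V hV h
    rw [Lz_nil] at h
    exact ⟨V, hV, h⟩
  | cons χ l ih =>
    intro hl V hV h
    have hl' : ∀ χ ∈ l, Continuous χ := fun ψ hψ => hl ψ (List.mem_cons_of_mem _ hψ)
    have hle : Lz K (χ :: l) ≤ Lz K l := by
      rintro x ⟨hx, hx2⟩
      exact ⟨hx, fun ψ hψ => hx2 ψ (List.mem_cons_of_mem _ hψ)⟩
    obtain ⟨N, hN, hN2⟩ := propK_step G (Lz K (χ :: l)) (Lz K l) (Lz_compact K hK l hl')
      (χ.comp (AddSubgroup.inclusion (Lz_le K l)))
      ((hl χ List.mem_cons_self).comp (continuous_inclusion (Lz_le K l))) hle (by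
        rintro ⟨x, hx⟩
        rw [mem_Lz]
        constructor
        · intro h0
          refine ⟨hx.1, fun ψ hψ => ?_⟩
          rcases List.mem_cons.1 hψ with rfl | hψ
          · exact h0
          · exact hx.2 ψ hψ
        · rintro ⟨h1, h2⟩
          exact h2 χ List.mem_cons_self) V hV h
    exact ih hl' N hN hN2

/-- small subgroups of a compact group cut out by finitely many characters -/
lemma exists_list (G : Type) [AddCommGroup G] [TopologicalSpace G] [IsTopologicalAddGroup G]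
    [T2Space G] (K : AddSubgroup G) (hK : IsCompact (K : Set G)) (V : Set G)
    (hV : V ∈ 𝓝 (0 : G)) :
    ∃ l : List (K →+ Cir), (∀ χ ∈ l, Continuous χ) ∧ (Lz K l : Set G) ⊆ V := by
  classical
  have : CompactSpace K := isCompact_iff_compactSpace.1 hK
  obtain ⟨O, hOV, hO, h0⟩ := mem_nhds_iff.1 hV
  let P : Set K := {x | (x : G) ∉ O}
  have hP : IsCompact P := by
    refine IsClosed.isCompact ?_
    exact (hO.preimage continuous_subtype_val).isClosed_compl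
  obtain ⟨t, ht⟩ := hP.elim_finite_subcover
    (fun χ : {χ : K →+ Cir // Continuous χ} => {x : K | χ.1 x ≠ 0})
    (fun χ => isOpen_ne.preimage χ.2) (by
      intro x hx
      have hx0 : x ≠ 0 := by
        rintro rfl
        exact hx h0
      obtain ⟨χ, hχ, h1⟩ := Pool.Agent.H428R3.LMT6.taskT6 K x hx0
      rw [mem_iUnion]
      refine ⟨⟨χ, hχ⟩, ?_⟩
      intro h2
      rw [h2] at h1
      norm_num at h1)
  refine ⟨(t.toList.map Subtype.val), ?_, ?_⟩
  · intro χ hχ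
    rw [List.mem_map] at hχ
    obtain ⟨a, -, rfl⟩ := hχ
    exact a.2
  · rintro x ⟨hx, hx2⟩
    apply hOV
    by_contra hxO
    have := ht (show (⟨x, hx⟩ : K) ∈ P from hxO)
    rw [mem_iUnion₂] at this
    obtain ⟨χ, hχ, h3⟩ := this
    exact h3 (hx2 _ (List.mem_map.2 ⟨χ, Finset.mem_toList.2 hχ, rfl⟩))

/-- every compact subgroup has the relative property -/
theorem exists_propK (G : Type) [AddCommGroup G] [UniformSpace G] [IsUniformAddGroup G] [T2Space G]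
    [CompleteSpace G] (V₀ : Set G) (hV₀ : V₀ ∈ 𝓝 (0 : G)) (hmin : ∀ σ : TopologicalSpace G,
          @IsTopologicalAddGroup G σ _ → @T2Space G σ →
          (UniformSpace.toTopologicalSpace : TopologicalSpace G) ≤ σ →
          V₀ ∈ @nhds G σ 0 → σ = (UniformSpace.toTopologicalSpace : TopologicalSpace G))
    (K : AddSubgroup G) (hK : IsCompact (K : Set G)) :
    ∃ N ∈ 𝓝 (0 : G), PropK G K N := by
  obtain ⟨V₁, hV₁, hV₁2⟩ := exists_nhds_zero_half hV₀
  obtain ⟨l, hl, hl2⟩ := exists_list G K hK V₁ hV₁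
  exact propK_list G K hK l hl V₁ hV₁ (propK_base G (propP G V₀ hmin) hV₁2 _ hl2)

/-- a group topology has a chain of neighbourhoods inside any given neighbourhood -/
lemma exists_chain (H : Type) [AddCommGroup H] [TopologicalSpace H] [IsTopologicalAddGroup H]
    (W : Set H) (hW : W ∈ 𝓝 (0 : H)) :
    ∃ S : ℕ → Set H, Chain S ∧ (∀ n, S n ∈ 𝓝 (0 : H)) ∧ S 0 ⊆ W := by
  have h1 : ∀ A : {A : Set H // A ∈ 𝓝 (0 : H)}, ∃ B : {A : Set H // A ∈ 𝓝 (0 : H)},
      (∀ x ∈ B.1, -x ∈ B.1) ∧ ∀ x ∈ B.1, ∀ y ∈ B.1, x + y ∈ A.1 := by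
    rintro ⟨A, hA⟩
    obtain ⟨B, hB, hB2⟩ := exists_nhds_zero_half hA
    refine ⟨⟨B ∩ -B, inter_mem hB (neg_mem_nhds_zero H hB)⟩, ?_, ?_⟩
    · rintro x ⟨h1, h2⟩
      exact ⟨h2, by simpa using h1⟩
    · rintro x ⟨hx, -⟩ y ⟨hy, -⟩
      exact hB2 x hx y hy
  choose f hf hf2 using h1
  let T : ℕ → {A : Set H // A ∈ 𝓝 (0 : H)} := fun n => Nat.rec (f ⟨W, hW⟩) (fun _ A => f A) n
  have hT0 : T 0 = f ⟨W, hW⟩ := rfl
  have hTs : ∀ n, T (n + 1) = f (T n) := fun n => rfl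
  refine ⟨fun n => (T n).1, ⟨fun n => mem_of_mem_nhds (T n).2, ?_, ?_⟩, fun n => (T n).2, ?_⟩
  · intro n
    cases n with
    | zero => exact hf _
    | succ n => exact hf _
  · intro n x hx y hy
    exact hf2 (T n) x hx y hy
  · intro x hx
    have := hf2 ⟨W, hW⟩ x hx 0 (mem_of_mem_nhds (f ⟨W, hW⟩).2)
    simpa using this

/-- the final step -/
theorem final (G : Type) [AddCommGroup G] [UniformSpace G] [IsUniformAddGroup G] [T2Space G]
    [CompleteSpace G] (K : AddSubgroup G) (V : Set G)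
    (h : PropK G K V) (σ : TopologicalSpace (G ⧸ K)) (hσ : @IsTopologicalAddGroup (G ⧸ K) σ _)
    (hσ2 : @T2Space (G ⧸ K) σ)
    (hle : (QuotientAddGroup.instTopologicalSpace K : TopologicalSpace (G ⧸ K)) ≤ σ)
    (hV : ((fun g : G => (g : G ⧸ K)) '' V) ∈ @nhds (G ⧸ K) σ 0) :
    σ = (QuotientAddGroup.instTopologicalSpace K : TopologicalSpace (G ⧸ K)) := by
  have hτ : @IsTopologicalAddGroup (G ⧸ K) (QuotientAddGroup.instTopologicalSpace K) _ := inferInstance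
  refine IsTopologicalAddGroup.ext hσ hτ (le_antisymm ?_ (_root_.nhds_mono hle))
  have hcont : @Continuous G (G ⧸ K) _ (QuotientAddGroup.instTopologicalSpace K)
      (fun g : G => (g : G ⧸ K)) := QuotientAddGroup.continuous_mk
  -- the chain
  obtain ⟨W, hW, hWn, hW0⟩ := @exists_chain (G ⧸ K) _ σ hσ _ hV
  have hSm : ∀ n, (fun g : G => (g : G ⧸ K)) ⁻¹' (W n) ∈ 𝓝 (0 : G) := by
    intro n
    have h1 : W n ∈ @nhds (G ⧸ K) (QuotientAddGroup.instTopologicalSpace K) 0 :=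
      (_root_.nhds_mono hle) (hWn n)
    have h2 := @Continuous.tendsto G (G ⧸ K) _ (QuotientAddGroup.instTopologicalSpace K) _ hcont 0
    exact h2 h1
  have hsml : ∀ U ∈ 𝓝 (0 : G), ∃ n, Sml ((fun g : G => (g : G ⧸ K)) ⁻¹' (W n)) U := by
    refine h (fun n => (fun g : G => (g : G ⧸ K)) ⁻¹' (W n)) ⟨?_, ?_, ?_⟩ hSm ?_ ?_
    · intro n; exact hW.zero n
    · intro n x hx
      show ((-x : G) : G ⧸ K) ∈ W n
      rw [QuotientAddGroup.mk_neg]
      exact hW.neg n _ hx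
    · intro n x hx y hy
      show ((x + y : G) : G ⧸ K) ∈ W n
      rw [QuotientAddGroup.mk_add]
      exact hW.add n _ hx _ hy
    · intro n x hx k hk
      show ((x + k : G) : G ⧸ K) ∈ W n
      rw [QuotientAddGroup.mk_add_of_mem x hk]
      exact hx
    · intro x hx
      obtain ⟨v, hv, hvx⟩ := hW0 hx
      refine ⟨v, hv, -v + x, ?_, by abel⟩
      exact QuotientAddGroup.eq.1 hvx
  rw [Filter.le_iff_ultrafilter]
  intro 𝒰 h𝒰
  have hsurj : Function.Surjective (fun g : G => (g : G ⧸ K)) := QuotientAddGroup.mk_surjective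
  have hne : (comap (fun g : G => (g : G ⧸ K)) (𝒰 : Filter (G ⧸ K))).NeBot :=
    𝒰.neBot.comap_of_surj hsurj
  let 𝒱 : Ultrafilter G := Ultrafilter.of (comap (fun g : G => (g : G ⧸ K)) 𝒰)
  have h𝒱 : (𝒱 : Filter G) ≤ comap (fun g : G => (g : G ⧸ K)) 𝒰 := Ultrafilter.of_le _
  have hmap : map (fun g : G => (g : G ⧸ K)) (𝒱 : Filter G) ≤ 𝒰 := map_le_iff_le_comap.2 h𝒱
  have hmap2 : ((𝒱.map (fun g : G => (g : G ⧸ K)) : Ultrafilter (G ⧸ K)) : Filter (G ⧸ K)) = 𝒰 := by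
    have h1 : ((𝒱.map (fun g : G => (g : G ⧸ K)) : Ultrafilter (G ⧸ K)) : Filter (G ⧸ K)) ≤ 𝒰 := hmap
    rw [Ultrafilter.coe_le_coe] at h1
    rw [h1]
  have hcauchy : Cauchy (𝒱 : Filter G) := by
    refine ⟨𝒱.neBot, ?_⟩
    rw [uniformity_eq_comap_nhds_zero G, ← tendsto_iff_comap]
    intro U hU
    rw [mem_map, mem_prod_self_iff]
    obtain ⟨U₁, hU₁, hU₁2⟩ := nhds_half_sub hU
    obtain ⟨n, F, hF⟩ := hsml U₁ hU₁
    have h1 : (fun g : G => (g : G ⧸ K)) ⁻¹' (W n) ∈ (𝒱 : Filter G) := by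
      apply h𝒱
      exact preimage_mem_comap (h𝒰 (hWn n))
    have h2 : (⋃ f ∈ F, {x | x - f ∈ U₁}) ∈ (𝒱 : Filter G) := by
      refine mem_of_superset h1 ?_
      intro x hx
      rw [mem_iUnion₂]
      obtain ⟨f, hf, hf2⟩ := hF x hx
      exact ⟨f, hf, hf2⟩
    have h3 : ∃ f ∈ F, {x | x - f ∈ U₁} ∈ (𝒱 : Filter G) := by
      have := (Ultrafilter.finite_biUnion_mem_iff F.finite_toSet (f := 𝒱)
        (s := fun f => {x | x - f ∈ U₁})).1 (by simpa using h2)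
      simpa using this
    obtain ⟨f, -, hf2⟩ := h3
    refine ⟨_, hf2, ?_⟩
    rintro ⟨x, y⟩ ⟨hx, hy⟩
    have := hU₁2 _ hy _ hx
    simpa using this
  obtain ⟨y, hy⟩ := CompleteSpace.complete hcauchy
  have h1 : (𝒰 : Filter (G ⧸ K)) ≤
      @nhds (G ⧸ K) (QuotientAddGroup.instTopologicalSpace K) ((y : G) : G ⧸ K) := by
    rw [← hmap2]
    exact (map_mono hy).trans
      (@Continuous.tendsto G (G ⧸ K) _ (QuotientAddGroup.instTopologicalSpace K) _ hcont y)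
  have h2 : (𝒰 : Filter (G ⧸ K)) ≤ @nhds (G ⧸ K) σ ((y : G) : G ⧸ K) :=
    h1.trans (_root_.nhds_mono hle)
  have h3 : ((y : G) : G ⧸ K) = 0 := by
    by_contra hne0
    have := (@disjoint_nhds_nhds (G ⧸ K) σ hσ2 _ _).2 hne0
    exact 𝒰.neBot.ne (le_bot_iff.1 (this h2 h𝒰))
  rw [h3] at h1
  exact h1

end Pool.Agent.V1129.LMP
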