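import Mathlib

set_option autoImplicit false

/-!
Locally commutative free rotation groups: blocks and direct sums.
-/

open Matrix

namespace Pool.Agent.V1129.Rot

/-- the free group of rank two -/
abbrev F : Type := FreeGroup (Fin 2)

/-- quaternions over a ring, as quadruples -/
@[ext] structure Qt (R : Type) where
  /-- real part -/
  a : R
  /-- first imaginary part -/
  b : R
  /-- second imaginary part -/
  c : R
  /-- third imaginary part -/
  d : R

namespace Qt

variable {R : Type} [CommRing R]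

instance : Mul (Qt R) := ⟨fun x y =>
  ⟨x.a * y.a - x.b * y.b - x.c * y.c - x.d * y.d,
   x.a * y.b + x.b * y.a + x.c * y.d - x.d * y.c,
   x.a * y.c - x.b * y.d + x.c * y.a + x.d * y.b,
   x.a * y.d + x.b * y.c - x.c * y.b + x.d * y.a⟩⟩

instance : One (Qt R) := ⟨⟨1, 0, 0, 0⟩⟩

@[simp] theorem one_a : (1 : Qt R).a = 1 := rfl
@[simp] theorem one_b : (1 : Qt R).b = 0 := rfl
@[simp] theorem one_c : (1 : Qt R).c = 0 := rfl
@[simp] theorem one_d : (1 : Qt R).d = 0 := rfl
@[simp] theorem mul_a (x y : Qt R) :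
    (x * y).a = x.a * y.a - x.b * y.b - x.c * y.c - x.d * y.d := rfl
@[simp] theorem mul_b (x y : Qt R) :
    (x * y).b = x.a * y.b + x.b * y.a + x.c * y.d - x.d * y.c := rfl
@[simp] theorem mul_c (x y : Qt R) :
    (x * y).c = x.a * y.c - x.b * y.d + x.c * y.a + x.d * y.b := rfl
@[simp] theorem mul_d (x y : Qt R) :
    (x * y).d = x.a * y.d + x.b * y.c - x.c * y.b + x.d * y.a := rfl

instance : Monoid (Qt R) where
  mul_assoc x y z := by ext <;> simp <;> ring
  one_mul x := by ext <;> simp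
  mul_one x := by ext <;> simp

/-- a scalar as a quaternion -/
def sc (r : R) : Qt R := ⟨r, 0, 0, 0⟩

@[simp] theorem sc_a (r : R) : (sc r).a = r := rfl
@[simp] theorem sc_b (r : R) : (sc r).b = 0 := rfl
@[simp] theorem sc_c (r : R) : (sc r).c = 0 := rfl
@[simp] theorem sc_d (r : R) : (sc r).d = 0 := rfl

/-- the squared norm -/
def nm : Qt R →* R where
  toFun x := x.a ^ 2 + x.b ^ 2 + x.c ^ 2 + x.d ^ 2
  map_one' := by simp
  map_mul' x y := by simp; ring

theorem nm_def (x : Qt R) : nm x = x.a ^ 2 + x.b ^ 2 + x.c ^ 2 + x.d ^ 2 := rfl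

/-- conjugation -/
def cj (x : Qt R) : Qt R := ⟨x.a, -x.b, -x.c, -x.d⟩

/-- left multiplication -/
def L4 : Qt R →* Matrix (Fin 4) (Fin 4) R where
  toFun x := !![x.a, -x.b, -x.c, -x.d; x.b, x.a, -x.d, x.c; x.c, x.d, x.a, -x.b;
    x.d, -x.c, x.b, x.a]
  map_one' := by ext i j; fin_cases i <;> fin_cases j <;> simp
  map_mul' x y := by
    ext i j
    fin_cases i <;> fin_cases j <;> simp [Matrix.mul_apply, Fin.sum_univ_four] <;> ring

/-- conjugation action on the pure quaternions, multiplied by the squared norm -/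
def R3 : Qt R →* Matrix (Fin 3) (Fin 3) R where
  toFun x := !![x.a ^ 2 + x.b ^ 2 - x.c ^ 2 - x.d ^ 2, 2 * (x.b * x.c - x.a * x.d),
      2 * (x.b * x.d + x.a * x.c);
    2 * (x.b * x.c + x.a * x.d), x.a ^ 2 - x.b ^ 2 + x.c ^ 2 - x.d ^ 2,
      2 * (x.c * x.d - x.a * x.b);
    2 * (x.b * x.d - x.a * x.c), 2 * (x.c * x.d + x.a * x.b),
      x.a ^ 2 - x.b ^ 2 - x.c ^ 2 + x.d ^ 2]
  map_one' := by ext i j; fin_cases i <;> fin_cases j <;> simp
  map_mul' x y := by
    ext i j
    fin_cases i <;> fin_cases j <;> simp [Matrix.mul_apply, Fin.sum_univ_three] <;> ring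

end Qt

/-! ### Freeness by reduction modulo 5 -/

/-- reduction of the integral quaternions modulo 5 -/
def red5 : Qt ℤ →* Matrix (Fin 2) (Fin 2) (ZMod 5) where
  toFun x := !![(x.a : ZMod 5) + 2 * x.b, x.c + 2 * x.d; -x.c + 2 * x.d, x.a - 2 * x.b]
  map_one' := by ext i j; fin_cases i <;> fin_cases j <;> simp
  map_mul' x y := by
    have h5 : (5 : ZMod 5) = 0 := by decide
    ext i j
    fin_cases i <;> fin_cases j <;> simp [Matrix.mul_apply, Fin.sum_univ_two]
    · linear_combination (-(x.b : ZMod 5) * y.b - x.d * y.d) * h5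
    · linear_combination (-(x.b : ZMod 5) * y.d + x.d * y.b) * h5
    · linear_combination (-(x.d : ZMod 5) * y.b + x.b * y.d) * h5
    · linear_combination (-(x.b : ZMod 5) * y.b - x.d * y.d) * h5

/-- the integral quaternions inside the real quaternions -/
def castR : Qt ℤ →* Qt ℝ where
  toFun x := ⟨x.a, x.b, x.c, x.d⟩
  map_one' := by ext <;> simp
  map_mul' x y := by ext <;> simp

theorem castR_injective : Function.Injective castR := by
  intro x y h
  have h1 := congrArg Qt.a h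
  have h2 := congrArg Qt.b h
  have h3 := congrArg Qt.c h
  have h4 := congrArg Qt.d h
  simp only [castR, MonoidHom.coe_mk, OneHom.coe_mk, Int.cast_inj] at h1 h2 h3 h4
  ext <;> assumption

/-- the four integral quaternions of norm 25 -/
def al : Fin 2 × Bool → Qt ℤ
  | (0, true) => ⟨3, 4, 0, 0⟩
  | (0, false) => ⟨3, -4, 0, 0⟩
  | (1, true) => ⟨3, 0, 4, 0⟩
  | (1, false) => ⟨3, 0, -4, 0⟩

/-- column vectors -/
def vv : Fin 2 × Bool → Fin 2 → ZMod 5
  | (0, true) => ![1, 0]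
  | (0, false) => ![0, 1]
  | (1, true) => ![1, 2]
  | (1, false) => ![1, 3]

/-- row vectors -/
def ps : Fin 2 × Bool → Fin 2 → ZMod 5
  | (0, true) => ![1, 0]
  | (0, false) => ![0, 1]
  | (1, true) => ![3, 4]
  | (1, false) => ![3, 1]

theorem red5_al (s : Fin 2 × Bool) : red5 (al s) = vecMulVec (vv s) (ps s) := by
  obtain ⟨i, b⟩ := s
  fin_cases i <;> cases b <;> ext i j <;> fin_cases i <;> fin_cases j <;> rfl

theorem ps_ne (s : Fin 2 × Bool) : ps s ≠ 0 := by
  revert s; decide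

theorem vv_ne (s : Fin 2 × Bool) : vv s ≠ 0 := by
  revert s; decide

theorem ps_vv : ∀ s t : Fin 2 × Bool, (s.1 = t.1 → s.2 = t.2) → ps s ⬝ᵥ vv t ≠ 0 := by
  decide

theorem red5_prod : ∀ (L : List (Fin 2 × Bool)) (s : Fin 2 × Bool),
    FreeGroup.IsReduced (s :: L) →
    ∃ χ : Fin 2 → ZMod 5, χ ≠ 0 ∧ red5 ((s :: L).map al).prod = vecMulVec (vv s) χ := by
  intro L
  induction L with
  | nil =>
    intro s _
    exact ⟨ps s, ps_ne s, by simpa using red5_al s⟩
  | cons t L ih =>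
    intro s hs
    rw [FreeGroup.isReduced_cons_cons] at hs
    obtain ⟨χ, hχ, h⟩ := ih t hs.2
    have hc := ps_vv s t hs.1
    have : Fact (Nat.Prime 5) := ⟨by norm_num⟩
    refine ⟨(ps s ⬝ᵥ vv t) • χ, smul_ne_zero hc hχ, ?_⟩
    rw [List.map_cons, List.prod_cons, map_mul, h, red5_al, vecMulVec_mul_vecMulVec,
      vecMulVec_smul]

theorem red5_prod_ne {L : List (Fin 2 × Bool)} (hL : L ≠ []) (h : FreeGroup.IsReduced L) :
    red5 (L.map al).prod ≠ 0 := by
  obtain ⟨s, L, rfl⟩ := List.exists_cons_of_ne_nil hL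
  obtain ⟨χ, hχ, h2⟩ := red5_prod L s h
  rw [h2]
  intro h0
  obtain ⟨i, hi⟩ := Function.ne_iff.1 (vv_ne s)
  obtain ⟨j, hj⟩ := Function.ne_iff.1 hχ
  have : Fact (Nat.Prime 5) := ⟨by norm_num⟩
  have := congrFun (congrFun h0 i) j
  rw [vecMulVec_apply, Matrix.zero_apply, mul_eq_zero] at this
  rcases this with h | h
  · exact hi h
  · exact hj h

/-- the unit quaternion `(3 + 4 i) / 5` -/
noncomputable def qa : (Qt ℝ)ˣ where
  val := ⟨3 / 5, 4 / 5, 0, 0⟩
  inv := ⟨3 / 5, -4 / 5, 0, 0⟩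
  val_inv := by ext <;> simp <;> norm_num
  inv_val := by ext <;> simp <;> norm_num

/-- the unit quaternion `(3 + 4 j) / 5` -/
noncomputable def qb : (Qt ℝ)ˣ where
  val := ⟨3 / 5, 0, 4 / 5, 0⟩
  inv := ⟨3 / 5, 0, -4 / 5, 0⟩
  val_inv := by ext <;> simp <;> norm_num
  inv_val := by ext <;> simp <;> norm_num

/-- the homomorphism from the free group to the quaternions -/
noncomputable def phi : F →* (Qt ℝ)ˣ := FreeGroup.lift ![qa, qb]

theorem castR_al (s : Fin 2 × Bool) :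
    castR (al s) = Qt.sc 5 * ((cond s.2 (![qa, qb] s.1) (![qa, qb] s.1)⁻¹ : (Qt ℝ)ˣ) : Qt ℝ) := by
  obtain ⟨i, b⟩ := s
  fin_cases i <;> cases b <;> ext <;> simp [castR, al, qa, qb] <;> norm_num

theorem sc_comm (r : ℝ) (x : Qt ℝ) : x * Qt.sc r = Qt.sc r * x := by
  ext <;> simp <;> ring

theorem sc_mul (r s : ℝ) : Qt.sc r * Qt.sc s = Qt.sc (r * s) := by
  ext <;> simp

theorem castR_prod (L : List (Fin 2 × Bool)) :
    castR (L.map al).prod = Qt.sc (5 ^ L.length) * ((phi (FreeGroup.mk L) : (Qt ℝ)ˣ) : Qt ℝ) := by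
  induction L with
  | nil =>
    have : phi (FreeGroup.mk []) = 1 := map_one phi
    rw [this]
    ext <;> simp
  | cons s L ih =>
    have h1 : phi (FreeGroup.mk (s :: L)) =
        cond s.2 (![qa, qb] s.1) (![qa, qb] s.1)⁻¹ * phi (FreeGroup.mk L) := by
      simp only [phi, FreeGroup.lift_mk, List.map_cons, List.prod_cons]
    rw [List.map_cons, List.prod_cons, map_mul, ih, castR_al, h1, Units.val_mul,
      List.length_cons]
    generalize ((cond s.2 (![qa, qb] s.1) (![qa, qb] s.1)⁻¹ : (Qt ℝ)ˣ) : Qt ℝ) = x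
    generalize ((phi (FreeGroup.mk L) : (Qt ℝ)ˣ) : Qt ℝ) = y
    rw [mul_assoc, ← mul_assoc x, sc_comm, mul_assoc, ← mul_assoc (Qt.sc 5), sc_mul, pow_succ']

theorem phi_ne {w : F} (hw : w ≠ 1) (n : ℤ) : ((phi w : (Qt ℝ)ˣ) : Qt ℝ) ≠ Qt.sc (n : ℝ) := by
  intro h
  have hL : w.toWord ≠ [] := by
    intro h0
    exact hw (FreeGroup.toWord_eq_nil_iff.1 h0)
  have hred : FreeGroup.IsReduced w.toWord := FreeGroup.isReduced_toWord
  have h1 := castR_prod w.toWord
  rw [FreeGroup.mk_toWord, h] at h1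
  have h2 : (w.toWord.map al).prod = Qt.sc (5 ^ w.toWord.length * n : ℤ) := by
    apply castR_injective
    rw [h1]
    ext <;> simp [castR]
  have h3 := red5_prod_ne hL hred
  apply h3
  rw [h2]
  have h5 : (5 : ZMod 5) = 0 := by decide
  have hlen : w.toWord.length ≠ 0 := fun h => hL (List.length_eq_zero_iff.1 h)
  have h6 : ((5 ^ w.toWord.length * n : ℤ) : ZMod 5) = 0 := by
    push_cast
    rw [h5, zero_pow hlen, zero_mul]
  ext i j
  fin_cases i <;> fin_cases j <;> simp [red5, h5, hlen]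

theorem phi_ne_one {w : F} (hw : w ≠ 1) : phi w ≠ 1 := by
  intro h
  apply phi_ne hw 1
  rw [h]; ext <;> simp

theorem phi_injective : Function.Injective phi :=
  (injective_iff_map_eq_one phi).2 fun w hw => by
    by_contra h
    exact phi_ne_one h hw

theorem phi_sq_ne {w : F} (hw : w ≠ 1) :
    ((phi w : (Qt ℝ)ˣ) : Qt ℝ) * ((phi w : (Qt ℝ)ˣ) : Qt ℝ) ≠ Qt.sc (-1) := by
  intro h
  have h1 : w * w ≠ 1 := by
    intro h1
    apply hw
    have : w ^ 2 = 1 ^ 2 := by rw [pow_two, h1, one_pow]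
    exact pow_left_injective (n := 2) (by norm_num) this
  apply phi_ne h1 (-1)
  rw [map_mul, Units.val_mul, h]
  simp

theorem nm_phi (w : F) : Qt.nm ((phi w : (Qt ℝ)ˣ) : Qt ℝ) = 1 := by
  have h : (Units.map (Qt.nm : Qt ℝ →* ℝ)).comp phi = 1 := by
    apply FreeGroup.ext_hom
    intro i
    ext
    fin_cases i
    · simp [phi, qa, Qt.nm_def]; norm_num
    · simp [phi, qb, Qt.nm_def]; norm_num
  have h2 := DFunLike.congr_fun h w
  exact congrArg Units.val h2

end Pool.Agent.V1129.Rot
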