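import Pool.Agent.V1129.Rot

set_option autoImplicit false

/-!
Locally commutative free rotation groups: blocks and direct sums, continued.
-/

open Matrix

namespace Pool.Agent.V1129.Rot

section defs

variable {ι κ : Type} [Fintype ι] [DecidableEq ι] [Fintype κ] [DecidableEq κ]

/-- local commutativity of a representation of the free group -/
def LC (ρ : F →* Matrix ι ι ℝ) : Prop :=
  ∀ (w₁ w₂ : F) (x : ι → ℝ), x ≠ 0 → ρ w₁ *ᵥ x = x → ρ w₂ *ᵥ x = x → w₁ * w₂ = w₂ * w₁

/-- orthogonality with prescribed determinant -/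
def Or (ρ : F →* Matrix ι ι ℝ) (δ : F → ℝ) : Prop :=
  ∀ w, (ρ w)ᵀ * ρ w = 1 ∧ (ρ w).det = δ w

/-- faithfulness -/
def Fa (ρ : F →* Matrix ι ι ℝ) : Prop := ∀ w, ρ w = 1 → w = 1

/-- some element has eigenvalue `-1` -/
def Ei (ρ : F →* Matrix ι ι ℝ) : Prop := ∃ (w : F) (x : ι → ℝ), x ≠ 0 ∧ ρ w *ᵥ x = -x

/-- direct sum of representations -/
def bs (ρ : F →* Matrix ι ι ℝ) (σ : F →* Matrix κ κ ℝ) :
    F →* Matrix (ι ⊕ κ) (ι ⊕ κ) ℝ where
  toFun w := fromBlocks (ρ w) 0 0 (σ w)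
  map_one' := by rw [map_one, map_one, fromBlocks_one]
  map_mul' v w := by rw [map_mul, map_mul, fromBlocks_multiply]; simp

theorem bs_apply (ρ : F →* Matrix ι ι ℝ) (σ : F →* Matrix κ κ ℝ) (w : F) :
    bs ρ σ w = fromBlocks (ρ w) 0 0 (σ w) := rfl

theorem bs_mulVec (ρ : F →* Matrix ι ι ℝ) (σ : F →* Matrix κ κ ℝ) (w : F) (x : ι ⊕ κ → ℝ) :
    bs ρ σ w *ᵥ x = Sum.elim (ρ w *ᵥ (x ∘ Sum.inl)) (σ w *ᵥ (x ∘ Sum.inr)) := by
  rw [bs_apply, fromBlocks_mulVec]
  simp

theorem LC.bs {ρ : F →* Matrix ι ι ℝ} {σ : F →* Matrix κ κ ℝ} (h1 : LC ρ) (h2 : LC σ) :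
    LC (bs ρ σ) := by
  intro w₁ w₂ x hx e1 e2
  rw [bs_mulVec] at e1 e2
  by_cases h : x ∘ Sum.inl = 0
  · have h' : x ∘ Sum.inr ≠ 0 := by
      intro h'
      apply hx
      funext i
      rcases i with i | i
      · exact congrFun h i
      · exact congrFun h' i
    apply h2 w₁ w₂ _ h'
    · funext i; exact congrFun e1 (Sum.inr i)
    · funext i; exact congrFun e2 (Sum.inr i)
  · apply h1 w₁ w₂ _ h
    · funext i; exact congrFun e1 (Sum.inl i)
    · funext i; exact congrFun e2 (Sum.inl i)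

theorem Or.bs {ρ : F →* Matrix ι ι ℝ} {σ : F →* Matrix κ κ ℝ} {δ δ' : F → ℝ}
    (h1 : Or ρ δ) (h2 : Or σ δ') : Or (bs ρ σ) (fun w => δ w * δ' w) := by
  intro w
  rw [bs_apply]
  constructor
  · rw [fromBlocks_transpose, fromBlocks_multiply]
    simp [(h1 w).1, (h2 w).1]
  · rw [det_fromBlocks_zero₂₁, (h1 w).2, (h2 w).2]

theorem Fa.bs {ρ : F →* Matrix ι ι ℝ} (σ : F →* Matrix κ κ ℝ) (h1 : Fa ρ) : Fa (bs ρ σ) := by
  intro w h
  apply h1
  have := congrArg Matrix.toBlocks₁₁ h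
  rw [bs_apply, toBlocks_fromBlocks₁₁] at this
  rw [this]
  ext i j
  simp [Matrix.toBlocks₁₁, Matrix.one_apply]

theorem Ei.bs {ρ : F →* Matrix ι ι ℝ} (σ : F →* Matrix κ κ ℝ) (h1 : Ei ρ) : Ei (bs ρ σ) := by
  obtain ⟨w, x, hx, h⟩ := h1
  refine ⟨w, Sum.elim x 0, ?_, ?_⟩
  · intro h0
    apply hx
    funext i
    exact congrFun h0 (Sum.inl i)
  · rw [bs_mulVec]
    funext i
    rcases i with i | i
    · simpa using congrFun h i
    · simp

/-- transport to another index type -/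
def tr (e : ι ≃ κ) (ρ : F →* Matrix ι ι ℝ) : F →* Matrix κ κ ℝ where
  toFun w := (ρ w).submatrix e.symm e.symm
  map_one' := by rw [map_one, submatrix_one_equiv]
  map_mul' v w := by rw [map_mul, submatrix_mul_equiv]

theorem tr_apply (e : ι ≃ κ) (ρ : F →* Matrix ι ι ℝ) (w : F) :
    tr e ρ w = (ρ w).submatrix e.symm e.symm := rfl

theorem tr_mulVec (e : ι ≃ κ) (ρ : F →* Matrix ι ι ℝ) (w : F) (x : κ → ℝ) :
    tr e ρ w *ᵥ x = (ρ w *ᵥ (x ∘ e)) ∘ e.symm := by
  rw [tr_apply, submatrix_mulVec_equiv]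
  rfl

theorem tr_fix (e : ι ≃ κ) {ρ : F →* Matrix ι ι ℝ} {w : F} {x : κ → ℝ}
    (h : tr e ρ w *ᵥ x = x) : ρ w *ᵥ (x ∘ e) = x ∘ e := by
  rw [tr_mulVec] at h
  funext i
  have := congrFun h (e i)
  simpa using this

theorem LC.tr (e : ι ≃ κ) {ρ : F →* Matrix ι ι ℝ} (h1 : LC ρ) : LC (tr e ρ) := by
  intro w₁ w₂ x hx e1 e2
  refine h1 w₁ w₂ (x ∘ e) ?_ (tr_fix e e1) (tr_fix e e2)
  intro h0
  apply hx
  funext i
  have := congrFun h0 (e.symm i)
  simpa using this

theorem Or.tr (e : ι ≃ κ) {ρ : F →* Matrix ι ι ℝ} {δ : F → ℝ} (h1 : Or ρ δ) : Or (tr e ρ) δ := by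
  intro w
  rw [tr_apply]
  constructor
  · rw [transpose_submatrix, submatrix_mul_equiv, (h1 w).1, submatrix_one_equiv]
  · rw [det_submatrix_equiv_self, (h1 w).2]

theorem Fa.tr (e : ι ≃ κ) {ρ : F →* Matrix ι ι ℝ} (h1 : Fa ρ) : Fa (tr e ρ) := by
  intro w h
  apply h1
  rw [tr_apply] at h
  ext i j
  have := congrFun (congrFun h (e i)) (e j)
  simpa [Matrix.one_apply] using this

theorem Ei.tr (e : ι ≃ κ) {ρ : F →* Matrix ι ι ℝ} (h1 : Ei ρ) : Ei (tr e ρ) := by
  obtain ⟨w, x, hx, h⟩ := h1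
  refine ⟨w, x ∘ e.symm, ?_, ?_⟩
  · intro h0
    apply hx
    funext i
    have := congrFun h0 (e i)
    simpa using this
  · rw [tr_mulVec]
    have : (x ∘ e.symm) ∘ e = x := by funext i; simp
    rw [this, h]
    rfl

end defs

/-! ### The three-dimensional blocks -/

/-- the pure quaternion of a vector -/
def hat (x : Fin 3 → ℝ) : Qt ℝ := ⟨0, x 0, x 1, x 2⟩

theorem hat_R3 (u : Qt ℝ) (x : Fin 3 → ℝ) : hat (Qt.R3 u *ᵥ x) = u * hat x * Qt.cj u := by
  ext <;> simp [hat, Qt.R3, Qt.cj, Matrix.mulVec, dotProduct, Fin.sum_univ_three] <;> ring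

theorem cj_mul (u : Qt ℝ) : Qt.cj u * u = Qt.sc (Qt.nm u) := by
  ext <;> simp [Qt.cj, Qt.nm_def] <;> ring

/-- the underlying quaternion of a word -/
noncomputable def qw : F →* Qt ℝ := (Units.coeHom (Qt ℝ)).comp phi

theorem nm_qw (w : F) : Qt.nm (qw w) = 1 := nm_phi w

/-- the three-dimensional representation -/
noncomputable def rho3 : F →* Matrix (Fin 3) (Fin 3) ℝ := Qt.R3.comp qw

theorem rho3_fix {w : F} {x : Fin 3 → ℝ} {t : ℝ} (h : rho3 w *ᵥ x = t • x) :
    qw w * hat x = Qt.sc t * hat x * qw w := by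
  have h1 : hat (Qt.R3 (qw w) *ᵥ x) = Qt.sc t * hat x := by
    have h2 : Qt.R3 (qw w) *ᵥ x = t • x := h
    rw [h2]
    ext <;> simp [hat]
  rw [hat_R3] at h1
  have h2 := congrArg (fun y => y * qw w) h1
  rw [mul_assoc, cj_mul, nm_qw] at h2
  rw [← h2]
  ext <;> simp

theorem comm_of_fix {u v : Qt ℝ} {x : Fin 3 → ℝ} (hx : x ≠ 0) (hu : u * hat x = hat x * u)
    (hv : v * hat x = hat x * v) : u * v = v * u := by
  have u2 := congrArg Qt.b hu
  have u3 := congrArg Qt.c hu
  have u4 := congrArg Qt.d hu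
  have v2 := congrArg Qt.b hv
  have v3 := congrArg Qt.c hv
  have v4 := congrArg Qt.d hv
  simp [hat] at u2 u3 u4 v2 v3 v4
  have key : ∀ t : ℝ, t * x 0 = 0 → t * x 1 = 0 → t * x 2 = 0 → t = 0 := by
    intro t h0 h1 h2
    by_contra ht
    apply hx
    funext i
    fin_cases i
    · exact (mul_eq_zero.1 h0).resolve_left ht
    · exact (mul_eq_zero.1 h1).resolve_left ht
    · exact (mul_eq_zero.1 h2).resolve_left ht
  have e1 : u.c * x 2 - u.d * x 1 = 0 := by linarith
  have e2 : u.d * x 0 - u.b * x 2 = 0 := by linarith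
  have e3 : u.b * x 1 - u.c * x 0 = 0 := by linarith
  have f1 : v.c * x 2 - v.d * x 1 = 0 := by linarith
  have f2 : v.d * x 0 - v.b * x 2 = 0 := by linarith
  have f3 : v.b * x 1 - v.c * x 0 = 0 := by linarith
  have k1 : u.c * v.d - u.d * v.c = 0 := by
    apply key
    · linear_combination u.c * f2 + u.d * f3 + v.b * e1
    · linear_combination v.c * e1 - u.c * f1
    · linear_combination v.d * e1 - u.d * f1
  have k2 : u.d * v.b - u.b * v.d = 0 := by
    apply key
    · linear_combination v.b * e2 - u.b * f2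
    · linear_combination u.d * f3 + u.b * f1 + v.c * e2
    · linear_combination v.d * e2 - u.d * f2
  have k3 : u.b * v.c - u.c * v.b = 0 := by
    apply key
    · linear_combination v.b * e3 - u.b * f3
    · linear_combination v.c * e3 - u.c * f3
    · linear_combination u.b * f1 + u.c * f2 + v.d * e3
  ext
  · simp; ring
  · simp; linear_combination 2 * k1
  · simp; linear_combination 2 * k2
  · simp; linear_combination 2 * k3

theorem qw_injective : Function.Injective qw := fun _ _ h => phi_injective (Units.ext h)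

theorem LC_rho3 : LC rho3 := by
  intro w₁ w₂ x hx h1 h2
  have e1 := rho3_fix (t := 1) (by rw [one_smul]; exact h1)
  have e2 := rho3_fix (t := 1) (by rw [one_smul]; exact h2)
  have e0 : Qt.sc (1 : ℝ) * hat x = hat x := by ext <;> simp
  rw [e0] at e1 e2
  apply qw_injective
  rw [map_mul, map_mul]
  exact comm_of_fix hx e1 e2

theorem Or_rho3 : Or rho3 (fun _ => 1) := by
  intro w
  have h := nm_qw w
  rw [Qt.nm_def] at h
  show (Qt.R3 (qw w))ᵀ * Qt.R3 (qw w) = 1 ∧ (Qt.R3 (qw w)).det = 1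
  generalize qw w = u at h
  constructor
  · have h2 : (Qt.R3 u)ᵀ = Qt.R3 (Qt.cj u) := by
      ext i j
      fin_cases i <;> fin_cases j <;> simp [Qt.R3, Qt.cj] <;> ring
    rw [h2, ← map_mul, cj_mul, Qt.nm_def, h]
    have : Qt.sc (1 : ℝ) = 1 := by ext <;> simp
    rw [this, map_one]
  · have : (Qt.R3 u).det = (u.a ^ 2 + u.b ^ 2 + u.c ^ 2 + u.d ^ 2) ^ 3 := by
      rw [Matrix.det_fin_three]
      simp [Qt.R3]
      ring
    rw [this, h, one_pow]

theorem qw_ne_of {w : F} (hw : w ≠ 1) (ha : (qw w).a ^ 2 = 1) (hb : (qw w).b = 0)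
    (hc : (qw w).c = 0) (hd : (qw w).d = 0) : False := by
  have h1 : ((qw w).a - 1) * ((qw w).a + 1) = 0 := by linear_combination ha
  rcases mul_eq_zero.1 h1 with h | h
  · refine phi_ne hw 1 ?_
    show qw w = _
    ext
    · simp; linarith
    · simpa using hb
    · simpa using hc
    · simpa using hd
  · refine phi_ne hw (-1) ?_
    show qw w = _
    ext
    · simp; linarith
    · simpa using hb
    · simpa using hc
    · simpa using hd

theorem rho3_ne {w : F} (hw : w ≠ 1) : rho3 w ≠ 1 := by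
  intro h
  have hn := nm_qw w
  rw [Qt.nm_def] at hn
  have h0 : Qt.R3 (qw w) = 1 := h
  have h1 := congrFun (congrFun h0 0) 0
  have h2 := congrFun (congrFun h0 1) 1
  simp [Qt.R3] at h1 h2
  have hc : (qw w).c = 0 := by nlinarith [sq_nonneg (qw w).c, sq_nonneg (qw w).d]
  have hd : (qw w).d = 0 := by nlinarith [sq_nonneg (qw w).c, sq_nonneg (qw w).d]
  have hb : (qw w).b = 0 := by nlinarith [sq_nonneg (qw w).b, sq_nonneg (qw w).d]
  have ha : (qw w).a ^ 2 = 1 := by nlinarith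
  exact qw_ne_of hw ha hb hc hd

/-- the sign character, `-1` on the first generator and `1` on the second -/
def eps : F →* ℤˣ := FreeGroup.lift ![-1, 1]

/-- the twisted three-dimensional representation -/
noncomputable def rho3' : F →* Matrix (Fin 3) (Fin 3) ℝ where
  toFun w := (((eps w : ℤˣ) : ℤ) : ℝ) • rho3 w
  map_one' := by simp
  map_mul' v w := by
    rw [map_mul, map_mul, Units.val_mul, Int.cast_mul, smul_mul_smul_comm]

theorem rho3'_apply (w : F) : rho3' w = (((eps w : ℤˣ) : ℤ) : ℝ) • rho3 w := rfl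

theorem eps_cases (w : F) : eps w = 1 ∨ eps w = -1 := Int.units_eq_one_or _

theorem rho3'_fix {w : F} {x : Fin 3 → ℝ} (hx : x ≠ 0) (h : rho3' w *ᵥ x = x) :
    eps w = 1 := by
  rcases eps_cases w with h1 | h1
  · exact h1
  · exfalso
    have hw : w ≠ 1 := by
      rintro rfl
      rw [map_one] at h1
      exact absurd h1 (by decide)
    rw [rho3'_apply, h1] at h
    have h2 : rho3 w *ᵥ x = (-1 : ℝ) • x := by
      simp only [Units.val_neg, Units.val_one, Int.cast_neg, Int.cast_one, neg_smul, one_smul,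
        neg_mulVec] at h
      rw [neg_smul, one_smul, eq_neg_iff_add_eq_zero]
      rw [neg_eq_iff_add_eq_zero] at h
      exact h
    have h3 := rho3_fix h2
    have hn := nm_qw w
    rw [Qt.nm_def] at hn
    have u2 := congrArg Qt.b h3
    have u3 := congrArg Qt.c h3
    have u4 := congrArg Qt.d h3
    simp [hat] at u2 u3 u4
    have ha : (qw w).a = 0 := by
      by_contra hne
      apply hx
      funext i
      fin_cases i
      · exact (mul_eq_zero.1 (by linarith : (qw w).a * x 0 = 0)).resolve_left hne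
      · exact (mul_eq_zero.1 (by linarith : (qw w).a * x 1 = 0)).resolve_left hne
      · exact (mul_eq_zero.1 (by linarith : (qw w).a * x 2 = 0)).resolve_left hne
    apply phi_sq_ne hw
    show qw w * qw w = _
    ext
    · simp [ha]; nlinarith
    · simp [ha]; ring
    · simp [ha]; ring
    · simp [ha]; ring

theorem LC_rho3' : LC rho3' := by
  intro w₁ w₂ x hx h1 h2
  have e1 := rho3'_fix hx h1
  have e2 := rho3'_fix hx h2
  rw [rho3'_apply, e1, Units.val_one, Int.cast_one, one_smul] at h1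
  rw [rho3'_apply, e2, Units.val_one, Int.cast_one, one_smul] at h2
  exact LC_rho3 w₁ w₂ x hx h1 h2

theorem Or_rho3' : Or rho3' (fun w => (((eps w : ℤˣ) : ℤ) : ℝ)) := by
  intro w
  obtain ⟨h1, h2⟩ := Or_rho3 w
  rw [rho3'_apply]
  rcases eps_cases w with h | h
  · simp only [h]; simp [h1, h2]
  · simp only [h]
    constructor
    · simp [h1]
    · rw [det_smul, h2]
      simp; norm_num

theorem Fa_rho3' : Fa rho3' := by
  intro w h
  by_contra hw
  have hx : (![1, 0, 0] : Fin 3 → ℝ) ≠ 0 := by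
    intro h0
    have := congrFun h0 0
    simp at this
  have h1 := rho3'_fix (w := w) hx (by rw [h, one_mulVec])
  rw [rho3'_apply, h1, Units.val_one, Int.cast_one, one_smul] at h
  exact rho3_ne hw h

theorem Ei_rho3' : Ei rho3' := by
  refine ⟨FreeGroup.of 0, ![1, 0, 0], ?_, ?_⟩
  · intro h0
    have := congrFun h0 0
    simp at this
  · have h1 : eps (FreeGroup.of 0) = -1 := by simp [eps]
    have h2 : qw (FreeGroup.of 0) = ⟨3 / 5, 4 / 5, 0, 0⟩ := by
      show ((phi (FreeGroup.of 0) : (Qt ℝ)ˣ) : Qt ℝ) = _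
      simp [phi, qa]
    have h3 : rho3 (FreeGroup.of 0) = Qt.R3 (qw (FreeGroup.of 0)) := rfl
    rw [rho3'_apply, h1, h3, h2]
    funext i
    fin_cases i <;> simp [Qt.R3, Matrix.mulVec, dotProduct, Fin.sum_univ_three] <;> norm_num

/-! ### The four-dimensional block -/

/-- right multiplication of a quaternion by a complex number -/
def R4 : ℂ →* Matrix (Fin 4) (Fin 4) ℝ where
  toFun z := !![z.re, -z.im, 0, 0; z.im, z.re, 0, 0; 0, 0, z.re, z.im; 0, 0, -z.im, z.re]
  map_one' := by ext i j; fin_cases i <;> fin_cases j <;> simp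
  map_mul' x y := by
    ext i j
    fin_cases i <;> fin_cases j <;> simp [Matrix.mul_apply, Fin.sum_univ_four] <;> ring

theorem L4_R4 (u : Qt ℝ) (z : ℂ) : R4 z * Qt.L4 u = Qt.L4 u * R4 z := by
  ext i j
  fin_cases i <;> fin_cases j <;> simp [R4, Qt.L4, Matrix.mul_apply, Fin.sum_univ_four] <;> ring

/-- the complex number `(-3 + 4 i) / 5` -/
noncomputable def za : ℂˣ where
  val := ⟨-3 / 5, 4 / 5⟩
  inv := ⟨-3 / 5, -4 / 5⟩
  val_inv := by apply Complex.ext <;> simp <;> norm_num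
  inv_val := by apply Complex.ext <;> simp <;> norm_num

/-- the character of the free group -/
noncomputable def chi : F →* ℂˣ := FreeGroup.lift ![za, 1]

theorem normSq_chi (w : F) : Complex.normSq ((chi w : ℂˣ) : ℂ) = 1 := by
  have h : (Units.map (Complex.normSq : ℂ →*₀ ℝ).toMonoidHom).comp chi = 1 := by
    apply FreeGroup.ext_hom
    intro i
    ext
    fin_cases i
    · simp [chi, za, Complex.normSq_apply]; norm_num
    · simp [chi]
  have h2 := DFunLike.congr_fun h w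
  exact congrArg Units.val h2

/-- the four-dimensional representation -/
noncomputable def rho4 : F →* Matrix (Fin 4) (Fin 4) ℝ where
  toFun w := Qt.L4 (qw w) * R4 ((chi w : ℂˣ) : ℂ)
  map_one' := by simp
  map_mul' v w := by
    rw [map_mul, map_mul, map_mul, Units.val_mul, map_mul]
    rw [mul_assoc, mul_assoc]
    congr 1
    rw [← mul_assoc, ← mul_assoc, L4_R4]

theorem rho4_apply (w : F) : rho4 w = Qt.L4 (qw w) * R4 ((chi w : ℂˣ) : ℂ) := rfl

/-- the quaternion of a vector -/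
def hat4 (x : Fin 4 → ℝ) : Qt ℝ := ⟨x 0, x 1, x 2, x 3⟩

theorem hat4_L4 (u : Qt ℝ) (x : Fin 4 → ℝ) : hat4 (Qt.L4 u *ᵥ x) = u * hat4 x := by
  ext <;> simp [hat4, Qt.L4, Matrix.mulVec, dotProduct, Fin.sum_univ_four] <;> ring

theorem L4_fix {w : F} {x : Fin 4 → ℝ} (hx : x ≠ 0) (h : Qt.L4 (qw w) *ᵥ x = x) : w = 1 := by
  have h1 := hat4_L4 (qw w) x
  rw [h] at h1
  have h2 := congrArg (fun y => y * Qt.cj (hat4 x)) h1
  have h3 : hat4 x * Qt.cj (hat4 x) = Qt.sc (Qt.nm (hat4 x)) := by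
    ext <;> simp [Qt.cj, Qt.nm_def] <;> ring
  have h4 : Qt.sc (Qt.nm (hat4 x)) = qw w * Qt.sc (Qt.nm (hat4 x)) := by
    rw [← h3, ← mul_assoc]
    exact h2
  have hn : Qt.nm (hat4 x) ≠ 0 := by
    intro h0
    apply hx
    rw [Qt.nm_def] at h0
    simp only [hat4] at h0
    funext i
    fin_cases i
    · show x 0 = 0
      nlinarith [sq_nonneg (x 0), sq_nonneg (x 1), sq_nonneg (x 2), sq_nonneg (x 3)]
    · show x 1 = 0
      nlinarith [sq_nonneg (x 0), sq_nonneg (x 1), sq_nonneg (x 2), sq_nonneg (x 3)]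
    · show x 2 = 0
      nlinarith [sq_nonneg (x 0), sq_nonneg (x 1), sq_nonneg (x 2), sq_nonneg (x 3)]
    · show x 3 = 0
      nlinarith [sq_nonneg (x 0), sq_nonneg (x 1), sq_nonneg (x 2), sq_nonneg (x 3)]
  generalize Qt.nm (hat4 x) = m at h4 hn
  have e1 := congrArg Qt.a h4
  have e2 := congrArg Qt.b h4
  have e3 := congrArg Qt.c h4
  have e4 := congrArg Qt.d h4
  simp at e1 e2 e3 e4
  apply qw_injective
  rw [map_one]
  ext
  · have : ((qw w).a - 1) * m = 0 := by linear_combination -e1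
    have := (mul_eq_zero.1 this).resolve_right hn
    simp; linarith
  · simp; exact e2.resolve_right hn
  · simp; exact e3.resolve_right hn
  · simp; exact e4.resolve_right hn

theorem LC_rho4 : LC rho4 := by
  intro w₁ w₂ x hx h1 h2
  have i1 : rho4 w₁⁻¹ *ᵥ x = x := by
    conv_lhs => rw [← h1]
    rw [mulVec_mulVec, ← map_mul, inv_mul_cancel, map_one, one_mulVec]
  have i2 : rho4 w₂⁻¹ *ᵥ x = x := by
    conv_lhs => rw [← h2]
    rw [mulVec_mulVec, ← map_mul, inv_mul_cancel, map_one, one_mulVec]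
  have h3 : rho4 (w₁ * w₂ * w₁⁻¹ * w₂⁻¹) *ᵥ x = x := by
    rw [map_mul, map_mul, map_mul, ← mulVec_mulVec, i2, ← mulVec_mulVec, i1, ← mulVec_mulVec,
      h2, h1]
  have h4 : chi (w₁ * w₂ * w₁⁻¹ * w₂⁻¹) = 1 := by
    rw [map_mul, map_mul, map_mul, map_inv, map_inv, mul_comm (chi w₁), mul_assoc (chi w₂),
      mul_inv_cancel, mul_one, mul_inv_cancel]
  rw [rho4_apply, h4, Units.val_one, map_one, mul_one] at h3
  have h5 := L4_fix hx h3
  have h6 : w₁ * w₂ * (w₂ * w₁)⁻¹ = 1 := by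
    rw [_root_.mul_inv_rev, ← mul_assoc]
    exact h5
  exact mul_inv_eq_one.1 h6

theorem Or_rho4 : Or rho4 (fun _ => 1) := by
  intro w
  have h := nm_qw w
  have hz := normSq_chi w
  rw [Qt.nm_def] at h
  rw [Complex.normSq_apply] at hz
  rw [rho4_apply]
  generalize qw w = u at h
  generalize ((chi w : ℂˣ) : ℂ) = z at hz
  have k1 : (Qt.L4 u)ᵀ * Qt.L4 u = 1 := by
    have h2 : (Qt.L4 u)ᵀ = Qt.L4 (Qt.cj u) := by
      ext i j
      fin_cases i <;> fin_cases j <;> simp [Qt.L4, Qt.cj]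
    rw [h2, ← map_mul, cj_mul, Qt.nm_def, h]
    have : Qt.sc (1 : ℝ) = 1 := by ext <;> simp
    rw [this, map_one]
  have k2 : (R4 z)ᵀ * R4 z = 1 := by
    ext i j
    fin_cases i <;> fin_cases j <;>
      simp [R4, Matrix.mul_apply, Fin.sum_univ_four] <;> linarith
  constructor
  · rw [transpose_mul, mul_assoc, ← mul_assoc _ (Qt.L4 u), k1, one_mul, k2]
  · have d1 : (Qt.L4 u).det = (u.a ^ 2 + u.b ^ 2 + u.c ^ 2 + u.d ^ 2) ^ 2 := by
      simp [Qt.L4, Matrix.det_succ_row_zero, Fin.sum_univ_succ, Fin.succAbove]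
      ring
    have d2 : (R4 z).det = (z.re * z.re + z.im * z.im) ^ 2 := by
      simp [R4, Matrix.det_succ_row_zero, Fin.sum_univ_succ, Fin.succAbove]
      ring
    rw [det_mul, d1, d2, h, hz]
    norm_num

theorem Fa_rho4 : Fa rho4 := by
  intro w h
  by_contra hw
  have hn := nm_qw w
  rw [Qt.nm_def] at hn
  have hz := normSq_chi w
  rw [Complex.normSq_apply] at hz
  rw [rho4_apply] at h
  have h1 := congrFun (congrFun h 0) 0
  have h2 := congrFun (congrFun h 1) 0
  have h3 := congrFun (congrFun h 2) 2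
  have h4 := congrFun (congrFun h 2) 0
  have h5 := congrFun (congrFun h 3) 0
  simp [R4, Qt.L4, Matrix.mul_apply, Fin.sum_univ_four] at h1 h2 h3 h4 h5
  generalize ((chi w : ℂˣ) : ℂ) = z at *
  have bq : (qw w).b * z.im = 0 := by linarith
  have ap : (qw w).a * z.re = 1 := by linarith
  have ha : (qw w).a ≠ 0 := by intro h0; rw [h0] at ap; simp at ap
  have hp : z.re ≠ 0 := by intro h0; rw [h0] at ap; simp at ap
  have hq : z.im = 0 := by
    have : (qw w).a * z.im ^ 2 = 0 := by linear_combination z.im * h2 - z.re * bq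
    have := (mul_eq_zero.1 this).resolve_left ha
    exact pow_eq_zero_iff (two_ne_zero) |>.1 this
  rw [hq] at h2 h4 h5
  have hb : (qw w).b = 0 := by
    have : (qw w).b * z.re = 0 := by linarith
    exact (mul_eq_zero.1 this).resolve_right hp
  have hc : (qw w).c = 0 := by
    have : (qw w).c * z.re = 0 := by linarith
    exact (mul_eq_zero.1 this).resolve_right hp
  have hd : (qw w).d = 0 := by
    have : (qw w).d * z.re = 0 := by linarith
    exact (mul_eq_zero.1 this).resolve_right hp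
  refine qw_ne_of hw ?_ hb hc hd
  rw [hb, hc, hd] at hn
  linarith

theorem Ei_rho4 : Ei rho4 := by
  refine ⟨FreeGroup.of 0, ![1, 0, 0, 0], ?_, ?_⟩
  · intro h0
    have := congrFun h0 0
    simp at this
  · have h2 : qw (FreeGroup.of 0) = ⟨3 / 5, 4 / 5, 0, 0⟩ := by
      show ((phi (FreeGroup.of 0) : (Qt ℝ)ˣ) : Qt ℝ) = _
      simp [phi, qa]
    have h3 : ((chi (FreeGroup.of 0) : ℂˣ) : ℂ) = ⟨-3 / 5, 4 / 5⟩ := by
      simp [chi, za]
    rw [rho4_apply, h2, h3]
    funext i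
    fin_cases i <;>
      simp [R4, Qt.L4, Matrix.mulVec, dotProduct, Fin.sum_univ_four, Matrix.mul_apply] <;>
      norm_num

end Pool.Agent.V1129.Rot
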