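import Mathlib

set_option autoImplicit false

/-!
The dual of the metrizable group of all functions `ℕ → 𝕋` with the topology of uniform convergence
is not determined by convergent sequences.
-/

namespace Pool.Agent.V1129.SG

open Topology Filter

/-- the circle `ℝ/ℤ` -/
abbrev TT : Type := UnitAddCircle

/-- the group of all functions `ℕ → ℝ/ℤ` with the supremum norm -/
abbrev GG : Type := BoundedContinuousFunction ℕ TT

/-- the dual group with the compact-open topology -/
abbrev DD : Type := ContinuousAddMonoidHom GG TT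

/-! ### the circle -/

lemma cir_lift (t : TT) : ∃ r : ℝ, (r : TT) = t ∧ |r| = ‖t‖ := by
  obtain ⟨s, rfl⟩ := QuotientAddGroup.mk_surjective t
  refine ⟨s - round s, ?_, ?_⟩
  · rw [AddCircle.coe_sub]
    have : ((round s : ℝ) : TT) = 0 := by
      rw [AddCircle.coe_eq_zero_iff]
      exact ⟨round s, by simp⟩
    rw [this, sub_zero]
  · rw [show (QuotientAddGroup.mk s : TT) = (s : TT) from rfl, AddCircle.norm_eq]
    simp

lemma norm_coe_le (r : ℝ) : ‖(r : TT)‖ ≤ |r| := by
  rw [AddCircle.norm_eq]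
  simp only [inv_one, one_mul, mul_one]
  have := round_le r 0
  simpa using this

lemma norm_coe_eq {r : ℝ} (h : |r| ≤ 1 / 2) : ‖(r : TT)‖ = |r| := by
  rw [AddCircle.norm_coe_eq_abs_iff 1 one_ne_zero]
  simpa using h

/-- elements of order two have norm greater than `1/4` -/
lemma quarter_lt {t : TT} (h2 : (2 : ℕ) • t = 0) (h0 : t ≠ 0) : 1 / 4 < ‖t‖ := by
  by_contra hcon
  push Not at hcon
  obtain ⟨r, rfl, hr⟩ := cir_lift t
  rw [← hr] at hcon
  rw [← AddCircle.coe_nsmul] at h2
  have h3 : ‖((2 • r : ℝ) : TT)‖ = |2 • r| := by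
    apply norm_coe_eq
    rw [nsmul_eq_mul, abs_mul]
    norm_num
    linarith
  rw [h2, norm_zero] at h3
  have h4 : (2 • r : ℝ) = 0 := abs_eq_zero.1 h3.symm
  have h5 : r = 0 := by
    rw [nsmul_eq_mul] at h4
    push_cast at h4
    linarith
  apply h0
  rw [h5]
  rfl

lemma norm_half : ‖(((1 / 2 : ℝ)) : TT)‖ = 1 / 2 := by
  rw [norm_coe_eq (by rw [abs_of_pos]; norm_num), abs_of_pos]
  norm_num

/-! ### functions -/

/-- all functions are bounded -/
noncomputable def bf (f : ℕ → TT) : GG :=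
  BoundedContinuousFunction.ofNormedAddCommGroupDiscrete f (1 / 2) fun x => by
    obtain ⟨r, hr, hr2⟩ := cir_lift (f x)
    have := AddCircle.norm_le_half_period 1 one_ne_zero (x := f x)
    simpa using this

@[simp] lemma bf_apply (f : ℕ → TT) (k : ℕ) : bf f k = f k := rfl

open Classical in
/-- the function with the value `c` on `A` and `0` elsewhere -/
noncomputable def ind (c : ℝ) (A : Set ℕ) : GG := bf fun k => if k ∈ A then (c : TT) else 0

open Classical in
lemma ind_apply (c : ℝ) (A : Set ℕ) (k : ℕ) : ind c A k = if k ∈ A then (c : TT) else 0 := rfl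

lemma ind_of_mem {c : ℝ} {A : Set ℕ} {k : ℕ} (h : k ∈ A) : ind c A k = (c : TT) := by
  rw [ind_apply, if_pos h]

lemma ind_of_notMem {c : ℝ} {A : Set ℕ} {k : ℕ} (h : k ∉ A) : ind c A k = 0 := by
  rw [ind_apply, if_neg h]

lemma ind_union (c : ℝ) {A B : Set ℕ} (h : Disjoint A B) : ind c (A ∪ B) = ind c A + ind c B := by
  ext k
  show ind c (A ∪ B) k = ind c A k + ind c B k
  by_cases hA : k ∈ A
  · have hB : k ∉ B := Set.disjoint_left.1 h hA
    rw [ind_of_mem (Or.inl hA), ind_of_mem hA, ind_of_notMem hB, add_zero]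
  · by_cases hB : k ∈ B
    · rw [ind_of_mem (Or.inr hB), ind_of_notMem hA, ind_of_mem hB, zero_add]
    · rw [ind_of_notMem (by simp [hA, hB]), ind_of_notMem hA, ind_of_notMem hB, zero_add]

lemma ind_smul (n : ℕ) (c : ℝ) (A : Set ℕ) : n • ind c A = ind (n * c) A := by
  ext k
  show n • (ind c A k) = ind (n * c) A k
  by_cases hA : k ∈ A
  · rw [ind_of_mem hA, ind_of_mem hA, ← AddCircle.coe_nsmul, nsmul_eq_mul]
  · rw [ind_of_notMem hA, ind_of_notMem hA, smul_zero]

lemma two_ind (A : Set ℕ) : (2 : ℕ) • ind (1 / 2) A = 0 := by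
  rw [ind_smul]
  ext k
  show ind _ A k = 0
  by_cases hA : k ∈ A
  · rw [ind_of_mem hA]
    norm_num
  · rw [ind_of_notMem hA]

lemma ind_empty (c : ℝ) : ind c ∅ = 0 := by
  ext k
  show ind c ∅ k = 0
  rw [ind_of_notMem (Set.notMem_empty k)]

/-- characters take the values `0` and `1/2` on the functions with values `0`, `1/2` -/
lemma quarter_ind (χ : DD) (A : Set ℕ) (h : χ (ind (1 / 2) A) ≠ 0) :
    1 / 4 < ‖χ (ind (1 / 2) A)‖ := by
  refine quarter_lt ?_ h
  rw [← map_nsmul, two_ind, map_zero]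

lemma norm_sum_le {ι : Type} (t : Finset ι) (A : ι → Set ℕ) (z : ι → GG) {c : ℝ} (hc : 0 ≤ c)
    (hd : ∀ i ∈ t, ∀ j ∈ t, i ≠ j → Disjoint (A i) (A j)) (hz : ∀ i k, k ∉ A i → z i k = 0)
    (hn : ∀ i k, ‖z i k‖ ≤ c) : ‖∑ i ∈ t, z i‖ ≤ c := by
  rw [BoundedContinuousFunction.norm_le hc]
  intro k
  rw [BoundedContinuousFunction.sum_apply]
  by_cases h : ∃ i ∈ t, k ∈ A i
  · obtain ⟨i, hi, hk⟩ := h
    rw [Finset.sum_eq_single i]
    · exact hn i k
    · intro j hj hji
      apply hz
      exact Set.disjoint_right.1 (hd j hj i hi hji) hk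
    · intro h
      exact absurd hi h
  · push Not at h
    rw [Finset.sum_eq_zero fun i hi => hz i k (h i hi), norm_zero]
    exact hc

/-- a character is non-zero on a bounded number of disjoint sets -/
lemma few (χ : DD) : ∃ C : ℕ, ∀ (ι : Type) (t : Finset ι) (A : ι → Set ℕ),
    (∀ i ∈ t, ∀ j ∈ t, i ≠ j → Disjoint (A i) (A j)) →
    (∀ i ∈ t, χ (ind (1 / 2) (A i)) ≠ 0) → t.card ≤ C := by
  classical
  -- continuity
  obtain ⟨ε, hε, hχ⟩ : ∃ ε : ℝ, 0 < ε ∧ ∀ x : GG, ‖x‖ < ε → ‖χ x‖ < 1 / 8 := by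
    have h1 : Continuous χ := χ.continuous_toFun
    have h2 := Metric.continuous_iff.1 h1 0 (1 / 8) (by norm_num)
    obtain ⟨ε, hε, h⟩ := h2
    refine ⟨ε, hε, fun x hx => ?_⟩
    have := h x (by rwa [dist_zero_right])
    rwa [map_zero, dist_zero_right] at this
  obtain ⟨m, hm⟩ := exists_nat_gt (1 / ε)
  have hm0 : (0 : ℝ) < m := lt_trans (by positivity) hm
  have hmε : 1 / (2 * (m : ℝ)) < ε := by
    rw [div_lt_iff₀ (by positivity)]
    rw [div_lt_iff₀ hε] at hm
    nlinarith
  have hm1 : (1 : ℝ) ≤ m := by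
    have : 0 < m := by exact_mod_cast hm0
    exact_mod_cast this
  set c : ℝ := 1 / (2 * (m : ℝ)) with hc
  have hc0 : 0 < c := by positivity
  have hc2 : |c| ≤ 1 / 2 := by
    rw [abs_of_pos hc0, hc]
    apply one_div_le_one_div_of_le (by norm_num)
    linarith
  refine ⟨m, fun ι t A hd hne => ?_⟩
  -- real lifts
  choose r hr hr2 using fun i : ι => cir_lift (χ (ind c (A i)))
  have hr8 : ∀ i, |r i| < 1 / 8 := by
    intro i
    rw [hr2]
    apply hχ
    refine lt_of_le_of_lt ?_ hmε
    rw [BoundedContinuousFunction.norm_le hc0.le]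
    intro k
    by_cases hk : k ∈ A i
    · rw [ind_of_mem hk, norm_coe_eq hc2, abs_of_pos hc0]
    · rw [ind_of_notMem hk, norm_zero]
      exact hc0.le
  have hrm : ∀ i ∈ t, 1 / (4 * (m : ℝ)) ≤ |r i| := by
    intro i hi
    have h1 := quarter_ind χ (A i) (hne i hi)
    have h2 : ind (1 / 2) (A i) = m • ind c (A i) := by
      rw [ind_smul]
      congr 1
      rw [hc]
      field_simp
    rw [h2, map_nsmul, ← hr i, ← AddCircle.coe_nsmul] at h1
    have h3 := norm_coe_le (m • r i)
    rw [nsmul_eq_mul, abs_mul, Nat.abs_cast] at h3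
    rw [nsmul_eq_mul] at h1
    rw [div_le_iff₀ (by positivity)]
    nlinarith
  let z : ι → GG := fun i => if 0 ≤ r i then ind c (A i) else -ind c (A i)
  have hzχ : ∀ i, χ (z i) = ((|r i| : ℝ) : TT) := by
    intro i
    by_cases h : 0 ≤ r i
    · simp only [z, if_pos h]
      rw [abs_of_nonneg h, hr]
    · simp only [z, if_neg h]
      rw [map_neg, ← hr, abs_of_neg (not_le.1 h), AddCircle.coe_neg]
  have hz0 : ∀ i k, k ∉ A i → z i k = 0 := by
    intro i k hk
    by_cases h : 0 ≤ r i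
    · simp only [z, if_pos h]
      exact ind_of_notMem hk
    · simp only [z, if_neg h]
      show -(ind c (A i) k) = 0
      rw [ind_of_notMem hk, neg_zero]
  have hzn : ∀ i k, ‖z i k‖ ≤ c := by
    intro i k
    by_cases hk : k ∈ A i
    · by_cases h : 0 ≤ r i
      · simp only [z, if_pos h]
        rw [ind_of_mem hk, norm_coe_eq hc2, abs_of_pos hc0]
      · simp only [z, if_neg h]
        show ‖-(ind c (A i) k)‖ ≤ c
        rw [norm_neg, ind_of_mem hk, norm_coe_eq hc2, abs_of_pos hc0]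
    · rw [hz0 i k hk, norm_zero]
      exact hc0.le
  have key : ∀ s : Finset ι, s ⊆ t → ∑ i ∈ s, |r i| < 1 / 8 := by
    intro s
    induction s using Finset.induction_on with
    | empty => intro _; simp
    | insert a s ha ih =>
      intro hs
      have h1 := ih ((Finset.subset_insert a s).trans hs)
      rw [Finset.sum_insert ha]
      have h2 := hr8 a
      have h3 : 0 ≤ ∑ i ∈ s, |r i| := Finset.sum_nonneg fun i _ => abs_nonneg _
      have h4 : χ (∑ i ∈ insert a s, z i) = ((|r a| + ∑ i ∈ s, |r i| : ℝ) : TT) := by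
        rw [map_sum]
        simp only [hzχ]
        rw [Finset.sum_insert ha, AddCircle.coe_add]
        congr 1
        clear h1 h3 hs ih ha
        induction s using Finset.induction_on with
        | empty => simp
        | insert b s hb ih2 => rw [Finset.sum_insert hb, Finset.sum_insert hb, AddCircle.coe_add, ih2]
      have h5 : ‖∑ i ∈ insert a s, z i‖ ≤ c := norm_sum_le _ A z hc0.le
        (fun i hi j hj hij => hd i (hs hi) j (hs hj) hij) hz0 hzn
      have h6 := hχ _ (lt_of_le_of_lt h5 hmε)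
      rw [h4, norm_coe_eq, abs_of_nonneg (by positivity)] at h6
      · exact h6
      · rw [abs_of_nonneg (by positivity)]
        linarith
  have h1 := key t subset_rfl
  have h2 : (t.card : ℝ) * (1 / (4 * (m : ℝ))) ≤ ∑ i ∈ t, |r i| := by
    rw [← nsmul_eq_mul]
    exact Finset.card_nsmul_le_sum t _ _ hrm
  have h3 : (t.card : ℝ) * (1 / (4 * (m : ℝ))) < 1 / 8 := lt_of_le_of_lt h2 h1
  rw [mul_one_div, div_lt_iff₀ (by positivity)] at h3
  have h4 : (t.card : ℝ) ≤ m := by linarith
  exact_mod_cast h4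

end Pool.Agent.V1129.SG
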