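import Pool.Agent.V1129.SG1

set_option autoImplicit false

/-!
Null sequences in the dual.
-/

namespace Pool.Agent.V1129.SG

open Topology Filter

/-- the coordinates on which a character is non-trivial -/
def Sx (χ : DD) : Set ℕ := {k | χ (ind (1 / 2) {k}) ≠ 0}

/-- the characters which are trivial on the coordinate functions with value `1/2` -/
def NN : AddSubgroup DD where
  carrier := {χ | ∀ k, χ (ind (1 / 2) {k}) = 0}
  zero_mem' := fun _ => rfl
  add_mem' := by
    intro χ ψ h h' k
    show χ _ + ψ _ = 0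
    rw [h k, h' k, add_zero]
  neg_mem' := by
    intro χ h k
    show -χ _ = 0
    rw [h k, neg_zero]

lemma Sx_finite (χ : DD) : (Sx χ).Finite := by
  obtain ⟨C, hC⟩ := few χ
  by_contra hinf
  obtain ⟨t, ht, htc⟩ := Set.Infinite.exists_subset_card_eq hinf (C + 1)
  have := hC ℕ t (fun k => {k}) (fun i _ j _ hij => by simpa using hij) (fun i hi => ht hi)
  omega

/-- a character vanishes on finite sets disjoint from its support -/
lemma finite_zero (χ : DD) (A : Set ℕ) (hA : A.Finite) (hd : Disjoint A (Sx χ)) :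
    χ (ind (1 / 2) A) = 0 := by
  induction A, hA using Set.Finite.induction_on with
  | empty => rw [ind_empty, map_zero]
  | @insert a s ha _ ih =>
    have h1 : insert a s = {a} ∪ s := rfl
    rw [h1, ind_union _ (by simpa using ha), map_add, ih (hd.mono_left (Set.subset_insert a s)),
      add_zero]
    by_contra h
    exact Set.disjoint_left.1 hd (Set.mem_insert a s) h

/-- evaluation is continuous -/
lemma cont_eval (x : GG) : Continuous fun χ : DD => χ x :=
  (ContinuousEvalConst.continuous_eval_const x)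

lemma eventually_zero {χ : ℕ → DD} (h : Tendsto χ atTop (𝓝 0)) (A : Set ℕ) :
    ∀ᶠ j in atTop, χ j (ind (1 / 2) A) = 0 := by
  have h1 : Tendsto (fun j => χ j (ind (1 / 2) A)) atTop (𝓝 0) := by
    have := ((cont_eval (ind (1 / 2) A)).tendsto 0).comp h
    exact this
  have h2 : ∀ᶠ j in atTop, ‖χ j (ind (1 / 2) A)‖ < 1 / 4 := by
    have := Metric.tendsto_nhds.1 h1 (1 / 4) (by norm_num)
    simpa [dist_zero_right] using this
  filter_upwards [h2] with j hj
  by_contra hne
  have := quarter_ind (χ j) A hne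
  linarith

/-! ### almost disjoint sets -/

/-- codes of initial segments -/
def cod (α : ℕ → Bool) (n : ℕ) : ℕ := Encodable.encode ((List.range n).map α)

lemma cod_inj {α β : ℕ → Bool} {n m : ℕ} (h : cod α n = cod β m) :
    n = m ∧ ∀ i < n, α i = β i := by
  have h1 : (List.range n).map α = (List.range m).map β := Encodable.encode_injective h
  have h2 : n = m := by
    have := congrArg List.length h1
    simpa using this
  subst h2
  refine ⟨rfl, fun i hi => ?_⟩
  rw [List.map_inj_left] at h1
  exact h1 i (List.mem_range.2 hi)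

/-- the almost disjoint family -/
def JJ (α : ℕ → Bool) : Set ℕ := Set.range (cod α)

lemma JJ_infinite (α : ℕ → Bool) : (JJ α).Infinite :=
  Set.infinite_range_of_injective fun _ _ h => (cod_inj h).1

lemma JJ_inter {α β : ℕ → Bool} (h : α ≠ β) : (JJ α ∩ JJ β).Finite := by
  obtain ⟨i, hi⟩ := Function.ne_iff.1 h
  refine ((Set.finite_Iic i).image (cod α)).subset ?_
  rintro x ⟨⟨n, rfl⟩, ⟨m, hm⟩⟩
  refine ⟨n, ?_, rfl⟩
  by_contra hn
  rw [Set.mem_Iic, not_le] at hn
  exact hi ((cod_inj hm.symm).2 i hn)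

lemma uncountable_bool : ¬ Countable (ℕ → Bool) := by
  intro h
  have h1 : Countable (Set ℕ) := by
    classical
    refine Function.Injective.countable (f := fun A : Set ℕ => fun n => decide (n ∈ A)) ?_
    intro A B hAB
    ext n
    have := congrFun hAB n
    simpa using this
  obtain ⟨f, hf⟩ := h1.exists_injective_nat
  exact Function.cantor_injective f hf

/-- null sequences are eventually in `NN` -/
theorem eventually_mem {χ : ℕ → DD} (h : Tendsto χ atTop (𝓝 0)) :
    ∀ᶠ j in atTop, χ j ∈ NN := by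
  classical
  by_contra hcon
  have hfreq : ∃ᶠ j in atTop, (Sx (χ j)).Nonempty := by
    rw [Filter.not_eventually] at hcon
    refine hcon.mono fun j hj => ?_
    by_contra hemp
    rw [Set.not_nonempty_iff_eq_empty] at hemp
    apply hj
    intro k
    by_contra hk
    have : k ∈ Sx (χ j) := hk
    rw [hemp] at this
    exact this
  have hev : ∀ T : Set ℕ, T.Finite → ∀ᶠ j in atTop, Disjoint T (Sx (χ j)) := by
    intro T hT
    have h1 : ∀ᶠ j in atTop, ∀ k ∈ T, χ j (ind (1 / 2) {k}) = 0 :=
      (Filter.eventually_all_finite hT).2 fun k _ => eventually_zero h {k}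
    filter_upwards [h1] with j hj
    rw [Set.disjoint_left]
    exact fun k hk hk2 => hk2 (hj k hk)
  obtain ⟨f, hf1, hf2⟩ := exists_seq_of_forall_finset_exists
    (fun j => (Sx (χ j)).Nonempty) (fun j j' => Disjoint (Sx (χ j)) (Sx (χ j')) ∧ j < j') (by
      intro s _
      have h1 : ∀ᶠ j in atTop, ∀ i ∈ s, Disjoint (Sx (χ i)) (Sx (χ j)) ∧ i < j := by
        refine (Filter.eventually_all_finset s).2 fun i _ => ?_
        exact (hev _ (Sx_finite _)).and (eventually_gt_atTop i)
      obtain ⟨j, hj1, hj2⟩ := (hfreq.and_eventually h1).exists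
      exact ⟨j, hj1, hj2⟩)
  have hmono : StrictMono f := fun a b hab => (hf2 a b hab).2
  have hdisj : ∀ a b, a ≠ b → Disjoint (Sx (χ (f a))) (Sx (χ (f b))) := by
    intro a b hab
    rcases lt_or_gt_of_ne hab with h1 | h1
    · exact (hf2 a b h1).1
    · exact (hf2 b a h1).1.symm
  choose k hk using hf1
  have hkinj : Function.Injective k := by
    intro a b hab
    by_contra hne
    have h1 := Set.disjoint_left.1 (hdisj a b hne) (hk a)
    rw [hab] at h1
    exact h1 (hk b)
  have hkn : ∀ a b, a ≠ b → k a ∉ Sx (χ (f b)) := fun a b hab =>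
    Set.disjoint_left.1 (hdisj a b hab) (hk a)
  let B : (ℕ → Bool) → ℕ → Set ℕ := fun α i => k '' (JJ α \ {i})
  have hBd : ∀ α i, Disjoint (B α i) (Sx (χ (f i))) := by
    intro α i
    rw [Set.disjoint_left]
    rintro _ ⟨a, ⟨-, ha⟩, rfl⟩
    exact hkn a i ha
  have hbad : ∀ i, {α | χ (f i) (ind (1 / 2) (B α i)) ≠ 0}.Finite := by
    intro i
    obtain ⟨C, hC⟩ := few (χ (f i))
    by_contra hinf
    obtain ⟨t, ht, htc⟩ := Set.Infinite.exists_subset_card_eq hinf (C + 1)
    let A : (ℕ → Bool) → Set ℕ := fun α => B α i \ ⋃ β ∈ t.erase α, B β i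
    have h1 : ∀ α ∈ t, χ (f i) (ind (1 / 2) (A α)) ≠ 0 := by
      intro α hα
      have h2 : B α i = A α ∪ (B α i ∩ ⋃ β ∈ t.erase α, B β i) :=
        (Set.sdiff_union_inter _ _).symm
      have h3 : (B α i ∩ ⋃ β ∈ t.erase α, B β i).Finite := by
        rw [Set.inter_iUnion₂]
        refine Set.Finite.biUnion (t.erase α).finite_toSet fun β hβ => ?_
        have hne : α ≠ β := fun h => (Finset.mem_erase.1 hβ).1 h.symm
        have h4 : B α i ∩ B β i = k '' ((JJ α \ {i}) ∩ (JJ β \ {i})) :=
          (Set.image_inter hkinj).symm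
        rw [h4]
        refine Set.Finite.image _ ((JJ_inter hne).subset ?_)
        rintro x ⟨h5, h6⟩
        exact ⟨h5.1, h6.1⟩
      have h4 : χ (f i) (ind (1 / 2) (B α i ∩ ⋃ β ∈ t.erase α, B β i)) = 0 :=
        finite_zero _ _ h3 ((hBd α i).mono_left Set.inter_subset_left)
      have h5 : χ (f i) (ind (1 / 2) (B α i)) ≠ 0 := ht hα
      rw [h2, ind_union _ (Set.disjoint_sdiff_inter), map_add, h4, add_zero] at h5
      exact h5
    have h2 := hC (ℕ → Bool) t A (by
      intro α hα β hβ hαβ
      rw [Set.disjoint_left]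
      rintro x ⟨h3, h4⟩ ⟨h5, -⟩
      apply h4
      rw [Set.mem_iUnion₂]
      exact ⟨β, Finset.mem_erase.2 ⟨hαβ.symm, hβ⟩, h5⟩) h1
    omega
  -- a good member of the family
  obtain ⟨α, hα⟩ : ∃ α, ∀ i, χ (f i) (ind (1 / 2) (B α i)) = 0 := by
    by_contra hno
    push Not at hno
    apply uncountable_bool
    rw [← Set.countable_univ_iff]
    refine (Set.countable_iUnion fun i => (hbad i).countable).mono ?_
    intro α _
    rw [Set.mem_iUnion]
    exact hno α
  have h1 := (hmono.tendsto_atTop).eventually (eventually_zero h (k '' JJ α))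
  obtain ⟨n, hn⟩ := Filter.eventually_atTop.1 h1
  obtain ⟨i, hi, hin⟩ := (JJ_infinite α).exists_gt n
  have h2 := hn i hin.le
  have h3 : k '' JJ α = B α i ∪ {k i} := by
    rw [← Set.image_singleton, ← Set.image_union]
    congr 1
    rw [Set.sdiff_union_self, Set.union_singleton, Set.insert_eq_of_mem hi]
  have h4 : Disjoint (B α i) {k i} := by
    rw [Set.disjoint_singleton_right]
    rintro ⟨a, ⟨-, ha⟩, hak⟩
    exact ha (hkinj hak)
  rw [h3, ind_union _ h4, map_add, hα i, zero_add] at h2
  exact hk i h2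

/-! ### `NN` is not open -/

/-- evaluation at a coordinate -/
noncomputable def del (k : ℕ) : DD where
  toFun := fun x => x k
  map_zero' := rfl
  map_add' := fun _ _ => rfl
  continuous_toFun := by
    exact (BoundedContinuousFunction.lipschitz_eval_const k).continuous

lemma del_apply (k : ℕ) (x : GG) : del k x = x k := rfl

theorem not_nhds : (NN : Set DD) ∉ 𝓝 (0 : DD) := by
  intro hN
  rw [(ContinuousAddMonoidHom.isInducing_toContinuousMap GG TT).nhds_eq_comap, mem_comap] at hN
  obtain ⟨V, hV, hVN⟩ := hN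
  have hb := (ContinuousMap.hasBasis_compactConvergenceUniformity (α := GG) (β := TT))
  obtain ⟨⟨K, W⟩, ⟨hK, hW⟩, hKW⟩ := (nhds_basis_uniformity' hb).mem_iff.1 hV
  obtain ⟨ε, hε, hεW⟩ := Metric.mem_uniformity_dist.1 hW
  -- total boundedness
  obtain ⟨t, -, ht⟩ := hK.elim_finite_subcover_image (b := Set.univ)
    (c := fun x : GG => Metric.ball x (ε / 3)) (fun x _ => Metric.isOpen_ball) (by
      intro x _
      rw [Set.mem_iUnion₂]
      exact ⟨x, trivial, Metric.mem_ball_self (by positivity)⟩)
  obtain ⟨htf, htK⟩ := ht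
  have : Finite t := htf
  have : Fintype t := Fintype.ofFinite t
  let u : ℕ → (t → TT) := fun k x => (x : GG) k
  obtain ⟨a, -, φ, hφ, hlim⟩ := isCompact_univ.tendsto_subseq (x := u) (fun n => Set.mem_univ _)
  have hcau := hlim.cauchySeq
  rw [Metric.cauchySeq_iff] at hcau
  obtain ⟨n, hn⟩ := hcau (ε / 3) (by positivity)
  have h1 := hn n le_rfl (n + 1) (Nat.le_succ n)
  set p := φ n with hp
  set q := φ (n + 1) with hq
  have hpq : p ≠ q := (hφ (Nat.lt_succ_self n)).ne
  have h2 : (del p - del q : DD) ∈ (NN : Set DD) := by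
    apply hVN
    show ((del p - del q : DD)).toContinuousMap ∈ V
    apply hKW
    intro x hx
    apply hεW
    obtain ⟨y, hy, hxy⟩ := Set.mem_iUnion₂.1 (htK hx)
    rw [Metric.mem_ball] at hxy
    have h3 : dist (x p) (y p) < ε / 3 := lt_of_le_of_lt (BoundedContinuousFunction.dist_coe_le_dist p) hxy
    have h4 : dist (x q) (y q) < ε / 3 := lt_of_le_of_lt (BoundedContinuousFunction.dist_coe_le_dist q) hxy
    have h5 : dist (y p) (y q) < ε / 3 := by
      have := (dist_pi_lt_iff (by positivity : (0 : ℝ) < ε / 3)).1 h1 ⟨y, hy⟩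
      exact this
    show dist (0 : TT) (x p - x q) < ε
    rw [dist_comm, dist_zero_right, ← dist_eq_norm]
    have h6 := dist_triangle4 (x p) (y p) (y q) (x q)
    rw [dist_comm (y q) (x q)] at h6
    linarith
  have h3 := h2 p
  have h4 : (del p - del q : DD) (ind (1 / 2) {p}) = ind (1 / 2) {p} p - ind (1 / 2) {p} q := rfl
  rw [h4, ind_of_mem (Set.mem_singleton p), ind_of_notMem (by simpa using hpq.symm),
    sub_zero] at h3
  have h5 := norm_half
  rw [h3, norm_zero] at h5
  norm_num at h5

/-- `GG` is not separable -/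
theorem not_separable : ¬ TopologicalSpace.SeparableSpace GG := by
  intro hs
  have h1 : ∀ A B : Set ℕ, A ≠ B → 1 / 2 ≤ dist (ind (1 / 2) A) (ind (1 / 2) B) := by
    intro A B hAB
    obtain ⟨k, hk⟩ : ∃ k, ¬ (k ∈ A ↔ k ∈ B) := by
      by_contra hcon
      push Not at hcon
      exact hAB (Set.ext hcon)
    refine le_trans ?_ (BoundedContinuousFunction.dist_coe_le_dist k)
    by_cases hA : k ∈ A
    · have hB : k ∉ B := fun hB => hk ⟨fun _ => hB, fun _ => hA⟩
      rw [ind_of_mem hA, ind_of_notMem hB, dist_zero_right, norm_half]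
    · have hB : k ∈ B := by
        by_contra hB
        exact hk ⟨fun h => absurd h hA, fun h => absurd h hB⟩
      rw [ind_of_mem hB, ind_of_notMem hA, dist_comm, dist_zero_right, norm_half]
  have h2 : (Set.univ : Set (Set ℕ)).PairwiseDisjoint
      (fun A => Metric.ball (ind (1 / 2) A) (1 / 4)) := by
    intro A _ B _ hAB
    rw [Function.onFun, Set.disjoint_left]
    intro x hx hy
    rw [Metric.mem_ball] at hx hy
    have h3 := h1 A B hAB
    have h4 := dist_triangle_left (ind (1 / 2) A) (ind (1 / 2) B) x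
    linarith
  have h3 := h2.countable_of_isOpen (fun A _ => Metric.isOpen_ball)
    (fun A _ => ⟨_, Metric.mem_ball_self (by norm_num)⟩)
  rw [Set.countable_univ_iff] at h3
  obtain ⟨f, hf⟩ := h3.exists_injective_nat
  exact Function.cantor_injective f hf

end Pool.Agent.V1129.SG
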