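import Pool.Agent.V1129.Boom2

/-!
# Thompson's group `F`
-/

open Topology Filter Set

namespace Pool.Agent.V1129.ThF

/-- `x` is a dyadic rational number. -/
def IsDyadic (x : ℝ) : Prop := ∃ (a : ℤ) (n : ℕ), x = a / 2 ^ n

theorem IsDyadic.add {x y : ℝ} (hx : IsDyadic x) (hy : IsDyadic y) : IsDyadic (x + y) := by
  obtain ⟨a, n, rfl⟩ := hx
  obtain ⟨b, m, rfl⟩ := hy
  refine ⟨a * 2 ^ m + b * 2 ^ n, n + m, ?_⟩
  push_cast
  field_simp
  ring

theorem IsDyadic.mul {x y : ℝ} (hx : IsDyadic x) (hy : IsDyadic y) : IsDyadic (x * y) := by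
  obtain ⟨a, n, rfl⟩ := hx
  obtain ⟨b, m, rfl⟩ := hy
  refine ⟨a * b, n + m, ?_⟩
  push_cast
  field_simp
  ring

theorem isDyadic_int (a : ℤ) : IsDyadic (a : ℝ) := ⟨a, 0, by simp⟩

theorem IsDyadic.neg {x : ℝ} (hx : IsDyadic x) : IsDyadic (-x) := by
  obtain ⟨a, n, rfl⟩ := hx
  refine ⟨-a, n, ?_⟩
  push_cast
  ring

theorem IsDyadic.sub {x y : ℝ} (hx : IsDyadic x) (hy : IsDyadic y) : IsDyadic (x - y) := by
  rw [sub_eq_add_neg]
  exact hx.add hy.neg

theorem isDyadic_zpow (k : ℤ) : IsDyadic ((2 : ℝ) ^ k) := by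
  rcases le_or_gt 0 k with h | h
  · obtain ⟨n, rfl⟩ := Int.eq_ofNat_of_zero_le h
    exact ⟨2 ^ n, 0, by simp⟩
  · obtain ⟨n, hn⟩ := Int.eq_ofNat_of_zero_le (neg_nonneg.mpr h.le)
    refine ⟨1, n, ?_⟩
    have : k = -(n : ℤ) := by omega
    rw [this, zpow_neg]
    simp

theorem isDyadic_zero : IsDyadic 0 := by simpa using isDyadic_int 0
theorem isDyadic_one : IsDyadic 1 := by simpa using isDyadic_int 1

theorem isDyadic_quarter (x : ℝ) (hx : IsDyadic x) : IsDyadic (x / 4) := by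
  have h := hx.mul (isDyadic_zpow (-2))
  have e : x * (2 : ℝ) ^ (-2 : ℤ) = x / 4 := by
    rw [zpow_neg]
    norm_num
    ring
  rwa [e] at h

theorem isDyadic_half (x : ℝ) (hx : IsDyadic x) : IsDyadic (x / 2) := by
  have h := hx.mul (isDyadic_zpow (-1))
  have e : x * (2 : ℝ) ^ (-1 : ℤ) = x / 2 := by
    rw [zpow_neg]
    norm_num
    ring
  rwa [e] at h

theorem exists_dyadic_between {x y : ℝ} (h : x < y) : ∃ d, IsDyadic d ∧ x < d ∧ d < y := by
  obtain ⟨n, hn⟩ := pow_unbounded_of_one_lt (1 / (y - x)) (by norm_num : (1 : ℝ) < 2)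
  have hpos : 0 < y - x := sub_pos.mpr h
  have h2 : (0 : ℝ) < 2 ^ n := by positivity
  have h1 : 1 < 2 ^ n * (y - x) := by
    rw [div_lt_iff₀ hpos] at hn
    exact hn
  refine ⟨(⌊x * 2 ^ n⌋ + 1 : ℤ) / 2 ^ n, ⟨_, n, rfl⟩, ?_, ?_⟩
  · rw [lt_div_iff₀ h2]
    push_cast
    exact Int.lt_floor_add_one _
  · rw [div_lt_iff₀ h2]
    push_cast
    have := Int.floor_le (x * 2 ^ n)
    nlinarith

/-- The defining property of the elements of Thompson's group `F`, extended by the identity to the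
real line: `f` is the identity outside `(0, 1)` and there is a finite set `S` of dyadic rationals
such that around every point of `(0, 1)` outside `S` the map `f` is affine with slope an integer
power of two. -/
def InF (f : ℝ ≃o ℝ) : Prop :=
  (∀ x, x ≤ 0 ∨ 1 ≤ x → f x = x) ∧
    ∃ S : Finset ℝ, (∀ s ∈ S, IsDyadic s) ∧
      ∀ x, 0 < x → x < 1 → x ∉ S → ∃ k : ℤ, ∀ᶠ y in 𝓝 x, f y = f x + 2 ^ k * (y - x)

theorem affine_of_no_break (f : ℝ ≃o ℝ) {p q : ℝ} (hpq : p < q)
    (h : ∀ x, p < x → x < q → ∃ k : ℤ, ∀ᶠ y in 𝓝 x, f y = f x + 2 ^ k * (y - x)) :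
    ∃ k : ℤ, ∀ x, p ≤ x → x ≤ q → f x = f p + 2 ^ k * (x - p) := by
  -- the derivative is locally constant
  have hD : ∀ x, p < x → x < q → ∀ k : ℤ, (∀ᶠ y in 𝓝 x, f y = f x + 2 ^ k * (y - x)) →
      ∀ᶠ z in 𝓝 x, deriv f z = 2 ^ k := by
    intro x hx hx' k hk
    have h1 : (f : ℝ → ℝ) =ᶠ[𝓝 x] fun y => f x + 2 ^ k * (y - x) := hk
    have h2 : ∀ᶠ z in 𝓝 x, (f : ℝ → ℝ) =ᶠ[𝓝 z] fun y => f x + 2 ^ k * (y - x) :=
      h1.eventuallyEq_nhds
    filter_upwards [h2] with z hz
    rw [hz.deriv_eq]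
    have : HasDerivAt (fun y : ℝ => f x + 2 ^ k * (y - x)) (2 ^ k * 1) z :=
      (((hasDerivAt_id z).sub_const x).const_mul ((2 : ℝ) ^ k)).const_add (f x)
    rw [this.deriv, mul_one]
  have hdiff : ∀ x, p < x → x < q → DifferentiableAt ℝ f x := by
    intro x hx hx'
    obtain ⟨k, hk⟩ := h x hx hx'
    have h1 : (f : ℝ → ℝ) =ᶠ[𝓝 x] fun y => f x + 2 ^ k * (y - x) := hk
    have : HasDerivAt (fun y : ℝ => f x + 2 ^ k * (y - x)) (2 ^ k * 1) x :=
      (((hasDerivAt_id x).sub_const x).const_mul ((2 : ℝ) ^ k)).const_add (f x)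
    exact (this.differentiableAt).congr_of_eventuallyEq h1
  obtain ⟨m, hm, hm'⟩ := exists_between hpq
  obtain ⟨k, hk⟩ := h m hm hm'
  have hDm : deriv f m = 2 ^ k := (hD m hm hm' k hk).self_of_nhds
  have hconst : ∀ x, p < x → x < q → deriv f x = 2 ^ k := by
    intro x hx hx'
    rw [← hDm]
    refine IsOpen.is_const_of_deriv_eq_zero (𝕜 := ℝ) (s := Ioo p q) isOpen_Ioo
      isPreconnected_Ioo ?_ ?_ ⟨hx, hx'⟩ ⟨hm, hm'⟩
    · intro y hy
      obtain ⟨l, hl⟩ := h y hy.1 hy.2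
      have h1 : deriv f =ᶠ[𝓝 y] fun _ => (2 : ℝ) ^ l := hD y hy.1 hy.2 l hl
      exact ((differentiableAt_const _).congr_of_eventuallyEq h1).differentiableWithinAt
    · intro y hy
      obtain ⟨l, hl⟩ := h y hy.1 hy.2
      have h1 : deriv f =ᶠ[𝓝 y] fun _ => (2 : ℝ) ^ l := hD y hy.1 hy.2 l hl
      rw [h1.deriv_eq]
      simp
  have haff : ∀ x, p < x → x < q → f x - 2 ^ k * x = f m - 2 ^ k * m := by
    intro x hx hx'
    refine IsOpen.is_const_of_deriv_eq_zero (𝕜 := ℝ) (s := Ioo p q)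
      (f := fun y => f y - 2 ^ k * y) isOpen_Ioo isPreconnected_Ioo ?_ ?_ ⟨hx, hx'⟩ ⟨hm, hm'⟩
    · intro y hy
      exact ((hdiff y hy.1 hy.2).sub ((differentiableAt_id).const_mul _)).differentiableWithinAt
    · intro y hy
      have h1 : HasDerivAt (fun y => f y - 2 ^ k * y) (deriv f y - 2 ^ k * 1) y :=
        (hdiff y hy.1 hy.2).hasDerivAt.sub ((hasDerivAt_id y).const_mul _)
      rw [h1.deriv, hconst y hy.1 hy.2]
      simp
  have hcont : Continuous fun y => f y - 2 ^ k * y :=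
    f.continuous.sub (continuous_const.mul continuous_id)
  have hcl : ∀ x ∈ Icc p q, f x - 2 ^ k * x = f m - 2 ^ k * m := by
    intro x hx
    have hsub : Icc p q ⊆ {x | f x - 2 ^ k * x = f m - 2 ^ k * m} := by
      rw [← closure_Ioo hpq.ne]
      refine closure_minimal ?_ (isClosed_eq hcont continuous_const)
      intro y hy
      exact haff y hy.1 hy.2
    exact hsub hx
  refine ⟨k, fun x hx hx' => ?_⟩
  have e1 := hcl x ⟨hx, hx'⟩
  have e2 := hcl p ⟨le_rfl, hpq.le⟩
  linarith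

theorem InF.zero {f : ℝ ≃o ℝ} (hf : InF f) : f 0 = 0 := hf.1 0 (Or.inl le_rfl)
theorem InF.one {f : ℝ ≃o ℝ} (hf : InF f) : f 1 = 1 := hf.1 1 (Or.inr le_rfl)

theorem InF.mem_Ioo {f : ℝ ≃o ℝ} (hf : InF f) {x : ℝ} (h0 : 0 < x) (h1 : x < 1) :
    0 < f x ∧ f x < 1 := by
  have a := f.strictMono h0
  have b := f.strictMono h1
  rw [hf.zero] at a
  rw [hf.one] at b
  exact ⟨a, b⟩

theorem InF.dyadic {f : ℝ ≃o ℝ} (hf : InF f) {x : ℝ} (hx : IsDyadic x) : IsDyadic (f x) := by
  obtain ⟨S, hS, hloc⟩ := hf.2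
  have key : ∀ n : ℕ, ∀ x, IsDyadic x → 0 ≤ x → x ≤ 1 →
      (S.filter fun s => 0 < s ∧ s < x).card ≤ n → IsDyadic (f x) := by
    intro n
    induction n with
    | zero =>
      intro x hx h0 h1 hc
      rcases eq_or_lt_of_le h0 with rfl | h0'
      · rw [hf.zero]; exact isDyadic_zero
      · have hno : ∀ s ∈ S, ¬ (0 < s ∧ s < x) := by
          intro s hs hs'
          have hmem : s ∈ S.filter fun s => 0 < s ∧ s < x := Finset.mem_filter.2 ⟨hs, hs'⟩
          have : 0 < (S.filter fun s => 0 < s ∧ s < x).card := Finset.card_pos.2 ⟨s, hmem⟩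
          omega
        obtain ⟨k, hk⟩ := affine_of_no_break f h0' (fun y hy hy' => hloc y hy (hy'.trans_le h1)
          (fun hyS => hno y hyS ⟨hy, hy'⟩))
        rw [hk x h0 le_rfl, hf.zero]
        exact isDyadic_zero.add ((isDyadic_zpow k).mul (hx.sub isDyadic_zero))
    | succ n ih =>
      intro x hx h0 h1 hc
      rcases eq_or_lt_of_le h0 with rfl | h0'
      · rw [hf.zero]; exact isDyadic_zero
      by_cases hne : (S.filter fun s => 0 < s ∧ s < x).Nonempty
      · set s := (S.filter fun s => 0 < s ∧ s < x).max' hne with hs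
        have hsmem : s ∈ S.filter fun s => 0 < s ∧ s < x := Finset.max'_mem _ _
        obtain ⟨hsS, hs0, hsx⟩ := Finset.mem_filter.1 hsmem
        have hfs : IsDyadic (f s) := by
          apply ih s (hS s hsS) hs0.le (hsx.le.trans h1)
          have hlt : (S.filter fun s' => 0 < s' ∧ s' < s).card <
              (S.filter fun s => 0 < s ∧ s < x).card := by
            apply Finset.card_lt_card
            refine ⟨?_, ?_⟩
            · intro y hy
              obtain ⟨hy1, hy2, hy3⟩ := Finset.mem_filter.1 hy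
              exact Finset.mem_filter.2 ⟨hy1, hy2, hy3.trans hsx⟩
            · intro hsub
              have := hsub hsmem
              obtain ⟨_, _, h3⟩ := Finset.mem_filter.1 this
              exact lt_irrefl _ h3
          omega
        obtain ⟨k, hk⟩ := affine_of_no_break f hsx (fun y hy hy' => hloc y (hs0.trans hy)
          (hy'.trans_le h1) (fun hyS => by
            have hmem : y ∈ S.filter fun s => 0 < s ∧ s < x :=
              Finset.mem_filter.2 ⟨hyS, hs0.trans hy, hy'⟩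
            have := Finset.le_max' _ y hmem
            rw [← hs] at this
            exact absurd hy (not_lt.mpr this)))
        rw [hk x hsx.le le_rfl]
        exact hfs.add ((isDyadic_zpow k).mul (hx.sub (hS s hsS)))
      · rw [Finset.not_nonempty_iff_eq_empty] at hne
        have hno : ∀ s ∈ S, ¬ (0 < s ∧ s < x) := by
          intro s hs hs'
          have hmem : s ∈ S.filter fun s => 0 < s ∧ s < x := Finset.mem_filter.2 ⟨hs, hs'⟩
          rw [hne] at hmem
          simp at hmem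
        obtain ⟨k, hk⟩ := affine_of_no_break f h0' (fun y hy hy' => hloc y hy (hy'.trans_le h1)
          (fun hyS => hno y hyS ⟨hy, hy'⟩))
        rw [hk x h0 le_rfl, hf.zero]
        exact isDyadic_zero.add ((isDyadic_zpow k).mul (hx.sub isDyadic_zero))
  rcases le_or_gt x 0 with h | h
  · rw [hf.1 x (Or.inl h)]; exact hx
  rcases le_or_gt 1 x with h' | h'
  · rw [hf.1 x (Or.inr h')]; exact hx
  exact key _ x hx h.le h'.le le_rfl

theorem inF_one : InF 1 := by
  refine ⟨fun _ _ => rfl, ∅, by simp, fun x _ _ _ => ⟨0, ?_⟩⟩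
  filter_upwards with y
  rw [RelIso.one_apply, RelIso.one_apply]
  simp

theorem InF.inv {f : ℝ ≃o ℝ} (hf : InF f) : InF f⁻¹ := by
  classical
  obtain ⟨h1, S, hS, hloc⟩ := id hf
  refine ⟨?_, S.image f, ?_, ?_⟩
  · intro x hx
    have h2 : f⁻¹ (f x) = x := RelIso.inv_apply_self f x
    rwa [h1 x hx] at h2
  · intro s hs
    obtain ⟨t, ht, rfl⟩ := Finset.mem_image.1 hs
    exact hf.dyadic (hS t ht)
  · intro y hy0 hy1 hyS
    set x := f⁻¹ y with hx
    have hfx : f x = y := RelIso.apply_inv_self f y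
    have hx0 : 0 < x := by
      by_contra hcon
      have := h1 x (Or.inl (not_lt.mp hcon))
      rw [hfx] at this
      linarith [not_lt.mp hcon]
    have hx1 : x < 1 := by
      by_contra hcon
      have := h1 x (Or.inr (not_lt.mp hcon))
      rw [hfx] at this
      linarith [not_lt.mp hcon]
    have hxS : x ∉ S := by
      intro hxS
      apply hyS
      exact Finset.mem_image.2 ⟨x, hxS, hfx⟩
    obtain ⟨k, hk⟩ := hloc x hx0 hx1 hxS
    refine ⟨-k, ?_⟩
    have hcont : Tendsto (f⁻¹ : ℝ ≃o ℝ) (𝓝 y) (𝓝 x) := (f⁻¹).continuous.tendsto y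
    filter_upwards [hcont.eventually hk] with w hw
    have e1 : f (f⁻¹ w) = w := RelIso.apply_inv_self f w
    rw [e1, hfx] at hw
    have hpos : (2 : ℝ) ^ k ≠ 0 := by positivity
    rw [zpow_neg]
    field_simp
    linarith

theorem InF.mul {f g : ℝ ≃o ℝ} (hf : InF f) (hg : InF g) : InF (f * g) := by
  classical
  obtain ⟨h1, S, hS, hloc⟩ := id hf
  obtain ⟨h1', S', hS', hloc'⟩ := id hg
  refine ⟨?_, S' ∪ S.image (g⁻¹ : ℝ ≃o ℝ), ?_, ?_⟩
  · intro x hx
    rw [RelIso.mul_apply, h1' x hx, h1 x hx]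
  · intro s hs
    rcases Finset.mem_union.1 hs with h | h
    · exact hS' s h
    · obtain ⟨t, ht, rfl⟩ := Finset.mem_image.1 h
      exact hg.inv.dyadic (hS t ht)
  · intro x hx0 hx1 hxS
    rw [Finset.mem_union, not_or] at hxS
    obtain ⟨hx2, hx3⟩ := hxS
    have hgx := hg.mem_Ioo hx0 hx1
    have hgxS : g x ∉ S := by
      intro h
      apply hx3
      exact Finset.mem_image.2 ⟨g x, h, RelIso.inv_apply_self g x⟩
    obtain ⟨k, hk⟩ := hloc' x hx0 hx1 hx2
    obtain ⟨l, hl⟩ := hloc (g x) hgx.1 hgx.2 hgxS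
    refine ⟨l + k, ?_⟩
    have hcont : Tendsto g (𝓝 x) (𝓝 (g x)) := g.continuous.tendsto x
    filter_upwards [hcont.eventually hl, hk] with y hy1 hy2
    rw [RelIso.mul_apply, RelIso.mul_apply, hy1, hy2, zpow_add₀ (by norm_num)]
    ring

/-- **Thompson's group `F`**, as a group of order automorphisms of the real line which are the
identity outside `(0, 1)`. -/
def ThompsonF : Subgroup (ℝ ≃o ℝ) where
  carrier := {f | InF f}
  one_mem' := inF_one
  mul_mem' := fun ha hb => InF.mul ha hb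
  inv_mem' := fun ha => InF.inv ha

end Pool.Agent.V1129.ThF
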